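import Mathlib

set_option autoImplicit false
open Filter Topology MeasureTheory

namespace Pool.Agent.MP_535d13_an

/-- strong law for bounded functions with few correlations -/
lemma slln (Y : ℕ → ℝ → ℝ) (C : ℝ) (hm : ∀ i, Measurable (Y i)) (hb : ∀ i x, |Y i x| ≤ 1)
    (hint : ∀ M : ℕ, ∫ x in Set.Ioc (0 : ℝ) 1, (∑ i ∈ Finset.range M, Y i x) ^ 2 ≤ C * M) :
    ∀ᵐ x ∂(volume.restrict (Set.Ioc (0 : ℝ) 1)),
      Tendsto (fun M : ℕ => (∑ i ∈ Finset.range M, Y i x) / M) atTop (𝓝 0) := by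
  set μ := volume.restrict (Set.Ioc (0 : ℝ) 1) with hμ
  set S : ℕ → ℝ → ℝ := fun M x => ∑ i ∈ Finset.range M, Y i x with hS
  have hSm : ∀ M, Measurable (S M) := fun M => Finset.measurable_fun_sum _ (fun i _ => hm i)
  have hSb : ∀ M x, |S M x| ≤ M := by
    intro M x
    refine (Finset.abs_sum_le_sum_abs _ _).trans ?_
    refine (Finset.sum_le_sum (fun i _ => hb i x)).trans ?_
    simp
  have hC : 0 ≤ C := by
    have h1 := hint 1
    have h2 : 0 ≤ ∫ x in Set.Ioc (0 : ℝ) 1, (∑ i ∈ Finset.range 1, Y i x) ^ 2 :=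
      integral_nonneg (fun x => sq_nonneg _)
    simp only [Nat.cast_one, mul_one] at h1
    linarith
  -- second moments along squares
  set Z : ℕ → ℝ → ℝ := fun k x => (S ((k + 1) ^ 2) x / ((k + 1) ^ 2 : ℕ)) ^ 2 with hZ
  have hZm : ∀ k, Measurable (Z k) := fun k => ((hSm _).div_const _).pow_const 2
  have hlint : ∀ k, ∫⁻ x, ENNReal.ofReal (Z k x) ∂μ ≤ ENNReal.ofReal (C * (1 / ((k : ℝ) + 1) ^ 2)) := by
    intro k
    have hintg : Integrable (Z k) μ := by
      refine Integrable.mono' (g := fun _ => (1 : ℝ)) (integrable_const _)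
        (hZm k).aestronglyMeasurable (Eventually.of_forall (fun x => ?_))
      simp only [hZ]
      rw [Real.norm_eq_abs, abs_of_nonneg (sq_nonneg _), ← sq_abs, abs_div]
      have h1 := hSb ((k + 1) ^ 2) x
      have h2 : (0 : ℝ) < ((k + 1) ^ 2 : ℕ) := by positivity
      rw [abs_of_pos h2]
      have h3 : |S ((k + 1) ^ 2) x| / ((k + 1) ^ 2 : ℕ) ≤ 1 := by
        rw [div_le_one h2]; exact h1
      have h4 : 0 ≤ |S ((k + 1) ^ 2) x| / ((k + 1) ^ 2 : ℕ) := by positivity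
      nlinarith
    rw [← ofReal_integral_eq_lintegral_ofReal hintg
      (Eventually.of_forall (fun x => by simp only [hZ]; exact sq_nonneg _))]
    apply ENNReal.ofReal_le_ofReal
    have e1 : ∫ x, Z k x ∂μ = (∫ x in Set.Ioc (0 : ℝ) 1, (∑ i ∈ Finset.range ((k + 1) ^ 2), Y i x) ^ 2)
        / (((k + 1) ^ 2 : ℕ) : ℝ) ^ 2 := by
      rw [← integral_div]
      congr 1
      ext x
      simp only [hZ, hS]
      rw [div_pow]
    rw [e1]
    have h2 := hint ((k + 1) ^ 2)
    have h3 : (0 : ℝ) < (((k + 1) ^ 2 : ℕ) : ℝ) := by positivity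
    rw [div_le_iff₀ (by positivity)]
    refine h2.trans (le_of_eq ?_)
    push_cast
    field_simp
  have hsum : ∫⁻ x, ∑' k, ENNReal.ofReal (Z k x) ∂μ ≠ ⊤ := by
    rw [lintegral_tsum (fun k => (hZm k).ennreal_ofReal.aemeasurable)]
    apply ne_top_of_le_ne_top _ (ENNReal.tsum_le_tsum hlint)
    rw [← ENNReal.ofReal_tsum_of_nonneg]
    · exact ENNReal.ofReal_ne_top
    · intro k; positivity
    · apply Summable.mul_left
      have h := (summable_nat_add_iff 1 (f := fun n : ℕ => 1 / (n : ℝ) ^ 2)).mpr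
        (Real.summable_one_div_nat_pow.mpr (by norm_num))
      refine h.congr (fun n => ?_)
      push_cast
      ring
  have hae := ae_lt_top' (μ := μ) (f := fun x => ∑' k, ENNReal.ofReal (Z k x))
    (Measurable.aemeasurable (Measurable.tsum (fun k => (hZm k).ennreal_ofReal))) hsum
  filter_upwards [hae] with x hx
  have hZ0 : Tendsto (fun k => Z k x) atTop (𝓝 0) := by
    have h1 := ENNReal.tendsto_atTop_zero_of_tsum_ne_top hx.ne
    have h2 := (ENNReal.tendsto_toReal ENNReal.zero_ne_top).comp h1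
    simp only [ENNReal.toReal_zero] at h2
    refine h2.congr (fun k => ?_)
    simp only [Function.comp]
    rw [ENNReal.toReal_ofReal (by simp only [hZ]; exact sq_nonneg _)]
  have hsq : Tendsto (fun k : ℕ => |S ((k + 1) ^ 2) x / ((k + 1) ^ 2 : ℕ)|) atTop (𝓝 0) := by
    have h1 := hZ0.sqrt
    rw [Real.sqrt_zero] at h1
    refine h1.congr (fun k => ?_)
    simp only [hZ]
    rw [Real.sqrt_sq_eq_abs]
  -- interpolation
  have hT : Tendsto (fun k : ℕ => |S ((k + 1) ^ 2) x / ((k + 1) ^ 2 : ℕ)| + 2 * (1 / ((k : ℝ) + 1)))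
      atTop (𝓝 0) := by
    have := hsq.add ((tendsto_one_div_add_atTop_nhds_zero_nat (𝕜 := ℝ)).const_mul 2)
    simpa using this
  have hsqrt : Tendsto (fun M : ℕ => Nat.sqrt M - 1) atTop atTop := by
    rw [tendsto_atTop_atTop]
    intro b
    refine ⟨(b + 1) ^ 2, fun a ha => ?_⟩
    have : b + 1 ≤ Nat.sqrt a := by
      rw [Nat.le_sqrt']
      exact ha
    omega
  have hfin := hT.comp hsqrt
  rw [tendsto_zero_iff_abs_tendsto_zero]
  refine squeeze_zero' (Eventually.of_forall (fun _ => abs_nonneg _)) ?_ hfin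
  filter_upwards [eventually_ge_atTop 1] with M hM
  simp only [Function.comp]
  obtain ⟨k, hk⟩ : ∃ k, Nat.sqrt M = k + 1 := by
    have : 0 < Nat.sqrt M := Nat.sqrt_pos.mpr hM
    exact ⟨Nat.sqrt M - 1, by omega⟩
  have hk1 : (k + 1) ^ 2 ≤ M := by
    have := Nat.sqrt_le' M
    rwa [hk] at this
  have hk2 : M < (k + 2) ^ 2 := by
    have := Nat.lt_succ_sqrt' M
    rwa [hk] at this
  rw [hk, Nat.add_sub_cancel]
  have hMr : (0 : ℝ) < M := by exact_mod_cast hM
  have hk1r : ((k : ℝ) + 1) ^ 2 ≤ M := by exact_mod_cast hk1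
  have hk2r : (M : ℝ) < ((k : ℝ) + 2) ^ 2 := by exact_mod_cast hk2
  have hk2' : (M : ℝ) ≤ ((k : ℝ) + 1) ^ 2 + 2 * ((k : ℝ) + 1) := by
    have : M ≤ (k + 1) ^ 2 + 2 * (k + 1) := by nlinarith
    exact_mod_cast this
  have hdiff : |S M x| ≤ |S ((k + 1) ^ 2) x| + 2 * ((k : ℝ) + 1) := by
    have e1 : S M x = S ((k + 1) ^ 2) x + ∑ i ∈ Finset.Ico ((k + 1) ^ 2) M, Y i x := by
      simp only [hS]
      rw [Finset.sum_range_add_sum_Ico _ hk1]
    rw [e1]
    refine (abs_add_le _ _).trans ?_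
    gcongr
    refine (Finset.abs_sum_le_sum_abs _ _).trans ?_
    refine (Finset.sum_le_sum (fun i _ => hb i x)).trans ?_
    simp only [Finset.sum_const, Nat.card_Ico, nsmul_eq_mul, mul_one]
    rw [Nat.cast_sub hk1]
    push_cast
    linarith
  have hc : (0 : ℝ) < ((k : ℝ) + 1) ^ 2 := by positivity
  rw [abs_div, abs_of_pos hMr, abs_div]
  have e2 : |(((k + 1) ^ 2 : ℕ) : ℝ)| = ((k : ℝ) + 1) ^ 2 := by
    rw [abs_of_nonneg (by positivity)]; push_cast; ring
  rw [e2]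
  calc |S M x| / M ≤ (|S ((k + 1) ^ 2) x| + 2 * ((k : ℝ) + 1)) / ((k : ℝ) + 1) ^ 2 := by
        apply div_le_div₀ (by positivity) hdiff hc hk1r
    _ = |S ((k + 1) ^ 2) x| / ((k : ℝ) + 1) ^ 2 + 2 * (1 / ((k : ℝ) + 1)) := by
        field_simp

/-- the centred indicator of a residue -/
noncomputable def gg (B : ℕ) (D : ℤ) (y : ℝ) : ℝ :=
  (if ⌊y * B⌋ % (B : ℤ) = D then 1 else 0) - 1 / B

lemma gg_measurable (B : ℕ) (D : ℤ) : Measurable (gg B D) := by
  unfold gg
  apply Measurable.sub_const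
  apply Measurable.ite _ measurable_const measurable_const
  have h1 : Measurable (fun y : ℝ => ⌊y * (B : ℝ)⌋ % (B : ℤ)) := by
    have h2 : Measurable (fun y : ℝ => ⌊y * (B : ℝ)⌋) := Int.measurable_floor.comp (by fun_prop)
    exact (measurable_from_top (f := fun n : ℤ => n % (B : ℤ))).comp h2
  exact h1 (measurableSet_singleton D)

lemma gg_abs_le (B : ℕ) (hB : 0 < B) (D : ℤ) (y : ℝ) : |gg B D y| ≤ 1 := by
  unfold gg
  have h1 : (1 : ℝ) ≤ B := by exact_mod_cast hB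
  have h2 : 1 / (B : ℝ) ≤ 1 := by rw [div_le_one (by linarith)]; exact h1
  have h3 : 0 < 1 / (B : ℝ) := by positivity
  rw [abs_le]
  split_ifs <;> constructor <;> linarith

lemma gg_periodic (B : ℕ) (D : ℤ) : Function.Periodic (gg B D) 1 := by
  intro y
  unfold gg
  have : ⌊(y + 1) * (B : ℝ)⌋ % (B : ℤ) = ⌊y * (B : ℝ)⌋ % (B : ℤ) := by
    have e : (y + 1) * (B : ℝ) = y * B + ((B : ℤ) : ℝ) := by push_cast; ring
    rw [e, Int.floor_add_intCast]
    simp
  rw [this]

lemma bdd_intervalIntegrable (f : ℝ → ℝ) (hf : Measurable f) (C : ℝ) (hb : ∀ x, |f x| ≤ C)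
    (a b : ℝ) : IntervalIntegrable f volume a b := by
  refine (intervalIntegrable_const (c := C)).mono_fun' hf.aestronglyMeasurable ?_
  exact Eventually.of_forall (fun x => by
    show ‖f x‖ ≤ C
    rw [Real.norm_eq_abs]; exact hb x)

lemma gg_intervalIntegrable (B : ℕ) (hB : 0 < B) (D : ℤ) (a b : ℝ) :
    IntervalIntegrable (gg B D) volume a b :=
  bdd_intervalIntegrable _ (gg_measurable B D) 1 (gg_abs_le B hB D) a b

/-- on the basic intervals `gg` is constant -/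
lemma gg_const (B : ℕ) (hB : 0 < B) (D : ℤ) (d : ℕ) (hd : d < B) (y : ℝ)
    (hy : y ∈ Set.Ico ((d : ℝ) / B) (((d + 1 : ℕ) : ℝ) / B)) :
    gg B D y = (if (d : ℤ) = D then 1 else 0) - 1 / B := by
  have hBr : (0 : ℝ) < B := by exact_mod_cast hB
  unfold gg
  have h1 : ⌊y * (B : ℝ)⌋ = (d : ℤ) := by
    rw [Int.floor_eq_iff]
    have h2 := hy.1
    have h3 := hy.2
    rw [div_le_iff₀ hBr] at h2
    rw [lt_div_iff₀ hBr] at h3
    push_cast at h3 ⊢
    exact ⟨h2, h3⟩
  rw [h1, Int.emod_eq_of_lt (by positivity) (by exact_mod_cast hd)]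

lemma integral_split (B : ℕ) (hB : 0 < B) (f : ℝ → ℝ)
    (hf : ∀ a b, IntervalIntegrable f volume a b) :
    ∫ x in (0 : ℝ)..1, f x
      = ∑ d ∈ Finset.range B, ∫ x in ((d : ℝ) / B)..(((d + 1 : ℕ) : ℝ) / B), f x := by
  have hBr : (B : ℝ) ≠ 0 := by positivity
  have s1 := intervalIntegral.sum_integral_adjacent_intervals (μ := volume)
    (a := fun a : ℕ => (a : ℝ) / B) (f := f) (n := B) (fun k _ => hf _ _)
  simp only [Nat.cast_zero, zero_div, div_self hBr] at s1
  exact s1.symm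

lemma integral_congr_Ico (f g : ℝ → ℝ) (a b : ℝ) (hab : a ≤ b)
    (h : ∀ x ∈ Set.Ico a b, f x = g x) : ∫ x in a..b, f x = ∫ x in a..b, g x := by
  rw [intervalIntegral.integral_of_le hab, intervalIntegral.integral_of_le hab,
    integral_Ioc_eq_integral_Ioo, integral_Ioc_eq_integral_Ioo]
  apply setIntegral_congr_fun measurableSet_Ioo
  intro x hx
  exact h x ⟨hx.1.le, hx.2⟩

lemma integral_gg (B : ℕ) (hB : 0 < B) (D : ℤ) (hD0 : 0 ≤ D) (hD : D < B) :
    ∫ y in (0 : ℝ)..1, gg B D y = 0 := by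
  have hBr : (B : ℝ) ≠ 0 := by positivity
  rw [integral_split B hB _ (gg_intervalIntegrable B hB D)]
  have h1 : ∀ d ∈ Finset.range B, ∫ y in ((d : ℝ) / B)..(((d + 1 : ℕ) : ℝ) / B), gg B D y
      = ((if (d : ℤ) = D then 1 else 0) - 1 / B) * (1 / B) := by
    intro d hd
    rw [integral_congr_Ico _ (fun _ => (if (d : ℤ) = D then 1 else 0) - 1 / (B : ℝ)) _ _
      (by gcongr; linarith) (fun y hy => gg_const B hB D d (Finset.mem_range.mp hd) y hy)]
    rw [intervalIntegral.integral_const, smul_eq_mul]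
    push_cast
    ring
  rw [Finset.sum_congr rfl h1, ← Finset.sum_mul, Finset.sum_sub_distrib]
  have h2 : ∑ d ∈ Finset.range B, (if (d : ℤ) = D then (1 : ℝ) else 0) = 1 := by
    obtain ⟨n, rfl⟩ := Int.eq_ofNat_of_zero_le hD0
    have hn : n < B := by exact_mod_cast hD
    simp only [Nat.cast_inj]
    rw [Finset.sum_ite_eq' (Finset.range B) n (fun _ => (1 : ℝ)), if_pos (Finset.mem_range.mpr hn)]
  rw [h2]
  simp only [Finset.sum_const, Finset.card_range, nsmul_eq_mul]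
  field_simp
  ring

lemma integral_periodic_nat (f : ℝ → ℝ) (hper : Function.Periodic f 1)
    (hf : ∀ a b, IntervalIntegrable f volume a b) (n m : ℕ) :
    ∫ x in (n : ℝ)..((n : ℝ) + m), f x = m * ∫ x in (0 : ℝ)..1, f x := by
  have h1 := hper.intervalIntegral_add_zsmul_eq (m : ℤ) (n : ℝ) hf
  have h2 := hper.intervalIntegral_add_eq (n : ℝ) 0
  simp only [natCast_zsmul, nsmul_eq_mul, mul_one, zero_add] at h1 h2
  rw [h1, h2]

/-- vanishing of correlations at distance at least `k` -/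
lemma integral_corr (b k : ℕ) (hb : 0 < b) (D : ℤ) (hD0 : 0 ≤ D) (hD : D < (b ^ k : ℕ))
    (i l : ℕ) (hl : k ≤ l) :
    ∫ x in (0 : ℝ)..1, gg (b ^ k) D ((b : ℝ) ^ i * x) * gg (b ^ k) D ((b : ℝ) ^ (i + l) * x) = 0 := by
  have hB : 0 < b ^ k := by positivity
  have hbr : (0 : ℝ) < b := by exact_mod_cast hb
  set g := gg (b ^ k) D with hg
  set h : ℝ → ℝ := fun y => g y * g ((b : ℝ) ^ l * y) with hh
  have hgm := gg_measurable (b ^ k) D
  have hhm : Measurable h := hgm.mul (hgm.comp (by fun_prop))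
  have hhb : ∀ y, |h y| ≤ 1 := by
    intro y
    simp only [hh]
    rw [abs_mul]
    have h1 := gg_abs_le (b ^ k) hB D y
    have h2 := gg_abs_le (b ^ k) hB D ((b : ℝ) ^ l * y)
    have h3 := abs_nonneg (g y)
    have h4 := abs_nonneg (g ((b : ℝ) ^ l * y))
    rw [← hg] at h1 h2
    nlinarith
  have hhI : ∀ s t, IntervalIntegrable h volume s t := bdd_intervalIntegrable h hhm 1 hhb
  have hhper : Function.Periodic h 1 := by
    intro y
    have hgp : ∀ z, g (z + 1) = g z := gg_periodic (b ^ k) D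
    simp only [hh]
    rw [hgp y]
    congr 1
    have e : (b : ℝ) ^ l * (y + 1) = (b : ℝ) ^ l * y + ((b ^ l : ℕ) : ℝ) * 1 := by push_cast; ring
    rw [e]
    exact (gg_periodic (b ^ k) D).nat_mul (b ^ l) _
  have e1 : ∀ x : ℝ, g ((b : ℝ) ^ i * x) * g ((b : ℝ) ^ (i + l) * x) = h ((b : ℝ) ^ i * x) := by
    intro x
    simp only [hh]
    rw [pow_add]
    congr 2
    ring
  simp only [e1]
  have hbi : (b : ℝ) ^ i ≠ 0 := by positivity
  rw [intervalIntegral.integral_comp_mul_left h hbi]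
  have e2 := integral_periodic_nat h hhper hhI 0 (b ^ i)
  have e3 : ∫ x in (b : ℝ) ^ i * 0..(b : ℝ) ^ i * 1, h x = ((b ^ i : ℕ) : ℝ) * ∫ x in (0 : ℝ)..1, h x := by
    rw [← e2]
    push_cast
    simp
  rw [e3]
  have hzero : ∫ x in (0 : ℝ)..1, h x = 0 := by
    rw [integral_split (b ^ k) hB h hhI]
    apply Finset.sum_eq_zero
    intro d hd
    have hle : ((d : ℝ) / (b ^ k : ℕ)) ≤ (((d + 1 : ℕ) : ℝ) / (b ^ k : ℕ)) := by
      gcongr; linarith
    rw [integral_congr_Ico h (fun y => ((if (d : ℤ) = D then 1 else 0) - 1 / ((b ^ k : ℕ) : ℝ)) *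
      g ((b : ℝ) ^ l * y)) _ _ hle (fun y hy => by
        simp only [hh]
        rw [hg, gg_const (b ^ k) hB D d (Finset.mem_range.mp hd) y hy])]
    rw [intervalIntegral.integral_const_mul]
    have hbl : (b : ℝ) ^ l ≠ 0 := by positivity
    rw [intervalIntegral.integral_comp_mul_left g hbl]
    have hbk : (b : ℝ) ^ k ≠ 0 := by positivity
    have e4 : (b : ℝ) ^ l * ((d : ℝ) / (b ^ k : ℕ)) = ((d * b ^ (l - k) : ℕ) : ℝ) := by
      have : (b : ℝ) ^ l = (b : ℝ) ^ (l - k) * (b : ℝ) ^ k := by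
        rw [← pow_add]; congr 1; omega
      rw [this]
      push_cast
      field_simp
    have e5 : (b : ℝ) ^ l * (((d + 1 : ℕ) : ℝ) / (b ^ k : ℕ))
        = ((d * b ^ (l - k) : ℕ) : ℝ) + ((b ^ (l - k) : ℕ) : ℝ) := by
      have : (b : ℝ) ^ l = (b : ℝ) ^ (l - k) * (b : ℝ) ^ k := by
        rw [← pow_add]; congr 1; omega
      rw [this]
      push_cast
      field_simp
    rw [e4, e5, integral_periodic_nat g (gg_periodic (b ^ k) D)
      (gg_intervalIntegrable (b ^ k) hB D), integral_gg (b ^ k) hB D hD0 hD]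
    simp
  rw [hzero]
  simp

end Pool.Agent.MP_535d13_an
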