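import Mathlib
import Pool.Agent.Lib.MP_535d13_an.Normal

set_option autoImplicit false
open Filter Topology MeasureTheory

namespace Pool.Agent.MP_535d13_an

lemma second_moment (b k : ℕ) (hb : 0 < b) (D : ℤ) (hD0 : 0 ≤ D) (hD : D < (b ^ k : ℕ)) (M : ℕ) :
    ∫ x in Set.Ioc (0 : ℝ) 1, (∑ i ∈ Finset.range M, gg (b ^ k) D ((b : ℝ) ^ i * x)) ^ 2
      ≤ (2 * k : ℝ) * M := by
  have hB : 0 < b ^ k := by positivity
  set Y : ℕ → ℝ → ℝ := fun i x => gg (b ^ k) D ((b : ℝ) ^ i * x) with hY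
  have hYm : ∀ i, Measurable (Y i) := fun i => (gg_measurable (b ^ k) D).comp (by fun_prop)
  have hYb : ∀ i x, |Y i x| ≤ 1 := fun i x => gg_abs_le (b ^ k) hB D _
  have hYYb : ∀ i j x, |Y i x * Y j x| ≤ 1 := by
    intro i j x
    rw [abs_mul]
    have h1 := hYb i x
    have h2 := hYb j x
    have h3 := abs_nonneg (Y i x)
    have h4 := abs_nonneg (Y j x)
    nlinarith
  have hYYI : ∀ i j, IntervalIntegrable (fun x => Y i x * Y j x) volume 0 1 := fun i j =>
    bdd_intervalIntegrable _ ((hYm i).mul (hYm j)) 1 (hYYb i j) 0 1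
  have e1 : ∀ x, (∑ i ∈ Finset.range M, Y i x) ^ 2
      = ∑ i ∈ Finset.range M, ∑ j ∈ Finset.range M, Y i x * Y j x := by
    intro x
    rw [pow_two, Finset.sum_mul_sum]
  have e2 : ∫ x in Set.Ioc (0 : ℝ) 1, (∑ i ∈ Finset.range M, Y i x) ^ 2
      = ∑ i ∈ Finset.range M, ∑ j ∈ Finset.range M, ∫ x in (0 : ℝ)..1, Y i x * Y j x := by
    rw [← intervalIntegral.integral_of_le zero_le_one]
    simp only [e1]
    rw [intervalIntegral.integral_finsetSum]
    · refine Finset.sum_congr rfl (fun i _ => ?_)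
      rw [intervalIntegral.integral_finsetSum]
      intro j _
      exact hYYI i j
    · intro i _
      have : (fun x => ∑ j ∈ Finset.range M, Y i x * Y j x)
          = ∑ j ∈ Finset.range M, (fun x => Y i x * Y j x) := by
        ext x; rw [Finset.sum_apply]
      rw [this]
      exact IntervalIntegrable.sum _ (fun j _ => hYYI i j)
  rw [e2]
  have h1 : ∀ i ∈ Finset.range M, ∀ j ∈ Finset.range M, ∫ x in (0 : ℝ)..1, Y i x * Y j x
      ≤ if j ∈ Finset.Ico (i + 1 - k) (i + k) then 1 else 0 := by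
    intro i _ j _
    split_ifs with h
    · have h2 := intervalIntegral.norm_integral_le_of_norm_le_const (a := 0) (b := 1) (C := 1)
        (f := fun x => Y i x * Y j x) (fun x _ => by rw [Real.norm_eq_abs]; exact hYYb i j x)
      have h3 := le_abs_self (∫ x in (0 : ℝ)..1, Y i x * Y j x)
      rw [Real.norm_eq_abs] at h2
      simp only [sub_zero, abs_one, mul_one] at h2
      linarith
    · rw [Finset.mem_Ico, not_and_or] at h
      apply le_of_eq
      rcases h with h | h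
      · -- j + k ≤ i
        have hji : j + k ≤ i := by omega
        obtain ⟨l, hl⟩ : ∃ l, i = j + l := ⟨i - j, by omega⟩
        have := integral_corr b k hb D hD0 hD j l (by omega)
        rw [← hl] at this
        rw [← this]
        congr 1
        ext x
        simp only [hY]
        ring
      · have hji : i + k ≤ j := by omega
        obtain ⟨l, hl⟩ : ∃ l, j = i + l := ⟨j - i, by omega⟩
        have := integral_corr b k hb D hD0 hD i l (by omega)
        rw [← hl] at this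
        exact this
  refine (Finset.sum_le_sum (fun i hi => Finset.sum_le_sum (fun j hj => h1 i hi j hj))).trans ?_
  have h2 : ∀ i ∈ Finset.range M, ∑ j ∈ Finset.range M,
      (if j ∈ Finset.Ico (i + 1 - k) (i + k) then (1 : ℝ) else 0) ≤ 2 * k := by
    intro i _
    rw [← Finset.sum_filter]
    rw [Finset.sum_const, nsmul_eq_mul, mul_one]
    have h3 : (Finset.filter (fun j => j ∈ Finset.Ico (i + 1 - k) (i + k)) (Finset.range M)).card
        ≤ 2 * k := by
      calc _ ≤ (Finset.Ico (i + 1 - k) (i + k)).card := by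
            apply Finset.card_le_card
            intro j hj
            exact (Finset.mem_filter.mp hj).2
        _ = (i + k) - (i + 1 - k) := Nat.card_Ico _ _
        _ ≤ 2 * k := by omega
    exact_mod_cast h3
  refine (Finset.sum_le_sum h2).trans ?_
  rw [Finset.sum_const, Finset.card_range, nsmul_eq_mul]
  linarith

lemma block_ae_unit (b k : ℕ) (hb : 0 < b) (D : ℤ) (hD0 : 0 ≤ D) (hD : D < (b ^ k : ℕ)) :
    ∀ᵐ x ∂(volume.restrict (Set.Ioc (0 : ℝ) 1)),
      Tendsto (fun M : ℕ => (∑ i ∈ Finset.range M, gg (b ^ k) D ((b : ℝ) ^ i * x)) / M)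
        atTop (𝓝 0) :=
  slln (fun i x => gg (b ^ k) D ((b : ℝ) ^ i * x)) (2 * k)
    (fun i => (gg_measurable (b ^ k) D).comp (by fun_prop))
    (fun i x => gg_abs_le (b ^ k) (by positivity) D _)
    (fun M => second_moment b k hb D hD0 hD M)

lemma block_ae (b k : ℕ) (hb : 0 < b) (D : ℤ) (hD0 : 0 ≤ D) (hD : D < (b ^ k : ℕ)) :
    ∀ᵐ x : ℝ, Tendsto (fun M : ℕ => (∑ i ∈ Finset.range M, gg (b ^ k) D ((b : ℝ) ^ i * x)) / M)
        atTop (𝓝 0) := by
  have h1 := block_ae_unit b k hb D hD0 hD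
  rw [ae_restrict_iff' measurableSet_Ioc] at h1
  have h2 : ∀ m : ℤ, ∀ᵐ x : ℝ, (x - m) ∈ Set.Ioc (0 : ℝ) 1 →
      Tendsto (fun M : ℕ => (∑ i ∈ Finset.range M, gg (b ^ k) D ((b : ℝ) ^ i * (x - m))) / M)
        atTop (𝓝 0) := by
    intro m
    exact (measurePreserving_sub_right volume (m : ℝ)).quasiMeasurePreserving.ae h1
  rw [← ae_all_iff] at h2
  filter_upwards [h2] with x hx
  have h3 := hx (⌈x⌉ - 1) (by
    push_cast
    constructor
    · linarith [Int.ceil_lt_add_one x]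
    · linarith [Int.le_ceil x])
  refine h3.congr (fun M => ?_)
  congr 1
  refine Finset.sum_congr rfl (fun i _ => ?_)
  have e : (b : ℝ) ^ i * (x - ((⌈x⌉ - 1 : ℤ) : ℝ))
      = (b : ℝ) ^ i * x - (((b : ℤ) ^ i * (⌈x⌉ - 1) : ℤ) : ℝ) * 1 := by push_cast; ring
  rw [e]
  exact (gg_periodic (b ^ k) D).sub_int_mul_eq _

/-- one step of the digit expansion -/
lemma floor_step (b : ℕ) (hb : 0 < b) (x : ℝ) (n : ℕ) :
    ⌊x * (b : ℝ) ^ (n + 1)⌋ / (b : ℤ) = ⌊x * (b : ℝ) ^ n⌋ := by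
  have hbz : (0 : ℤ) < b := by exact_mod_cast hb
  have hbr : (0 : ℝ) < b := by exact_mod_cast hb
  set a := ⌊x * (b : ℝ) ^ n⌋ with ha
  have h1 : (a : ℝ) ≤ x * (b : ℝ) ^ n := Int.floor_le _
  have h2 : x * (b : ℝ) ^ n < a + 1 := Int.lt_floor_add_one _
  have e : x * (b : ℝ) ^ (n + 1) = (x * (b : ℝ) ^ n) * b := by ring
  have h3 : a * b ≤ ⌊x * (b : ℝ) ^ (n + 1)⌋ := by
    rw [Int.le_floor, e]
    push_cast
    exact mul_le_mul_of_nonneg_right h1 hbr.le
  have h4 : ⌊x * (b : ℝ) ^ (n + 1)⌋ < (a + 1) * b := by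
    rw [Int.floor_lt, e]
    push_cast
    exact mul_lt_mul_of_pos_right h2 hbr
  apply le_antisymm
  · rw [← Int.lt_add_one_iff]
    exact Int.ediv_lt_of_lt_mul hbz h4
  · exact Int.le_ediv_of_mul_le hbz h3

/-- blocks of digits and residues modulo a power of the base -/
lemma block_iff (b : ℕ) (hb : 0 < b) (k : ℕ) (w : Fin k → ℤ) (hw : ∀ j, 0 ≤ w j ∧ w j < (b : ℤ)) :
    ∃ W : ℤ, 0 ≤ W ∧ W < (b ^ k : ℕ) ∧ ∀ (x : ℝ) (i : ℕ),
      (∀ j : Fin k, ⌊x * (b : ℝ) ^ (i + j.val + 1)⌋ % (b : ℤ) = w j) ↔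
        ⌊x * (b : ℝ) ^ (i + k)⌋ % ((b ^ k : ℕ) : ℤ) = W := by
  have hbz : (0 : ℤ) < b := by exact_mod_cast hb
  induction k with
  | zero =>
    refine ⟨0, le_rfl, by simp, fun x i => ?_⟩
    simp
  | succ k ih =>
    obtain ⟨W, hW0, hW1, hW2⟩ := ih (fun j => w j.castSucc) (fun j => hw _)
    obtain ⟨hl0, hl1⟩ := hw (Fin.last k)
    refine ⟨(b : ℤ) * W + w (Fin.last k), by positivity, ?_, fun x i => ?_⟩
    · have : W + 1 ≤ ((b ^ k : ℕ) : ℤ) := hW1
      have h2 : (b : ℤ) * (W + 1) ≤ (b : ℤ) * ((b ^ k : ℕ) : ℤ) :=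
        mul_le_mul_of_nonneg_left this hbz.le
      push_cast at h2 ⊢
      rw [pow_succ]
      nlinarith
    · have hsplit : (∀ j : Fin (k + 1), ⌊x * (b : ℝ) ^ (i + j.val + 1)⌋ % (b : ℤ) = w j) ↔
          (∀ j : Fin k, ⌊x * (b : ℝ) ^ (i + j.val + 1)⌋ % (b : ℤ) = w j.castSucc) ∧
          ⌊x * (b : ℝ) ^ (i + k + 1)⌋ % (b : ℤ) = w (Fin.last k) := by
        rw [Fin.forall_fin_succ']
        simp
      rw [hsplit, hW2 x i]
      have hstep := floor_step b hb x (i + k)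
      set n := ⌊x * (b : ℝ) ^ (i + k)⌋ with hn
      have e : i + (k + 1) = i + k + 1 := by ring
      rw [e]
      set n' := ⌊x * (b : ℝ) ^ (i + k + 1)⌋ with hn'
      have hd0 : 0 ≤ n' % (b : ℤ) := Int.emod_nonneg _ hbz.ne'
      have hd1 : n' % (b : ℤ) < b := Int.emod_lt_of_pos _ hbz
      have hn'' : n' = b * n + n' % (b : ℤ) := by
        have := Int.mul_ediv_add_emod n' b
        rw [hstep] at this
        exact this.symm
      have hBpos : (0 : ℤ) < ((b ^ k : ℕ) : ℤ) := by positivity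
      have hr0 : 0 ≤ n % ((b ^ k : ℕ) : ℤ) := Int.emod_nonneg _ hBpos.ne'
      have hr1 : n % ((b ^ k : ℕ) : ℤ) < ((b ^ k : ℕ) : ℤ) := Int.emod_lt_of_pos _ hBpos
      have hn3 := Int.mul_ediv_add_emod n ((b ^ k : ℕ) : ℤ)
      have key : n' % ((b ^ (k + 1) : ℕ) : ℤ) = b * (n % ((b ^ k : ℕ) : ℤ)) + n' % (b : ℤ) := by
        set q := n / ((b ^ k : ℕ) : ℤ) with hq
        set ρ := n % ((b ^ k : ℕ) : ℤ) with hρ
        set d := n' % (b : ℤ) with hd
        have e2 : n' = (b * ρ + d) + ((b ^ (k + 1) : ℕ) : ℤ) * q := by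
          rw [hn'', ← hn3]
          push_cast
          rw [pow_succ]
          ring
        rw [e2, Int.add_mul_emod_self_left]
        apply Int.emod_eq_of_lt (by positivity)
        have h2 : (b : ℤ) * (ρ + 1) ≤ (b : ℤ) * ((b ^ k : ℕ) : ℤ) :=
          mul_le_mul_of_nonneg_left (by omega) hbz.le
        push_cast at h2 ⊢
        rw [pow_succ]
        nlinarith
      rw [key]
      constructor
      · rintro ⟨h1, h2⟩
        rw [h1, h2]
      · intro h
        have h3 : n % ((b ^ k : ℕ) : ℤ) = W := by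
          have h4 : (b * (n % ((b ^ k : ℕ) : ℤ)) + n' % (b : ℤ)) / (b : ℤ)
              = n % ((b ^ k : ℕ) : ℤ) := by
            rw [Int.add_comm, Int.add_mul_ediv_left _ _ hbz.ne', Int.ediv_eq_zero_of_lt hd0 hd1,
              zero_add]
          have h5 : ((b : ℤ) * W + w (Fin.last k)) / (b : ℤ) = W := by
            rw [Int.add_comm, Int.add_mul_ediv_left _ _ hbz.ne', Int.ediv_eq_zero_of_lt hl0 hl1,
              zero_add]
          rw [← h4, h, h5]
        refine ⟨h3, ?_⟩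
        rw [h3] at h
        linarith

/-- The frequency statement for one block. -/
lemma block_freq_ae (b : ℕ) (hb : 0 < b) (k : ℕ) (w : Fin k → ℤ)
    (hw : ∀ j, 0 ≤ w j ∧ w j < (b : ℤ)) :
    ∀ᵐ x : ℝ, Tendsto (fun N : ℕ =>
      ((((Finset.range N).filter (fun i : ℕ =>
        ∀ j : Fin k, ⌊x * (b : ℝ) ^ (i + j.val + 1)⌋ % (b : ℤ) = w j)).card : ℝ) / (N : ℝ)))
        atTop (𝓝 (1 / (b : ℝ) ^ k)) := by
  obtain ⟨W, hW0, hW1, hW2⟩ := block_iff b hb k w hw
  filter_upwards [block_ae b k hb W hW0 hW1] with x hx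
  have h1 := hx.add_const (1 / (b : ℝ) ^ k)
  rw [zero_add] at h1
  refine h1.congr' ?_
  filter_upwards [eventually_gt_atTop 0] with N hN
  have hNr : (N : ℝ) ≠ 0 := by positivity
  have e1 : ∑ i ∈ Finset.range N, gg (b ^ k) W ((b : ℝ) ^ i * x)
      = (((Finset.range N).filter (fun i : ℕ =>
        ∀ j : Fin k, ⌊x * (b : ℝ) ^ (i + j.val + 1)⌋ % (b : ℤ) = w j)).card : ℝ)
        - N * (1 / (b : ℝ) ^ k) := by
    unfold gg
    rw [Finset.sum_sub_distrib, Finset.sum_const, Finset.card_range, nsmul_eq_mul]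
    congr 1
    · rw [Finset.card_filter]
      push_cast
      refine Finset.sum_congr rfl (fun i _ => ?_)
      have e2 : (b : ℝ) ^ i * x * ((b : ℝ) ^ k) = x * (b : ℝ) ^ (i + k) := by ring
      have h2 := hW2 x i
      rw [e2]
      push_cast at h2
      by_cases h3 : ∀ j : Fin k, ⌊x * (b : ℝ) ^ (i + j.val + 1)⌋ % (b : ℤ) = w j
      · rw [if_pos h3, if_pos (h2.mp h3)]
      · rw [if_neg h3, if_neg (fun h4 => h3 (h2.mpr h4))]
    · push_cast
      ring
  rw [e1]
  field_simp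
  ring

/-- **Borel's theorem**: almost every real number is absolutely normal. -/
theorem normal_ae : ∀ᵐ x : ℝ, ∀ b : ℕ, 2 ≤ b → ∀ k : ℕ, ∀ w : Fin k → ℤ,
    (∀ j : Fin k, 0 ≤ w j ∧ w j < (b : ℤ)) →
    Tendsto (fun N : ℕ =>
      ((((Finset.range N).filter (fun i : ℕ =>
        ∀ j : Fin k, ⌊x * (b : ℝ) ^ (i + j.val + 1)⌋ % (b : ℤ) = w j)).card : ℝ) / (N : ℝ)))
      atTop (𝓝 (1 / (b : ℝ) ^ k)) := by
  rw [ae_all_iff]
  intro b
  by_cases hb : 2 ≤ b
  · have : ∀ᵐ x : ℝ, ∀ k : ℕ, ∀ w : Fin k → ℤ,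
        (∀ j : Fin k, 0 ≤ w j ∧ w j < (b : ℤ)) →
        Tendsto (fun N : ℕ =>
          ((((Finset.range N).filter (fun i : ℕ =>
            ∀ j : Fin k, ⌊x * (b : ℝ) ^ (i + j.val + 1)⌋ % (b : ℤ) = w j)).card : ℝ) / (N : ℝ)))
          atTop (𝓝 (1 / (b : ℝ) ^ k)) := by
      rw [ae_all_iff]
      intro k
      rw [ae_all_iff]
      intro w
      by_cases hw : ∀ j : Fin k, 0 ≤ w j ∧ w j < (b : ℤ)
      · filter_upwards [block_freq_ae b (by omega) k w hw] with x hx _
        exact hx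
      · exact Eventually.of_forall (fun x h => absurd h hw)
    filter_upwards [this] with x hx _
    exact hx
  · exact Eventually.of_forall (fun x h => absurd h hb)

end Pool.Agent.MP_535d13_an
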