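import Mathlib

set_option autoImplicit false
open Filter Topology MeasureTheory

namespace Pool.Agent.MP_535d13_an

/-- lower approximations -/
noncomputable def rr (L : ℕ → ℕ) (k : ℕ) (s : ℝ) : ℝ := (⌊(L k : ℝ) * s⌋ : ℝ) / L k

/-- the terms of the Cantor map -/
noncomputable def tt (L : ℕ → ℕ) (s : ℝ) (k : ℕ) : ℝ := rr L k s / 2 ^ (k + 1)

/-- the Cantor map -/
noncomputable def TT (L : ℕ → ℕ) (s : ℝ) : ℝ := ∑' k, tt L s k

lemma rr_le (L : ℕ → ℕ) (hL : ∀ k, 0 < L k) (k : ℕ) (s : ℝ) : rr L k s ≤ s := by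
  have h : (0 : ℝ) < L k := by exact_mod_cast hL k
  unfold rr
  rw [div_le_iff₀ h, mul_comm s]
  exact Int.floor_le _

lemma lt_rr (L : ℕ → ℕ) (hL : ∀ k, 0 < L k) (k : ℕ) (s : ℝ) : s - 1 / L k < rr L k s := by
  have h : (0 : ℝ) < L k := by exact_mod_cast hL k
  unfold rr
  rw [lt_div_iff₀ h, sub_mul, one_div, inv_mul_cancel₀ h.ne']
  have := Int.lt_floor_add_one ((L k : ℝ) * s)
  linarith

lemma rr_mono (L : ℕ → ℕ) (hL : ∀ k, 0 < L k) (k : ℕ) {s s' : ℝ} (h : s ≤ s') :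
    rr L k s ≤ rr L k s' := by
  have hp : (0 : ℝ) < L k := by exact_mod_cast hL k
  unfold rr
  apply div_le_div_of_nonneg_right _ hp.le
  exact_mod_cast Int.floor_mono (mul_le_mul_of_nonneg_left h hp.le)

lemma rr_nonneg (L : ℕ → ℕ) (k : ℕ) {s : ℝ} (h : 0 ≤ s) : 0 ≤ rr L k s := by
  unfold rr
  apply div_nonneg _ (by positivity)
  have : 0 ≤ ⌊(L k : ℝ) * s⌋ := Int.floor_nonneg.mpr (by positivity)
  exact_mod_cast this

lemma summable_geo : Summable (fun k : ℕ => (1 : ℝ) / 2 ^ (k + 1)) := by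
  have := (summable_nat_add_iff 1 (f := fun k : ℕ => (1 / 2 : ℝ) ^ k)).mpr summable_geometric_two
  refine this.congr (fun k => ?_)
  rw [one_div_pow]

lemma tsum_geo : ∑' k : ℕ, (1 : ℝ) / 2 ^ (k + 1) = 1 := by
  have h1 : (fun k : ℕ => (1 : ℝ) / 2 ^ (k + 1)) = fun k : ℕ => (1 / 2 : ℝ) * (1 / 2) ^ k := by
    ext k
    rw [one_div_pow, pow_succ]
    field_simp
  rw [h1, tsum_mul_left, tsum_geometric_two]
  norm_num

lemma tt_summable (L : ℕ → ℕ) (hL : ∀ k, 0 < L k) {s : ℝ} (h0 : 0 ≤ s) (h1 : s ≤ 1) :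
    Summable (tt L s) := by
  refine Summable.of_nonneg_of_le (fun k => ?_) (fun k => ?_) summable_geo
  · exact div_nonneg (rr_nonneg L k h0) (by positivity)
  · unfold tt
    apply div_le_div_of_nonneg_right _ (by positivity)
    exact (rr_le L hL k s).trans h1

lemma TT_diff (L : ℕ → ℕ) (hL : ∀ k, 0 < L k) {s s' : ℝ} (h0 : 0 ≤ s) (hs : s ≤ s') (h1 : s' ≤ 1)
    (k : ℕ) : s' - s ≤ 2 ^ (k + 1) * (TT L s' - TT L s) + 1 / L k := by
  have hs1 := tt_summable L hL h0 (hs.trans h1)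
  have hs2 := tt_summable L hL (h0.trans hs) h1
  have h2 : tt L s' k - tt L s k ≤ TT L s' - TT L s := by
    unfold TT
    rw [← hs2.tsum_sub hs1]
    apply (hs2.sub hs1).le_tsum k
    intro j _
    rw [sub_nonneg]
    unfold tt
    exact div_le_div_of_nonneg_right (rr_mono L hL j hs) (by positivity)
  have h3 : tt L s' k - tt L s k = (rr L k s' - rr L k s) / 2 ^ (k + 1) := by
    unfold tt; ring
  rw [h3, div_le_iff₀ (by positivity)] at h2
  have h4 := lt_rr L hL k s'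
  have h5 := rr_le L hL k s
  linarith

lemma TT_bounds (L : ℕ → ℕ) (hL : ∀ k, 0 < L k) (hL0 : L 0 = 1) {s : ℝ} (h0 : 0 ≤ s)
    (h1 : s < 1) : 0 ≤ TT L s ∧ TT L s ≤ 1 / 2 := by
  have hs := tt_summable L hL h0 h1.le
  constructor
  · apply tsum_nonneg
    intro k
    exact div_nonneg (rr_nonneg L k h0) (by positivity)
  · unfold TT
    rw [hs.tsum_eq_zero_add]
    have e0 : tt L s 0 = 0 := by
      unfold tt rr
      have : ⌊((L 0 : ℕ) : ℝ) * s⌋ = 0 := by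
        rw [hL0, Int.floor_eq_zero_iff]
        push_cast
        rw [one_mul]
        exact ⟨h0, h1⟩
      rw [this]
      simp
    rw [e0, zero_add]
    have hg := summable_geo
    have h2 : ∑' k, tt L s (k + 1) ≤ ∑' k : ℕ, (1 : ℝ) / 2 ^ (k + 1 + 1) := by
      apply Summable.tsum_le_tsum _ ((summable_nat_add_iff 1).mpr hs)
        ((summable_nat_add_iff (f := fun k : ℕ => (1 : ℝ) / 2 ^ (k + 1)) 1).mpr hg)
      intro k
      unfold tt
      apply div_le_div_of_nonneg_right _ (by positivity)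
      exact (rr_le L hL _ s).trans h1.le
    have h3 := hg.tsum_eq_zero_add
    rw [tsum_geo] at h3
    have h4 : (1 : ℝ) / 2 ^ (0 + 1) = 1 / 2 := by norm_num
    rw [h4] at h3
    linarith

lemma TT_measurable (L : ℕ → ℕ) :
    Measurable (fun s => TT L s) := by
  unfold TT tt rr
  apply Measurable.tsum
  intro k
  have h1 : Measurable (fun s : ℝ => ⌊(L k : ℝ) * s⌋) := Int.measurable_floor.comp (by fun_prop)
  have h2 : Measurable (fun n : ℤ => (n : ℝ)) := measurable_from_top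
  exact ((h2.comp h1).div_const _).div_const _

/-- the fractional part of `2^k L_k T(s)` lies in `[0,1/2]` -/
lemma TT_frac (L : ℕ → ℕ) (hL : ∀ k, 0 < L k) (hdvd : ∀ k, L k ∣ L (k + 1)) {s : ℝ}
    (h0 : 0 ≤ s) (h1 : s ≤ 1) (k : ℕ) :
    ∃ m : ℤ, (m : ℝ) ≤ ((2 ^ k * L k : ℕ) : ℝ) * TT L s ∧
      ((2 ^ k * L k : ℕ) : ℝ) * TT L s ≤ m + 1 / 2 := by
  have hs := tt_summable L hL h0 h1
  have hLr : ∀ j, (0 : ℝ) < L j := fun j => by exact_mod_cast hL j
  have hdvd' : ∀ i j, i ≤ j → L i ∣ L j := by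
    intro i j hij
    induction hij with
    | refl => exact dvd_refl _
    | step _ ih => exact ih.trans (hdvd _)
  set q : ℤ := ⌊(L k : ℝ) * s⌋ with hq
  -- initial terms are integers
  have hint : ∃ I : ℤ, ((2 ^ k * L k : ℕ) : ℝ) * ∑ j ∈ Finset.range k, tt L s j = I := by
    have : ∀ j ∈ Finset.range k, ∃ I : ℤ, ((2 ^ k * L k : ℕ) : ℝ) * tt L s j = I := by
      intro j hj
      rw [Finset.mem_range] at hj
      obtain ⟨c, hc⟩ := hdvd' j k hj.le
      refine ⟨2 ^ (k - (j + 1)) * c * ⌊(L j : ℝ) * s⌋, ?_⟩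
      unfold tt rr
      have e1 : (2 : ℝ) ^ k = 2 ^ (k - (j + 1)) * 2 ^ (j + 1) := by
        rw [← pow_add]; congr 1; omega
      have hne := (hLr j).ne'
      push_cast
      rw [e1, hc]
      push_cast
      field_simp
    choose! I hI using this
    refine ⟨∑ j ∈ Finset.range k, I j, ?_⟩
    rw [Finset.mul_sum, Int.cast_sum]
    exact Finset.sum_congr rfl hI
  obtain ⟨I, hI⟩ := hint
  -- decomposition
  have hdec := hs.sum_add_tsum_nat_add (k + 1)
  rw [Finset.sum_range_succ] at hdec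
  have ek : ((2 ^ k * L k : ℕ) : ℝ) * tt L s k = q / 2 := by
    unfold tt rr
    have hne := (hLr k).ne'
    push_cast
    rw [← hq, pow_succ]
    field_simp
  have hg := summable_geo
  have hg1 : Summable (fun i : ℕ => (1 : ℝ) / 2 ^ (i + 2)) :=
    (summable_nat_add_iff (f := fun k : ℕ => (1 : ℝ) / 2 ^ (k + 1)) 1).mpr hg
  have hg2 : ∑' i : ℕ, (1 : ℝ) / 2 ^ (i + 2) = 1 / 2 := by
    have h3 := hg.tsum_eq_zero_add
    rw [tsum_geo] at h3
    norm_num at h3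
    have : ∑' i : ℕ, (1 : ℝ) / 2 ^ (i + 2) = ∑' (b : ℕ), (2 ^ (b + 1 + 1) : ℝ)⁻¹ := by
      congr 1
      ext i
      rw [one_div]
    rw [this]
    linarith
  have hterm : ∀ i : ℕ, (q : ℝ) * (1 / 2 ^ (i + 2)) ≤ ((2 ^ k * L k : ℕ) : ℝ) * tt L s (i + (k + 1)) ∧
      ((2 ^ k * L k : ℕ) : ℝ) * tt L s (i + (k + 1)) ≤ (q + 1 : ℝ) * (1 / 2 ^ (i + 2)) := by
    intro i
    obtain ⟨c, hc⟩ := hdvd' k (i + (k + 1)) (by omega)
    have hcpos : 0 < c := by
      rcases Nat.eq_zero_or_pos c with h | h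
      · rw [h, mul_zero] at hc
        exact absurd hc (hL _).ne'
      · exact h
    have hcr : (0 : ℝ) < c := by exact_mod_cast hcpos
    have e1 : ((2 ^ k * L k : ℕ) : ℝ) * tt L s (i + (k + 1))
        = ((L k : ℝ) * rr L (i + (k + 1)) s) * (1 / 2 ^ (i + 2)) := by
      unfold tt
      push_cast
      have : (2 : ℝ) ^ (i + (k + 1) + 1) = 2 ^ (i + 2) * 2 ^ k := by
        rw [← pow_add]; congr 1; omega
      rw [this]
      field_simp
    rw [e1]
    have hkr := hLr k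
    have a1 : (q : ℝ) ≤ (L k : ℝ) * rr L (i + (k + 1)) s := by
      unfold rr
      rw [hc]
      push_cast
      rw [mul_div_assoc', le_div_iff₀ (by positivity)]
      have h4 : c * q ≤ ⌊(L k : ℝ) * c * s⌋ := by
        rw [Int.le_floor]
        push_cast
        have := Int.floor_le ((L k : ℝ) * s)
        rw [← hq] at this
        nlinarith
      have h5 : (c : ℝ) * q ≤ (⌊(L k : ℝ) * c * s⌋ : ℝ) := by exact_mod_cast h4
      nlinarith
    have a2 : (L k : ℝ) * rr L (i + (k + 1)) s ≤ q + 1 := by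
      have h4 := rr_le L hL (i + (k + 1)) s
      have h5 := (Int.lt_floor_add_one ((L k : ℝ) * s)).le
      rw [← hq] at h5
      have h6 := mul_le_mul_of_nonneg_left h4 hkr.le
      linarith
    have hw : (0 : ℝ) ≤ 1 / 2 ^ (i + 2) := by positivity
    exact ⟨mul_le_mul_of_nonneg_right a1 hw, mul_le_mul_of_nonneg_right a2 hw⟩
  have hsN : Summable (fun i : ℕ => ((2 ^ k * L k : ℕ) : ℝ) * tt L s (i + (k + 1))) :=
    ((summable_nat_add_iff (k + 1)).mpr hs).mul_left _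
  have hlow : (q : ℝ) / 2 ≤ ((2 ^ k * L k : ℕ) : ℝ) * ∑' i, tt L s (i + (k + 1)) := by
    rw [← tsum_mul_left]
    calc (q : ℝ) / 2 = ∑' i : ℕ, (q : ℝ) * (1 / 2 ^ (i + 2)) := by rw [tsum_mul_left, hg2]; ring
      _ ≤ _ := Summable.tsum_le_tsum (fun i => (hterm i).1) (hg1.mul_left _) hsN
  have hup : ((2 ^ k * L k : ℕ) : ℝ) * ∑' i, tt L s (i + (k + 1)) ≤ ((q : ℝ) + 1) / 2 := by
    rw [← tsum_mul_left]
    calc _ ≤ ∑' i : ℕ, ((q : ℝ) + 1) * (1 / 2 ^ (i + 2)) :=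
          Summable.tsum_le_tsum (fun i => (hterm i).2) hsN (hg1.mul_left _)
      _ = ((q : ℝ) + 1) / 2 := by rw [tsum_mul_left, hg2]; ring
  refine ⟨I + q, ?_, ?_⟩
  · unfold TT
    rw [← hdec, mul_add, mul_add, hI, ek, Int.cast_add]
    linarith
  · unfold TT
    rw [← hdec, mul_add, mul_add, hI, ek, Int.cast_add]
    linarith

lemma TT_sin (L : ℕ → ℕ) (hL : ∀ k, 0 < L k) (hdvd : ∀ k, L k ∣ L (k + 1)) {s : ℝ}
    (h0 : 0 ≤ s) (h1 : s ≤ 1) (k : ℕ) :
    0 ≤ Real.sin (2 * Real.pi * ((2 ^ k * L k : ℕ) : ℝ) * TT L s) := by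
  obtain ⟨m, hm1, hm2⟩ := TT_frac L hL hdvd h0 h1 k
  set X := ((2 ^ k * L k : ℕ) : ℝ) * TT L s with hX
  have e : 2 * Real.pi * ((2 ^ k * L k : ℕ) : ℝ) * TT L s
      = 2 * Real.pi * (X - m) + (m : ℝ) * (2 * Real.pi) := by rw [hX]; ring
  rw [e, Real.sin_add_int_mul_two_pi]
  have hpi := Real.pi_pos
  apply Real.sin_nonneg_of_nonneg_of_le_pi
  · have : 0 ≤ X - m := by linarith
    positivity
  · nlinarith

end Pool.Agent.MP_535d13_an
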