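import Pool.Agent.Lib.MP_535d13_an.Equi

set_option autoImplicit false

open MeasureTheory Set Filter Topology
open scoped ENNReal

namespace Pool.Agent.MP535d13

lemma isClosed_E (n : ℕ) : IsClosed (E n) := by
  have h : IsClosed {y : ℝ | Int.fract y ≤ 1 / 2} := by
    rw [← isOpen_compl_iff]
    have : {y : ℝ | Int.fract y ≤ 1 / 2}ᶜ = ⋃ m : ℤ, Ioo ((m : ℝ) + 1 / 2) (m + 1) := by
      ext y
      simp only [mem_compl_iff, mem_ofPred_eq, not_le, mem_iUnion, mem_Ioo]
      constructor
      · intro hy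
        refine ⟨⌊y⌋, ?_, Int.lt_floor_add_one y⟩
        have := Int.self_sub_floor y
        linarith
      · rintro ⟨m, h1, h2⟩
        have hm : ⌊y⌋ = m := by
          rw [Int.floor_eq_iff]
          constructor <;> linarith
        have := Int.self_sub_floor y
        rw [hm] at this
        linarith
    rw [this]
    exact isOpen_iUnion fun m => isOpen_Ioo
  exact h.preimage (continuous_const.mul continuous_id)

/-- uniform equidistribution for all half-open intervals -/
lemma equi_interval (S : Set ℝ) (hS : MeasurableSet S) (hS1 : S ⊆ Ioc 0 1) (ε : ℝ) (hε : 0 < ε)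
    (m : ℕ) :
    ∃ n : ℕ, m < n ∧ (∀ a b : ℝ, a ≤ b →
      volume.real (S ∩ Ioc a b ∩ E n) ≤ volume.real (S ∩ Ioc a b) / 2 + 2 * ε) ∧
      volume.real S / 2 - ε ≤ volume.real (S ∩ E n) := by
  obtain ⟨N, hN⟩ := equi_unif S hS hS1 ε hε
  refine ⟨max N (m + 1), lt_of_lt_of_le (Nat.lt_succ_self m) (le_max_right _ _), ?_⟩
  set n := max N (m + 1) with hn
  have hfin : ∀ T : Set ℝ, volume (S ∩ T) ≠ ⊤ := fun T =>
    ne_of_lt (lt_of_le_of_lt (measure_mono (inter_subset_left.trans hS1)) (by simp))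
  have hall : ∀ t : ℝ,
      |volume.real (S ∩ Iic t ∩ E n) - volume.real (S ∩ Iic t) / 2| ≤ ε := by
    intro t
    rcases lt_or_ge t 0 with ht | ht
    · have : S ∩ Iic t = ∅ := by
        ext x
        simp only [mem_inter_iff, mem_Iic, mem_empty_iff_false, iff_false, not_and, not_le]
        intro hx
        linarith [(hS1 hx).1]
      rw [this]
      simp [hε.le]
    · rcases le_or_gt t 1 with ht1 | ht1
      · exact hN n (le_max_left _ _) t ⟨ht, ht1⟩
      · have h1 := hN n (le_max_left _ _) 1 ⟨zero_le_one, le_rfl⟩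
        have e1 : S ∩ Iic t = S := inter_eq_left.mpr fun x hx => ((hS1 hx).2.trans ht1.le)
        have e2 : S ∩ Iic 1 = S := inter_eq_left.mpr fun x hx => (hS1 hx).2
        rw [e2] at h1
        rw [e1]
        exact h1
  constructor
  · intro a b hab
    have hsplit : ∀ T : Set ℝ, MeasurableSet T → volume.real (S ∩ Ioc a b ∩ T)
        = volume.real (S ∩ Iic b ∩ T) - volume.real (S ∩ Iic a ∩ T) := by
      intro T hT
      have hsub : S ∩ Iic a ∩ T ⊆ S ∩ Iic b ∩ T := fun x hx => ⟨⟨hx.1.1, hx.1.2.trans hab⟩, hx.2⟩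
      rw [← measureReal_sdiff hsub ((hS.inter measurableSet_Iic).inter hT)
        (by rw [inter_assoc]; exact hfin _)]
      congr 1
      ext x
      simp only [mem_inter_iff, mem_Ioc, mem_Iic, Set.mem_sdiff, not_and]
      constructor
      · rintro ⟨⟨h1, h2, h3⟩, h4⟩
        exact ⟨⟨⟨h1, h3⟩, h4⟩, fun h5 => absurd h2 (not_lt.mpr h5.2)⟩
      · rintro ⟨⟨⟨h1, h3⟩, h4⟩, h5⟩
        refine ⟨⟨h1, ?_, h3⟩, h4⟩
        by_contra hcon
        exact h5 ⟨h1, not_lt.mp hcon⟩ h4
    have h1 := hsplit (E n) (measurableSet_E n)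
    have h2 := hsplit univ MeasurableSet.univ
    simp only [inter_univ] at h2
    have ha := abs_le.mp (hall a)
    have hb := abs_le.mp (hall b)
    rw [h1, h2]
    linarith [ha.1, ha.2, hb.1, hb.2]
  · have h1 := abs_le.mp (hall 1)
    have e2 : S ∩ Iic 1 = S := inter_eq_left.mpr fun x hx => (hS1 hx).2
    rw [e2] at h1
    linarith [h1.1]

theorem exists_K (φ : ℝ → ℝ) (hpos : ∀ r : ℝ, 0 < r → 0 < φ r)
    (hlim : Tendsto φ (𝓝[>] (0 : ℝ)) (𝓝 0))
    (hratio : Tendsto (fun r : ℝ => r / φ r) (𝓝[>] (0 : ℝ)) (𝓝 0))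
    (F : Set ℝ) (hF : IsCompact F) (hF1 : F ⊆ Ioc 0 1) (hFpos : 0 < volume.real F) :
    ∃ K : Set ℝ, K ⊆ F ∧ IsCompact K ∧
      (∃ n : ℕ → ℕ, StrictMono n ∧ (∀ i, 1 ≤ n i) ∧ ∀ i, K ⊆ E (n i)) ∧
      0 < MeasureTheory.Measure.mkMetric (fun r : ℝ≥0∞ => ENNReal.ofReal (φ r.toReal)) K := by
  set c0 : ℝ := volume.real F with hc0
  have hc01 : c0 ≤ 1 := by
    calc c0 ≤ volume.real (Ioc (0 : ℝ) 1) := measureReal_mono hF1 (by simp)
      _ = 1 := by simp
  -- the radii
  have hρ : ∀ k : ℕ, ∃ ρ : ℝ, 0 < ρ ∧ ρ ≤ 1 ∧ ∀ s : ℝ, 0 < s → s ≤ ρ → 2 ^ (k + 1) * s ≤ φ s := by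
    intro k
    have h1 := (Metric.tendsto_nhdsWithin_nhds.mp hratio) ((1 / 2) ^ (k + 1)) (by positivity)
    obtain ⟨δ, hδ, h2⟩ := h1
    refine ⟨min (δ / 2) 1, by positivity, min_le_right _ _, ?_⟩
    intro s hs hs1
    have hsδ : s < δ := lt_of_le_of_lt (hs1.trans (min_le_left _ _)) (by linarith)
    have h3 := h2 (x := s) hs (by rw [Real.dist_eq, sub_zero, abs_of_pos hs]; exact hsδ)
    rw [Real.dist_eq, sub_zero, abs_of_pos (div_pos hs (hpos s hs)), div_lt_iff₀ (hpos s hs)] at h3
    have h4 : (2 : ℝ) ^ (k + 1) * ((1 / 2) ^ (k + 1) * φ s) = φ s := by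
      rw [← mul_assoc, ← mul_pow]; norm_num
    calc (2 : ℝ) ^ (k + 1) * s ≤ 2 ^ (k + 1) * ((1 / 2) ^ (k + 1) * φ s) := by gcongr
      _ = φ s := h4
  choose ρ hρ0 hρ1 hρ2 using hρ
  obtain ⟨r, hr0, hr1, hranti, hr2⟩ : ∃ r : ℕ → ℝ, (∀ k, 0 < r k) ∧ (∀ k, r k ≤ 1) ∧ Antitone r ∧
      ∀ k, ∀ s : ℝ, 0 < s → s ≤ r k → 2 ^ (k + 1) * s ≤ φ s := by
    let r : ℕ → ℝ := fun k => Nat.rec (ρ 0) (fun k rk => min rk (ρ (k + 1))) k
    have hrs : ∀ k, r (k + 1) = min (r k) (ρ (k + 1)) := fun k => rfl
    have hrρ : ∀ k, r k ≤ ρ k := by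
      intro k
      cases k with
      | zero => exact le_rfl
      | succ k => rw [hrs]; exact min_le_right _ _
    refine ⟨r, ?_, fun k => (hrρ k).trans (hρ1 k), antitone_nat_of_succ_le fun k => ?_, ?_⟩
    · intro k
      induction k with
      | zero => exact hρ0 0
      | succ k ih => rw [hrs]; exact lt_min ih (hρ0 _)
    · rw [hrs]; exact min_le_left _ _
    · intro k s hs hs1
      exact hρ2 k s hs (hs1.trans (hrρ k))
  set δ : ℕ → ℝ := fun k => c0 * r k * (1 / 4) ^ (k + 2) with hδdef
  have hδ0 : ∀ k, 0 < δ k := fun k => by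
    have := hr0 k
    simp only [hδdef]
    positivity
  -- the recursive choice
  have step : ∀ (S : Set ℝ) (m k : ℕ), ∃ n : ℕ, m < n ∧ (MeasurableSet S → S ⊆ Ioc 0 1 →
      (∀ a b : ℝ, a ≤ b →
      volume.real (S ∩ Ioc a b ∩ E n) ≤ volume.real (S ∩ Ioc a b) / 2 + 2 * δ k) ∧
      volume.real S / 2 - δ k ≤ volume.real (S ∩ E n)) := by
    intro S m k
    by_cases h : MeasurableSet S ∧ S ⊆ Ioc 0 1
    · obtain ⟨n, h1, h2⟩ := equi_interval S h.1 h.2 (δ k) (hδ0 k) m
      exact ⟨n, h1, fun _ _ => h2⟩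
    · exact ⟨m + 1, Nat.lt_succ_self m, fun h1 h2 => absurd ⟨h1, h2⟩ h⟩
  choose nxt hnxt1 hnxt2 using step
  let st : ℕ → Set ℝ × ℕ := fun k =>
    Nat.rec (F, 0) (fun k p => (p.1 ∩ E (nxt p.1 p.2 k), nxt p.1 p.2 k)) k
  set K : ℕ → Set ℝ := fun k => (st k).1 with hK
  set n : ℕ → ℕ := fun k => (st (k + 1)).2 with hn
  have hK0 : K 0 = F := rfl
  have hKs : ∀ k, K (k + 1) = K k ∩ E (n k) := fun k => rfl
  have hn0 : 0 < n 0 := hnxt1 F 0 0
  have hns : ∀ k, n k < n (k + 1) := fun k => hnxt1 (K (k + 1)) (n k) (k + 1)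
  have hKF : ∀ k, K k ⊆ F := by
    intro k
    induction k with
    | zero => exact subset_rfl
    | succ k ih => rw [hKs]; exact inter_subset_left.trans ih
  have hKcl : ∀ k, IsClosed (K k) := by
    intro k
    induction k with
    | zero => exact hF.isClosed
    | succ k ih => rw [hKs]; exact ih.inter (isClosed_E _)
  have hKanti : Antitone K := antitone_nat_of_succ_le fun k => by
    rw [hKs]; exact inter_subset_left
  have hKprop : ∀ k, (∀ a b : ℝ, a ≤ b →
      volume.real (K k ∩ Ioc a b ∩ E (n k)) ≤ volume.real (K k ∩ Ioc a b) / 2 + 2 * δ k) ∧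
      volume.real (K k) / 2 - δ k ≤ volume.real (K k ∩ E (n k)) := by
    intro k
    exact hnxt2 (K k) (st k).2 k (hKcl k).measurableSet ((hKF k).trans hF1)
  have hfin : ∀ k T, volume (K k ∩ T) ≠ ⊤ := fun k T =>
    ne_of_lt (lt_of_le_of_lt (measure_mono (inter_subset_left.trans ((hKF k).trans hF1)))
      (by simp))
  -- upper bounds
  have hup : ∀ k a b, a ≤ b → 2 ^ (k + 1) * volume.real (K (k + 1) ∩ Ioc a b)
      ≤ 2 ^ k * volume.real (K k ∩ Ioc a b) + (1 / 2) ^ (k + 2) * r k := by
    intro k a b hab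
    have h1 := (hKprop k).1 a b hab
    have e : K (k + 1) ∩ Ioc a b = K k ∩ Ioc a b ∩ E (n k) := by
      rw [hKs]; ext x; simp only [mem_inter_iff]; tauto
    rw [e]
    have h3 : (2 : ℝ) ^ (k + 1) * (2 * δ k) ≤ (1 / 2) ^ (k + 2) * r k := by
      simp only [hδdef]
      have e2 : (2 : ℝ) ^ (k + 1) * (2 * (c0 * r k * (1 / 4) ^ (k + 2)))
          = c0 * ((1 / 2) ^ (k + 2) * r k) := by
        have : (2 : ℝ) ^ (k + 2) * (1 / 4) ^ (k + 2) = (1 / 2) ^ (k + 2) := by
          rw [← mul_pow]; norm_num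
        rw [← this]; ring
      rw [e2]
      have : 0 ≤ (1 / 2 : ℝ) ^ (k + 2) * r k := by have := hr0 k; positivity
      nlinarith
    calc 2 ^ (k + 1) * volume.real (K k ∩ Ioc a b ∩ E (n k))
        ≤ 2 ^ (k + 1) * (volume.real (K k ∩ Ioc a b) / 2 + 2 * δ k) := by gcongr
      _ = 2 ^ k * volume.real (K k ∩ Ioc a b) + 2 ^ (k + 1) * (2 * δ k) := by ring
      _ ≤ _ := by gcongr
  have hlow : ∀ j, c0 * (1 / 2 + (1 / 2) ^ (j + 1)) ≤ 2 ^ j * volume.real (K j) := by
    intro j
    induction j with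
    | zero => simp [hK0, ← hc0]; norm_num
    | succ j ih =>
      have h1 := (hKprop j).2
      rw [← hKs] at h1
      have h3 : (2 : ℝ) ^ (j + 1) * δ j ≤ c0 * (1 / 2) ^ (j + 2) := by
        simp only [hδdef]
        have e2 : (2 : ℝ) ^ (j + 1) * (c0 * r j * (1 / 4) ^ (j + 2))
            = c0 * ((1 / 2) ^ (j + 2) * (r j / 2)) := by
          have : (2 : ℝ) ^ (j + 2) * (1 / 4) ^ (j + 2) = (1 / 2) ^ (j + 2) := by
            rw [← mul_pow]; norm_num
          rw [← this]; ring
        rw [e2]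
        have h5 : (1 / 2 : ℝ) ^ (j + 2) * (r j / 2) ≤ (1 / 2) ^ (j + 2) * 1 := by
          gcongr
          linarith [hr1 j]
        nlinarith
      calc c0 * (1 / 2 + (1 / 2) ^ (j + 1 + 1))
          = c0 * (1 / 2 + (1 / 2) ^ (j + 1)) - c0 * (1 / 2) ^ (j + 2) := by ring
        _ ≤ 2 ^ j * volume.real (K j) - 2 ^ (j + 1) * δ j := by linarith
        _ = 2 ^ (j + 1) * (volume.real (K j) / 2 - δ j) := by ring
        _ ≤ 2 ^ (j + 1) * volume.real (K (j + 1)) := by gcongr
  have htriv : ∀ j a l, 0 ≤ l → volume.real (K j ∩ Ioc a (a + l)) ≤ l := by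
    intro j a l hl
    calc volume.real (K j ∩ Ioc a (a + l)) ≤ volume.real (Ioc a (a + l)) :=
          measureReal_mono inter_subset_right (by simp)
      _ = l := by rw [Real.volume_real_Ioc_of_le (by linarith)]; ring
  have hmain : ∀ j a l, 0 < l → l ≤ r 0 →
      2 ^ j * volume.real (K j ∩ Ioc a (a + l)) ≤ 2 * φ l := by
    intro j a l hl hlr
    by_cases hcase : ∀ i ≤ j, l ≤ r i
    · have h1 := hr2 j l hl (hcase j le_rfl)
      have h2 := htriv j a l hl.le
      have h3 := (hpos l hl).le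
      calc 2 ^ j * volume.real (K j ∩ Ioc a (a + l)) ≤ 2 ^ j * l := by gcongr
        _ = (2 ^ (j + 1) * l) / 2 := by ring
        _ ≤ φ l / 2 := by gcongr
        _ ≤ 2 * φ l := by linarith
    · push Not at hcase
      obtain ⟨i0, hi0j, hi0⟩ := hcase
      have hex : ∃ i, r i < l := ⟨i0, hi0⟩
      classical
      set k := Nat.find hex with hk
      have hk1 : r k < l := Nat.find_spec hex
      have hkj : k ≤ j := (Nat.find_min' hex hi0).trans hi0j
      have hk0 : k ≠ 0 := by
        intro h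
        rw [h] at hk1
        linarith
      obtain ⟨k', hk'⟩ := Nat.exists_eq_succ_of_ne_zero hk0
      have hk2 : l ≤ r k' := by
        by_contra hcon
        exact Nat.find_min hex (m := k') (by omega) (not_le.mp hcon)
      have h1 := hr2 k' l hl hk2
      have hind : ∀ j', k ≤ j' → 2 ^ j' * volume.real (K j' ∩ Ioc a (a + l))
          ≤ (2 ^ k + 1 - (1 / 2) ^ j') * l := by
        intro j' hj'
        induction j', hj' using Nat.le_induction with
        | base =>
          have h2 := htriv k a l hl.le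
          have h5 : (1 / 2 : ℝ) ^ k ≤ 1 := pow_le_one₀ (by norm_num) (by norm_num)
          calc 2 ^ k * volume.real (K k ∩ Ioc a (a + l)) ≤ 2 ^ k * l := by gcongr
            _ ≤ (2 ^ k + 1 - (1 / 2) ^ k) * l := by gcongr; linarith
        | succ j' hj' ih =>
          have h2 := hup j' a (a + l) (by linarith)
          have h3 : r j' ≤ l := (hranti hj').trans hk1.le
          have h4 : (1 / 2 : ℝ) ^ (j' + 2) * r j' ≤ (1 / 2) ^ (j' + 1) * l := by
            have h5 : (0 : ℝ) < (1 / 2) ^ (j' + 1) := by positivity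
            have h6 : (1 / 2 : ℝ) ^ (j' + 2) = (1 / 2) ^ (j' + 1) / 2 := by ring
            rw [h6]
            have := hr0 j'
            nlinarith
          calc 2 ^ (j' + 1) * volume.real (K (j' + 1) ∩ Ioc a (a + l))
              ≤ (2 ^ k + 1 - (1 / 2) ^ j') * l + (1 / 2) ^ (j' + 1) * l := by linarith
            _ = (2 ^ k + 1 - (1 / 2) ^ (j' + 1)) * l := by ring
      have h6 := hind j hkj
      have h7 : (0 : ℝ) < (1 / 2) ^ j := by positivity
      have h8 : (1 : ℝ) ≤ 2 ^ k := one_le_pow₀ (by norm_num)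
      have h9 : (2 : ℝ) ^ k * l ≤ φ l := by
        have : k = k' + 1 := hk'
        rw [this]; exact h1
      calc 2 ^ j * volume.real (K j ∩ Ioc a (a + l))
          ≤ (2 ^ k + 1 - (1 / 2) ^ j) * l := h6
        _ ≤ (2 ^ k + 2 ^ k) * l := by gcongr; linarith
        _ = 2 * (2 ^ k * l) := by ring
        _ ≤ 2 * φ l := by linarith
  -- the limit set
  refine ⟨⋂ k, K k, iInter_subset_of_subset 0 (by rw [hK0]), ?_,
    ⟨n, strictMono_nat_of_lt_succ hns, ?_, ?_⟩, ?_⟩
  · exact hF.of_isClosed_subset (isClosed_iInter hKcl) (iInter_subset_of_subset 0 (by rw [hK0]))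
  · intro i
    have h := (strictMono_nat_of_lt_succ hns).monotone (Nat.zero_le i)
    omega
  · intro i
    refine iInter_subset_of_subset (i + 1) ?_
    rw [hKs]
    exact inter_subset_right
  · refine lt_of_lt_of_le (b := ENNReal.ofReal (c0 / 24))
      (by rw [ENNReal.ofReal_pos]; positivity) ?_
    rw [Measure.mkMetric_apply]
    refine le_iSup₂_of_le (ENNReal.ofReal (r 0 / 3))
      (by rw [ENNReal.ofReal_pos]; have := hr0 0; positivity) ?_
    refine le_iInf fun t => le_iInf fun ht => le_iInf fun hd => ?_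
    have hr00 := hr0 0
    have hsmall : ∀ i : ℕ, ∃ e : ℝ, 0 < e ∧ e ≤ r 0 ∧ φ e ≤ c0 / 16 * (1 / 2) ^ (i + 1) := by
      intro i
      obtain ⟨η, hη, h2⟩ := (Metric.tendsto_nhdsWithin_nhds.mp hlim)
        (c0 / 16 * (1 / 2) ^ (i + 1)) (by positivity)
      refine ⟨min (η / 2) (r 0), lt_min (by positivity) hr00, min_le_right _ _, ?_⟩
      have hs : 0 < min (η / 2) (r 0) := lt_min (by positivity) hr00
      have h3 := h2 (x := min (η / 2) (r 0)) hs (by
        rw [Real.dist_eq, sub_zero, abs_of_pos hs]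
        exact lt_of_le_of_lt (min_le_left _ _) (by linarith))
      rw [Real.dist_eq, sub_zero, abs_of_pos (hpos _ hs)] at h3
      exact h3.le
    choose e he0 he1 he2 using hsmall
    have hO : ∀ i, ∃ O : Set ℝ, IsOpen O ∧ t i ⊆ O ∧ ∀ j,
        ENNReal.ofReal (2 ^ j * volume.real (K j ∩ O)) ≤
          6 * (⨆ _ : (t i).Nonempty, ENNReal.ofReal (φ (Metric.ediam (t i)).toReal))
            + ENNReal.ofReal (c0 / 8 * (1 / 2) ^ (i + 1)) := by
      intro i
      rcases (t i).eq_empty_or_nonempty with hempty | hne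
      · refine ⟨∅, isOpen_empty, by rw [hempty], fun j => by simp⟩
      · obtain ⟨x, hx⟩ := hne
        have hne : (t i).Nonempty := ⟨x, hx⟩
        have hdt : Metric.ediam (t i) ≠ ⊤ := ne_of_lt (lt_of_le_of_lt (hd i) ENNReal.ofReal_lt_top)
        set d := (Metric.ediam (t i)).toReal with hdd
        have hd0 : 0 ≤ d := ENNReal.toReal_nonneg
        have hd1 : d ≤ r 0 / 3 := by
          have := ENNReal.toReal_mono ENNReal.ofReal_ne_top (hd i)
          rwa [ENNReal.toReal_ofReal (by positivity)] at this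
        have hmem : ∀ y ∈ t i, |y - x| ≤ d := by
          intro y hy
          have h1 := Metric.edist_le_ediam_of_mem hy hx
          have h2 := ENNReal.toReal_mono hdt h1
          rwa [edist_dist, ENNReal.toReal_ofReal dist_nonneg, Real.dist_eq] at h2
        simp only [hne, ciSup_pos]
        rcases eq_or_lt_of_le hd0 with hz | hdpos
        · refine ⟨Ioo (x - e i / 2) (x + e i / 2), isOpen_Ioo, ?_, ?_⟩
          · intro y hy
            have h1 := hmem y hy
            rw [← hz] at h1
            have h2 : y = x := by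
              have := abs_nonpos_iff.mp h1
              linarith
            rw [h2]
            have := he0 i
            constructor <;> linarith
          · intro j
            refine le_trans ?_ le_add_self
            apply ENNReal.ofReal_le_ofReal
            have h1 := hmain j (x - e i / 2) (e i) (he0 i) (he1 i)
            have h2 : volume.real (K j ∩ Ioo (x - e i / 2) (x + e i / 2))
                ≤ volume.real (K j ∩ Ioc (x - e i / 2) (x - e i / 2 + e i)) := by
              apply measureReal_mono _ (hfin j _)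
              intro y hy
              exact ⟨hy.1, hy.2.1, by linarith [hy.2.2]⟩
            have h3 := he2 i
            calc 2 ^ j * volume.real (K j ∩ Ioo (x - e i / 2) (x + e i / 2))
                ≤ 2 ^ j * volume.real (K j ∩ Ioc (x - e i / 2) (x - e i / 2 + e i)) := by gcongr
              _ ≤ 2 * φ (e i) := h1
              _ ≤ _ := by linarith
        · refine ⟨Ioo (x - 3 / 2 * d) (x + 3 / 2 * d), isOpen_Ioo, ?_, ?_⟩
          · intro y hy
            have h1 := abs_le.mp (hmem y hy)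
            constructor <;> linarith [h1.1, h1.2]
          · intro j
            refine le_trans ?_ le_self_add
            have e6 : (6 : ℝ≥0∞) = ENNReal.ofReal 6 := by norm_num
            rw [e6, ← ENNReal.ofReal_mul (by norm_num)]
            apply ENNReal.ofReal_le_ofReal
            have hdr : d ≤ r 0 := by linarith
            have h1 := hmain j (x - 3 / 2 * d) d hdpos hdr
            have h2 := hmain j (x - 3 / 2 * d + d) d hdpos hdr
            have h3 := hmain j (x - 3 / 2 * d + d + d) d hdpos hdr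
            have h4 : K j ∩ Ioo (x - 3 / 2 * d) (x + 3 / 2 * d) ⊆
                (K j ∩ Ioc (x - 3 / 2 * d) (x - 3 / 2 * d + d)) ∪
                ((K j ∩ Ioc (x - 3 / 2 * d + d) (x - 3 / 2 * d + d + d)) ∪
                (K j ∩ Ioc (x - 3 / 2 * d + d + d) (x - 3 / 2 * d + d + d + d))) := by
              intro y hy
              rcases le_or_gt y (x - 3 / 2 * d + d) with h5 | h5
              · exact Or.inl ⟨hy.1, hy.2.1, h5⟩
              · rcases le_or_gt y (x - 3 / 2 * d + d + d) with h6 | h6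
                · exact Or.inr (Or.inl ⟨hy.1, h5, h6⟩)
                · exact Or.inr (Or.inr ⟨hy.1, h6, by linarith [hy.2.2]⟩)
            have h5 : volume.real (K j ∩ Ioo (x - 3 / 2 * d) (x + 3 / 2 * d)) ≤
                volume.real (K j ∩ Ioc (x - 3 / 2 * d) (x - 3 / 2 * d + d)) +
                (volume.real (K j ∩ Ioc (x - 3 / 2 * d + d) (x - 3 / 2 * d + d + d)) +
                volume.real (K j ∩ Ioc (x - 3 / 2 * d + d + d) (x - 3 / 2 * d + d + d + d))) := by
              refine (measureReal_mono h4 ?_).trans ((measureReal_union_le _ _).trans ?_)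
              · exact ne_of_lt (lt_of_le_of_lt (measure_union_le _ _)
                  (ENNReal.add_lt_top.mpr ⟨(hfin j _).lt_top,
                    lt_of_le_of_lt (measure_union_le _ _)
                      (ENNReal.add_lt_top.mpr ⟨(hfin j _).lt_top, (hfin j _).lt_top⟩)⟩))
              · gcongr
                exact measureReal_union_le _ _
            calc 2 ^ j * volume.real (K j ∩ Ioo (x - 3 / 2 * d) (x + 3 / 2 * d))
                ≤ 2 ^ j * (volume.real (K j ∩ Ioc (x - 3 / 2 * d) (x - 3 / 2 * d + d)) +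
                (volume.real (K j ∩ Ioc (x - 3 / 2 * d + d) (x - 3 / 2 * d + d + d)) +
                volume.real (K j ∩ Ioc (x - 3 / 2 * d + d + d) (x - 3 / 2 * d + d + d + d)))) := by
                  gcongr
              _ ≤ 6 * φ d := by linarith
    choose O hOo hOt hOb using hO
    have hKc : ∀ k, IsCompact (K k) := fun k => hF.of_isClosed_subset (hKcl k) (hKF k)
    obtain ⟨j, hj⟩ := exists_subset_nhds_of_isCompact (V := K)
      (directed_of_isDirected_le (fun i j hij => hKanti hij)) hKc (U := ⋃ i, O i) (by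
        intro x hx
        have hx2 := ht hx
        obtain ⟨i, hi⟩ := mem_iUnion.mp hx2
        exact (isOpen_iUnion hOo).mem_nhds (mem_iUnion.mpr ⟨i, hOt i hi⟩))
    have hconv : ∀ T, ENNReal.ofReal (2 ^ j * volume.real (K j ∩ T))
        = ENNReal.ofReal (2 ^ j) * volume (K j ∩ T) := by
      intro T
      rw [ENNReal.ofReal_mul (by positivity), Measure.real, ENNReal.ofReal_toReal (hfin j T)]
    have hchain : ENNReal.ofReal (c0 / 2) ≤
        6 * (∑' i, ⨆ _ : (t i).Nonempty, ENNReal.ofReal (φ (Metric.ediam (t i)).toReal))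
          + ENNReal.ofReal (c0 / 8) := by
      calc ENNReal.ofReal (c0 / 2) ≤ ENNReal.ofReal (2 ^ j * volume.real (K j ∩ ⋃ i, O i)) := by
            apply ENNReal.ofReal_le_ofReal
            rw [inter_eq_left.mpr hj]
            refine le_trans ?_ (hlow j)
            have : (0 : ℝ) < (1 / 2) ^ (j + 1) := by positivity
            nlinarith
        _ = ENNReal.ofReal (2 ^ j) * volume (⋃ i, K j ∩ O i) := by rw [hconv, inter_iUnion]
        _ ≤ ENNReal.ofReal (2 ^ j) * ∑' i, volume (K j ∩ O i) := by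
            gcongr
            exact measure_iUnion_le _
        _ = ∑' i, ENNReal.ofReal (2 ^ j * volume.real (K j ∩ O i)) := by
            rw [← ENNReal.tsum_mul_left]
            exact tsum_congr fun i => (hconv _).symm
        _ ≤ ∑' i, (6 * (⨆ _ : (t i).Nonempty, ENNReal.ofReal (φ (Metric.ediam (t i)).toReal))
            + ENNReal.ofReal (c0 / 8 * (1 / 2) ^ (i + 1))) :=
            ENNReal.tsum_le_tsum fun i => hOb i j
        _ = _ := by
            rw [ENNReal.tsum_add, ENNReal.tsum_mul_left]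
            congr 1
            rw [← ENNReal.ofReal_tsum_of_nonneg (fun i => by positivity)]
            · congr 1
              rw [tsum_mul_left]
              have : ∑' i : ℕ, (1 / 2 : ℝ) ^ (i + 1) = 1 := by
                simp_rw [pow_succ]
                rw [tsum_mul_right, tsum_geometric_two]
                norm_num
              rw [this, mul_one]
            · have h1 : Summable (fun i : ℕ => (1 / 2 : ℝ) ^ (i + 1)) := by
                simp_rw [pow_succ]
                exact summable_geometric_two.mul_right _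
              exact h1.mul_left _
    by_contra hcon
    rw [not_le] at hcon
    have h6 : 6 * (∑' i, ⨆ _ : (t i).Nonempty, ENNReal.ofReal (φ (Metric.ediam (t i)).toReal))
        + ENNReal.ofReal (c0 / 8) ≤ 6 * ENNReal.ofReal (c0 / 24) + ENNReal.ofReal (c0 / 8) := by
      gcongr
    have h7 : 6 * ENNReal.ofReal (c0 / 24) + ENNReal.ofReal (c0 / 8)
        = ENNReal.ofReal (3 / 8 * c0) := by
      have e6 : (6 : ℝ≥0∞) = ENNReal.ofReal 6 := by norm_num
      rw [e6, ← ENNReal.ofReal_mul (by norm_num), ← ENNReal.ofReal_add (by positivity)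
        (by positivity)]
      congr 1
      ring
    have h8 := hchain.trans (h6.trans_eq h7)
    rw [ENNReal.ofReal_le_ofReal_iff (by positivity)] at h8
    linarith

end Pool.Agent.MP535d13
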