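import Mathlib

set_option autoImplicit false

open MeasureTheory Set Filter Topology

namespace Pool.Agent.MP535d13

/-- points whose `n`-th multiple has fractional part at most `1/2` -/
def E (n : ℕ) : Set ℝ := {x | Int.fract ((n : ℝ) * x) ≤ 1 / 2}

/-- the periodic indicator function of `fract ≤ 1/2` -/
noncomputable def ph (y : ℝ) : ℝ := if Int.fract y ≤ 1 / 2 then 1 else 0

lemma measurableSet_E (n : ℕ) : MeasurableSet (E n) :=
  measurableSet_le (measurable_fract.comp (measurable_const.mul measurable_id)) measurable_const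

lemma ph_periodic : Function.Periodic ph 1 := by
  intro y
  simp [ph, Int.fract_add_one]

lemma ph_measurable : Measurable ph :=
  Measurable.ite (measurableSet_le measurable_fract measurable_const)
    measurable_const measurable_const

lemma ph_nonneg (y : ℝ) : 0 ≤ ph y := by
  unfold ph; split_ifs <;> norm_num

lemma ph_le_one (y : ℝ) : ph y ≤ 1 := by
  unfold ph; split_ifs <;> norm_num

lemma ph_int (a b : ℝ) : IntervalIntegrable ph volume a b := by
  have h : IntervalIntegrable (fun _ : ℝ => (1 : ℝ)) volume a b := intervalIntegrable_const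
  refine h.mono_fun ph_measurable.aestronglyMeasurable ?_
  refine Filter.Eventually.of_forall fun x => ?_
  show ‖ph x‖ ≤ ‖(1 : ℝ)‖
  rw [Real.norm_eq_abs, abs_of_nonneg (ph_nonneg x)]
  simpa using ph_le_one x

lemma ph_int01 : ∫ s in (0 : ℝ)..1, ph s = 1 / 2 := by
  rw [← intervalIntegral.integral_add_adjacent_intervals (ph_int 0 (1 / 2)) (ph_int (1 / 2) 1)]
  have h1 : ∫ s in (0 : ℝ)..(1 / 2), ph s = ∫ s in (0 : ℝ)..(1 / 2), (1 : ℝ) := by
    apply intervalIntegral.integral_congr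
    intro x hx
    rw [uIcc_of_le (by norm_num)] at hx
    have : Int.fract x = x := Int.fract_eq_self.mpr ⟨hx.1, by linarith [hx.2]⟩
    simp only [ph, this]
    rw [if_pos hx.2]
  have h2 : ∫ s in (1 / 2 : ℝ)..1, ph s = ∫ s in (1 / 2 : ℝ)..1, (0 : ℝ) := by
    apply intervalIntegral.integral_congr_ae
    have hne : ∀ᵐ x : ℝ, x ≠ 1 := by
      simp [ae_iff, measure_singleton]
    filter_upwards [hne] with x hx1 hx
    rw [uIoc_of_le (by norm_num)] at hx
    have : Int.fract x = x := Int.fract_eq_self.mpr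
      ⟨by linarith [hx.1], lt_of_le_of_ne hx.2 hx1⟩
    simp only [ph, this]
    rw [if_neg (not_le.mpr hx.1)]
  rw [h1, h2]
  simp

lemma ph_prim (y : ℝ) : |(∫ s in (0 : ℝ)..y, ph s) - y / 2| ≤ 1 := by
  have h1 : (∫ s in (0 : ℝ)..y, ph s) = (∫ s in (0 : ℝ)..(⌊y⌋ : ℝ), ph s)
      + ∫ s in (⌊y⌋ : ℝ)..y, ph s :=
    (intervalIntegral.integral_add_adjacent_intervals (ph_int _ _) (ph_int _ _)).symm
  have h2 : (∫ s in (0 : ℝ)..(⌊y⌋ : ℝ), ph s) = (⌊y⌋ : ℝ) / 2 := by
    have := ph_periodic.intervalIntegral_add_zsmul_eq ⌊y⌋ 0 ph_int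
    simp only [zero_add, zsmul_eq_mul, mul_one] at this
    rw [this, ph_int01]
    ring
  have h3 : ‖∫ s in (⌊y⌋ : ℝ)..y, ph s‖ ≤ 1 * |y - ⌊y⌋| := by
    apply intervalIntegral.norm_integral_le_of_norm_le_const
    intro x _
    rw [Real.norm_eq_abs, abs_of_nonneg (ph_nonneg x)]
    exact ph_le_one x
  have h4 : 0 ≤ ∫ s in (⌊y⌋ : ℝ)..y, ph s :=
    intervalIntegral.integral_nonneg (Int.floor_le y) (fun u _ => ph_nonneg u)
  have h5 : 0 ≤ y - ⌊y⌋ := sub_nonneg.mpr (Int.floor_le y)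
  have h6 : y - ⌊y⌋ ≤ 1 := by linarith [Int.lt_floor_add_one y]
  rw [Real.norm_eq_abs, abs_of_nonneg h4, abs_of_nonneg h5, one_mul] at h3
  rw [h1, h2, abs_le]
  constructor <;> linarith

lemma real_E_Ioc (n : ℕ) (hn : 1 ≤ n) (t : ℝ) (ht : 0 ≤ t) :
    |volume.real (E n ∩ Ioc 0 t) - t / 2| ≤ 1 / n := by
  have hn0 : (0 : ℝ) < n := by exact_mod_cast hn
  have h1 : volume.real (E n ∩ Ioc 0 t) = ∫ x in (0 : ℝ)..t, ph ((n : ℝ) * x) := by
    rw [intervalIntegral.integral_of_le ht]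
    have : (fun x => ph ((n : ℝ) * x)) = (E n).indicator (fun _ => (1 : ℝ)) := by
      funext x
      by_cases hx : x ∈ E n
      · rw [indicator_of_mem hx]
        simp only [ph]
        exact if_pos hx
      · rw [indicator_of_notMem hx]
        simp only [ph]
        exact if_neg hx
    rw [this, integral_indicator (measurableSet_E n), setIntegral_const]
    simp [Measure.real, Measure.restrict_apply (measurableSet_E n)]
  rw [h1, intervalIntegral.integral_comp_mul_left _ hn0.ne', mul_zero, smul_eq_mul]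
  have h2 := ph_prim ((n : ℝ) * t)
  have h3 : (n : ℝ)⁻¹ * (∫ x in (0 : ℝ)..(n : ℝ) * t, ph x) - t / 2
      = (n : ℝ)⁻¹ * ((∫ x in (0 : ℝ)..(n : ℝ) * t, ph x) - (n : ℝ) * t / 2) := by
    field_simp
  rw [h3, abs_mul, abs_of_pos (by positivity : (0 : ℝ) < (n : ℝ)⁻¹)]
  calc (n : ℝ)⁻¹ * |(∫ x in (0 : ℝ)..(n : ℝ) * t, ph x) - (n : ℝ) * t / 2|
      ≤ (n : ℝ)⁻¹ * 1 := by gcongr
    _ = 1 / n := by rw [mul_one, one_div]

/-- equidistribution on measurable subsets of `(0, 1]` -/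
lemma equi (S : Set ℝ) (hS : MeasurableSet S) :
    Tendsto (fun n : ℕ => volume.real (S ∩ Ioc 0 1 ∩ E n)) atTop
      (𝓝 (volume.real (S ∩ Ioc 0 1) / 2)) := by
  have hfin : ∀ T : Set ℝ, volume (T ∩ Ioc (0 : ℝ) 1) ≠ ⊤ := fun T =>
    ne_of_lt (lt_of_le_of_lt (measure_mono inter_subset_right) (by simp))
  have hfin2 : ∀ (T : Set ℝ) (n : ℕ), volume (T ∩ Ioc (0 : ℝ) 1 ∩ E n) ≠ ⊤ := fun T n =>
    ne_of_lt (lt_of_le_of_lt (measure_mono inter_subset_left) (hfin T).lt_top)
  induction S, hS using MeasurableSpace.induction_on_inter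
    (borel_eq_generateFrom_Iic ℝ ▸ (BorelSpace.measurable_eq (α := ℝ))) isPiSystem_Iic with
  | empty => simp
  | basic T hT =>
    obtain ⟨t, rfl⟩ := hT
    have key : ∀ s : ℝ, 0 ≤ s → Tendsto (fun n : ℕ => volume.real (E n ∩ Ioc 0 s)) atTop
        (𝓝 (s / 2)) := by
      intro s hs
      rw [tendsto_iff_norm_sub_tendsto_zero]
      refine squeeze_zero' (Eventually.of_forall fun n => norm_nonneg _) ?_
        tendsto_one_div_atTop_nhds_zero_nat
      filter_upwards [eventually_ge_atTop 1] with n hn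
      exact real_E_Ioc n hn s hs
    have hset : Iic t ∩ Ioc (0 : ℝ) 1 = Ioc 0 (min t 1) := by
      ext x
      simp only [mem_inter_iff, mem_Iic, mem_Ioc, le_min_iff]
      tauto
    by_cases ht : 0 ≤ min t 1
    · have h1 := key (min t 1) ht
      rw [hset]
      have h2 : volume.real (Ioc (0 : ℝ) (min t 1)) = min t 1 := by
        rw [Real.volume_real_Ioc_of_le ht, sub_zero]
      rw [h2]
      refine h1.congr fun n => ?_
      rw [inter_comm]
    · rw [hset, Ioc_eq_empty (by intro h; exact ht h.le)]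
      simp
  | compl T hT ih =>
    have h1 : ∀ n, volume.real (Tᶜ ∩ Ioc 0 1 ∩ E n)
        = volume.real (E n ∩ Ioc 0 1) - volume.real (T ∩ Ioc 0 1 ∩ E n) := by
      intro n
      have : Tᶜ ∩ Ioc 0 1 ∩ E n = (E n ∩ Ioc 0 1) \ (T ∩ Ioc 0 1 ∩ E n) := by
        ext x; simp only [mem_inter_iff, mem_compl_iff, Set.mem_sdiff]; tauto
      have hsub : T ∩ Ioc 0 1 ∩ E n ⊆ E n ∩ Ioc 0 1 := fun x hx => ⟨hx.2, hx.1.2⟩
      rw [this, measureReal_sdiff hsub
        ((hT.inter measurableSet_Ioc).inter (measurableSet_E n)) (hfin (E n))]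
    have h2 : volume.real (Tᶜ ∩ Ioc (0 : ℝ) 1) = 1 - volume.real (T ∩ Ioc 0 1) := by
      have : Tᶜ ∩ Ioc (0 : ℝ) 1 = Ioc 0 1 \ (T ∩ Ioc 0 1) := by
        ext x; simp only [mem_inter_iff, mem_compl_iff, Set.mem_sdiff]; tauto
      rw [this, measureReal_sdiff inter_subset_right (hT.inter measurableSet_Ioc) (by simp)]
      simp
    rw [h2, sub_div]
    have h3 : Tendsto (fun n : ℕ => volume.real (E n ∩ Ioc 0 1)) atTop (𝓝 (1 / 2)) := by
      rw [tendsto_iff_norm_sub_tendsto_zero]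
      refine squeeze_zero' (Eventually.of_forall fun n => norm_nonneg _) ?_
        tendsto_one_div_atTop_nhds_zero_nat
      filter_upwards [eventually_ge_atTop 1] with n hn
      exact real_E_Ioc n hn 1 zero_le_one
    exact (h3.sub ih).congr fun n => (h1 n).symm
  | iUnion f hd hf ih =>
    have h1 : ∀ n, volume.real ((⋃ i, f i) ∩ Ioc 0 1 ∩ E n)
        = ∑' i, volume.real (f i ∩ Ioc 0 1 ∩ E n) := by
      intro n
      have : (⋃ i, f i) ∩ Ioc 0 1 ∩ E n = ⋃ i, (f i ∩ Ioc 0 1 ∩ E n) := by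
        simp only [iUnion_inter]
      rw [this, Measure.real, measure_iUnion
        (fun i j hij => Disjoint.mono (fun x hx => hx.1.1) (fun x hx => hx.1.1) (hd hij))
        (fun i => ((hf i).inter measurableSet_Ioc).inter (measurableSet_E n)),
        ENNReal.tsum_toReal_eq (fun i => hfin2 (f i) n)]
      rfl
    have hvol : volume ((⋃ i, f i) ∩ Ioc (0 : ℝ) 1) = ∑' i, volume (f i ∩ Ioc 0 1) := by
      rw [iUnion_inter, measure_iUnion
        (fun i j hij => Disjoint.mono (fun x hx => hx.1) (fun x hx => hx.1) (hd hij))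
        (fun i => (hf i).inter measurableSet_Ioc)]
    have h2 : volume.real ((⋃ i, f i) ∩ Ioc (0 : ℝ) 1) = ∑' i, volume.real (f i ∩ Ioc 0 1) := by
      rw [Measure.real, hvol, ENNReal.tsum_toReal_eq (fun i => hfin (f i))]
      rfl
    have hsum : Summable (fun i => volume.real (f i ∩ Ioc 0 1)) := by
      apply ENNReal.summable_toReal
      rw [← hvol]
      exact hfin _
    rw [h2, ← tsum_div_const]
    simp_rw [h1]
    refine tendsto_tsum_of_dominated_convergence hsum ih ?_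
    refine Eventually.of_forall fun n i => ?_
    rw [Real.norm_eq_abs, abs_of_nonneg measureReal_nonneg]
    exact measureReal_mono inter_subset_left (hfin (f i))

/-- uniform version of equidistribution: for all large `n` and all `t` -/
lemma equi_unif (S : Set ℝ) (hS : MeasurableSet S) (hS1 : S ⊆ Ioc 0 1) (ε : ℝ) (hε : 0 < ε) :
    ∃ N : ℕ, ∀ n ≥ N, ∀ t : ℝ, t ∈ Icc (0 : ℝ) 1 →
      |volume.real (S ∩ Iic t ∩ E n) - volume.real (S ∩ Iic t) / 2| ≤ ε := by
  obtain ⟨M, hM⟩ := exists_nat_gt (4 / ε)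
  have hM0 : (0 : ℝ) < M := lt_trans (by positivity) hM
  have hMn : 0 < M := by exact_mod_cast hM0
  have hfin : ∀ T : Set ℝ, volume (S ∩ T) ≠ ⊤ := fun T =>
    ne_of_lt (lt_of_le_of_lt (measure_mono (inter_subset_left.trans hS1)) (by simp))
  have hcell : ∀ i : ℕ, ∀ᶠ n : ℕ in atTop,
      |volume.real (S ∩ Iic ((i : ℝ) / M) ∩ E n) - volume.real (S ∩ Iic ((i : ℝ) / M)) / 2|
        ≤ ε / 2 := by
    intro i
    have h := equi (S ∩ Iic ((i : ℝ) / M)) (hS.inter measurableSet_Iic)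
    have e : S ∩ Iic ((i : ℝ) / M) ∩ Ioc 0 1 = S ∩ Iic ((i : ℝ) / M) :=
      inter_eq_left.mpr (inter_subset_left.trans hS1)
    rw [e] at h
    have := (Metric.tendsto_nhds.mp h) (ε / 2) (by positivity)
    filter_upwards [this] with n hn
    rw [Real.dist_eq] at hn
    exact hn.le
  have hall : ∀ᶠ n : ℕ in atTop, ∀ i ∈ Finset.range (M + 1),
      |volume.real (S ∩ Iic ((i : ℝ) / M) ∩ E n) - volume.real (S ∩ Iic ((i : ℝ) / M)) / 2|
        ≤ ε / 2 := by
    rw [Filter.eventually_all_finset]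
    intro i _
    exact hcell i
  obtain ⟨N, hN⟩ := eventually_atTop.mp hall
  refine ⟨N, fun n hn t ht => ?_⟩
  set i : ℕ := ⌊t * M⌋₊ with hi
  have htM : 0 ≤ t * M := mul_nonneg ht.1 hM0.le
  have hi1 : (i : ℝ) ≤ t * M := Nat.floor_le htM
  have hi2 : t * M < i + 1 := Nat.lt_floor_add_one _
  have hiM : i ≤ M := by
    have : (i : ℝ) ≤ M := le_trans hi1 (by nlinarith [ht.2])
    exact_mod_cast this
  have hc := hN n hn i (Finset.mem_range.mpr (by omega))
  have hit : (i : ℝ) / M ≤ t := by rw [div_le_iff₀ hM0]; exact hi1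
  have hit2 : t - (i : ℝ) / M ≤ 1 / M := by
    rw [sub_le_iff_le_add, ← add_div, le_div_iff₀ hM0]; linarith
  -- difference sets
  have hdiff : ∀ T : Set ℝ, MeasurableSet T → volume.real (S ∩ Iic t ∩ T)
      - volume.real (S ∩ Iic ((i : ℝ) / M) ∩ T) ≤ 1 / M ∧
      0 ≤ volume.real (S ∩ Iic t ∩ T) - volume.real (S ∩ Iic ((i : ℝ) / M) ∩ T) := by
    intro T hT
    have hsub : S ∩ Iic ((i : ℝ) / M) ∩ T ⊆ S ∩ Iic t ∩ T := by
      intro x hx
      exact ⟨⟨hx.1.1, le_trans hx.1.2 hit⟩, hx.2⟩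
    have hfin' : volume (S ∩ Iic t ∩ T) ≠ ⊤ := by
      rw [inter_assoc]; exact hfin _
    refine ⟨?_, sub_nonneg.mpr (measureReal_mono hsub hfin')⟩
    rw [← measureReal_sdiff hsub ((hS.inter measurableSet_Iic).inter hT)
      (by rw [inter_assoc]; exact hfin _)]
    have hss : (S ∩ Iic t ∩ T) \ (S ∩ Iic ((i : ℝ) / M) ∩ T) ⊆ Ioc ((i : ℝ) / M) t := by
      intro x hx
      refine ⟨?_, hx.1.1.2⟩
      by_contra hcon
      exact hx.2 ⟨⟨hx.1.1.1, not_lt.mp hcon⟩, hx.1.2⟩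
    calc volume.real ((S ∩ Iic t ∩ T) \ (S ∩ Iic ((i : ℝ) / M) ∩ T))
        ≤ volume.real (Ioc ((i : ℝ) / M) t) := measureReal_mono hss (by simp)
      _ = t - (i : ℝ) / M := by rw [Real.volume_real_Ioc_of_le hit]
      _ ≤ 1 / M := hit2
  have hMe : 1 / (M : ℝ) ≤ ε / 4 := by
    rw [div_le_iff₀ hM0]
    rw [div_lt_iff₀ hε] at hM
    linarith
  obtain ⟨a1, a2⟩ := hdiff (E n) (measurableSet_E n)
  obtain ⟨b1, b2⟩ := hdiff univ MeasurableSet.univ
  simp only [inter_univ] at b1 b2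
  rw [abs_le] at hc ⊢
  constructor <;> linarith [hc.1, hc.2]

end Pool.Agent.MP535d13
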