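import Mathlib
import Pool.Agent.Lib.MP_535d13_an.CantorMap

set_option autoImplicit false
open Filter Topology MeasureTheory
open scoped ENNReal

namespace Pool.Agent.MP_535d13_an

/-- choice of the scales -/
lemma exists_scales (φ : ℝ → ℝ) (hpos : ∀ r : ℝ, 0 < r → 0 < φ r)
    (hlim : Tendsto (fun r : ℝ => r / φ r) (𝓝[>] (0 : ℝ)) (𝓝 0)) :
    ∃ L : ℕ → ℕ, L 0 = 1 ∧ (∀ k, 0 < L k) ∧ (∀ k, L k ∣ L (k + 1)) ∧ (∀ k, 2 * L k ≤ L (k + 1)) ∧
      ∀ k, ∀ d : ℝ, 0 < d → d < 1 / L (k + 1) → 2 ^ (k + 4) * d ≤ φ d := by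
  have hδ : ∀ k : ℕ, ∃ δ > 0, ∀ d : ℝ, 0 < d → d < δ → 2 ^ (k + 4) * d ≤ φ d := by
    intro k
    have h1 : ∀ᶠ r in 𝓝[>] (0 : ℝ), r / φ r < 1 / 2 ^ (k + 4) :=
      hlim.eventually_lt_const (by positivity)
    rw [eventually_nhdsWithin_iff, Metric.eventually_nhds_iff] at h1
    obtain ⟨δ, hδ, h2⟩ := h1
    refine ⟨δ, hδ, fun d hd0 hd1 => ?_⟩
    have h3 := h2 (y := d) (by rw [Real.dist_eq, sub_zero, abs_of_pos hd0]; exact hd1) hd0
    have h4 := hpos d hd0
    rw [div_lt_div_iff₀ h4 (by positivity), one_mul] at h3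
    linarith
  choose δ hδ0 hδ1 using hδ
  -- recursion
  obtain ⟨L, hL0, hLs⟩ : ∃ L : ℕ → ℕ, L 0 = 1 ∧ ∀ k, L (k + 1) = L k * (⌈1 / δ k⌉₊ + 2) :=
    ⟨fun n => Nat.rec 1 (fun k l => l * (⌈1 / δ k⌉₊ + 2)) n, rfl, fun k => rfl⟩
  have hLpos : ∀ k, 0 < L k := by
    intro k
    induction k with
    | zero => rw [hL0]; exact one_pos
    | succ k ih => rw [hLs]; positivity
  refine ⟨L, hL0, hLpos, fun k => ?_, fun k => ?_, fun k d hd0 hd1 => ?_⟩
  · rw [hLs]; exact dvd_mul_right _ _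
  · rw [hLs]
    have := hLpos k
    nlinarith [Nat.zero_le ⌈1 / δ k⌉₊]
  · apply hδ1 k d hd0
    refine hd1.trans_le ?_
    have h1 : 1 / δ k ≤ (L (k + 1) : ℝ) := by
      rw [hLs]
      push_cast
      have h2 := Nat.le_ceil (1 / δ k)
      have h3 : (1 : ℝ) ≤ ((L k : ℕ) : ℝ) := by exact_mod_cast hLpos k
      have h4 : (0 : ℝ) ≤ (⌈1 / δ k⌉₊ : ℝ) := by positivity
      nlinarith
    rw [div_le_iff₀ (by exact_mod_cast hLpos (k + 1))]
    rw [div_le_iff₀ (hδ0 k)] at h1
    linarith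

/-- the base measure -/
noncomputable def mu0 : Measure ℝ := volume.restrict (Set.Ico (0 : ℝ) 1)

/-- the translated Cantor measures -/
noncomputable def muT (L : ℕ → ℕ) (t : ℝ) : Measure ℝ := mu0.map (fun s => TT L s + t)

lemma pow_le_L (L : ℕ → ℕ) (hL0 : L 0 = 1) (hL2 : ∀ k, 2 * L k ≤ L (k + 1)) (k : ℕ) :
    2 ^ k ≤ L k := by
  induction k with
  | zero => rw [hL0]; norm_num
  | succ k ih => rw [pow_succ]; have := hL2 k; omega

lemma muT_bound (L : ℕ → ℕ) (hL : ∀ k, 0 < L k) (t : ℝ) (V : Set ℝ) (hV : Metric.ediam V ≠ ⊤)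
    (k : ℕ) :
    muT L t V ≤ ENNReal.ofReal (2 ^ (k + 1) * (Metric.ediam V).toReal + 1 / L k) := by
  set d := (Metric.ediam V).toReal with hd
  have hm : Measurable (fun s => TT L s + t) := (TT_measurable L).add_const t
  calc muT L t V ≤ muT L t (closure V) := measure_mono subset_closure
    _ = mu0 ((fun s => TT L s + t) ⁻¹' closure V) := by
        unfold muT
        rw [Measure.map_apply hm isClosed_closure.measurableSet]
    _ = volume (((fun s => TT L s + t) ⁻¹' closure V) ∩ Set.Ico (0 : ℝ) 1) := by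
        unfold mu0
        rw [Measure.restrict_apply (hm isClosed_closure.measurableSet)]
    _ ≤ Metric.ediam (((fun s => TT L s + t) ⁻¹' closure V) ∩ Set.Ico (0 : ℝ) 1) :=
        Real.volume_le_diam _
    _ ≤ ENNReal.ofReal (2 ^ (k + 1) * d + 1 / L k) := by
        apply Metric.ediam_le
        rintro s ⟨hs1, hs2⟩ s' ⟨hs1', hs2'⟩
        have hdist : ∀ x ∈ closure V, ∀ y ∈ closure V, |x - y| ≤ d := by
          intro x hx y hy
          have h1 : edist x y ≤ Metric.ediam (closure V) := Metric.edist_le_ediam_of_mem hx hy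
          rw [Metric.ediam_closure, edist_dist, Real.dist_eq] at h1
          rw [hd]
          exact (ENNReal.ofReal_le_iff_le_toReal hV).mp h1
        have h2 := hdist _ hs1 _ hs1'
        simp only [add_sub_add_right_eq_sub] at h2
        rw [edist_dist, Real.dist_eq]
        apply ENNReal.ofReal_le_ofReal
        rcases le_total s s' with hss | hss
        · have h3 := TT_diff L hL hs2.1 hss hs2'.2.le k
          rw [abs_sub_comm, abs_of_nonneg (by linarith)]
          rw [abs_sub_comm] at h2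
          have h4 := (le_abs_self _).trans h2
          have h5 : (2 : ℝ) ^ (k + 1) * (TT L s' - TT L s) ≤ 2 ^ (k + 1) * d :=
            mul_le_mul_of_nonneg_left h4 (by positivity)
          linarith
        · have h3 := TT_diff L hL hs2'.1 hss hs2.2.le k
          rw [abs_of_nonneg (by linarith)]
          have h4 := (le_abs_self _).trans h2
          have h5 : (2 : ℝ) ^ (k + 1) * (TT L s - TT L s') ≤ 2 ^ (k + 1) * d :=
            mul_le_mul_of_nonneg_left h4 (by positivity)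
          linarith

lemma muT_le_mkMetric (φ : ℝ → ℝ) (L : ℕ → ℕ) (hL0 : L 0 = 1) (hL : ∀ k, 0 < L k)
    (hL2 : ∀ k, 2 * L k ≤ L (k + 1))
    (hφ : ∀ k, ∀ d : ℝ, 0 < d → d < 1 / L (k + 1) → 2 ^ (k + 4) * d ≤ φ d) (t : ℝ) :
    muT L t ≤ Measure.mkMetric (fun r : ℝ≥0∞ => ENNReal.ofReal (φ r.toReal)) := by
  have hL1 : (0 : ℝ) < L 1 := by exact_mod_cast hL 1
  apply Measure.le_mkMetric _ _ (ENNReal.ofReal (1 / (2 * L 1)))
  · rw [ENNReal.ofReal_pos]; positivity
  intro V hV
  have hVtop : Metric.ediam V ≠ ⊤ := ne_top_of_le_ne_top ENNReal.ofReal_ne_top hV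
  set d := (Metric.ediam V).toReal with hd
  have hd0 : 0 ≤ d := ENNReal.toReal_nonneg
  have hdle : d ≤ 1 / (2 * L 1) := by
    rw [hd]
    exact ENNReal.toReal_le_of_le_ofReal (by positivity) hV
  have hd1 : d < 1 / L 1 := by
    refine hdle.trans_lt ?_
    apply one_div_lt_one_div_of_lt hL1
    linarith
  have hLlim : Tendsto (fun k => 1 / (L k : ℝ)) atTop (𝓝 0) := by
    have h1 : Tendsto (fun k : ℕ => (1 / 2 : ℝ) ^ k) atTop (𝓝 0) :=
      tendsto_pow_atTop_nhds_zero_of_lt_one (by norm_num) (by norm_num)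
    refine squeeze_zero (fun k => by positivity) (fun k => ?_) h1
    rw [one_div_pow]
    apply one_div_le_one_div_of_le (by positivity)
    exact_mod_cast pow_le_L L hL0 hL2 k
  rcases eq_or_lt_of_le hd0 with h0 | h0
  · -- diameter zero
    have h1 : ∀ k, muT L t V ≤ ENNReal.ofReal (1 / L k) := by
      intro k
      have := muT_bound L hL t V hVtop k
      rw [← hd, ← h0] at this
      simpa using this
    have h2 : Tendsto (fun k => ENNReal.ofReal (1 / (L k : ℝ))) atTop (𝓝 0) := by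
      have := ENNReal.tendsto_ofReal hLlim
      simpa using this
    have h3 : muT L t V ≤ 0 := ge_of_tendsto' h2 h1
    exact h3.trans bot_le
  · -- least k
    have hex : ∃ k, 1 / (L k : ℝ) ≤ d := by
      obtain ⟨k, hk⟩ := (hLlim.eventually_lt_const h0).exists
      exact ⟨k, hk.le⟩
    classical
    set k := Nat.find hex with hk
    have hk1 : 1 / (L k : ℝ) ≤ d := Nat.find_spec hex
    have hk2 : ∀ j < k, d < 1 / (L j : ℝ) := fun j hj => not_le.mp (Nat.find_min hex hj)
    have hkge : 2 ≤ k := by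
      by_contra hlt
      push Not at hlt
      have hLL : (L 0 : ℝ) ≤ L 1 := by
        have := hL2 0
        rw [zero_add] at this
        have h5 : L 0 ≤ L 1 := by omega
        exact_mod_cast h5
      have h6 : 1 / (L 1 : ℝ) ≤ 1 / (L 0 : ℝ) :=
        one_div_le_one_div_of_le (by exact_mod_cast hL 0) hLL
      interval_cases k
      · linarith
      · linarith
    obtain ⟨j, hj⟩ : ∃ j, k = j + 2 := ⟨k - 2, by omega⟩
    have h3 := hφ j d h0 (hk2 (j + 1) (by omega))
    refine (muT_bound L hL t V hVtop k).trans ?_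
    apply ENNReal.ofReal_le_ofReal
    rw [← hd]
    have h4 : (2 : ℝ) ^ (k + 1) * d + 1 / L k ≤ 2 ^ (j + 4) * d := by
      have h5 : (2 : ℝ) ^ (j + 4) = 2 * 2 ^ (k + 1) := by rw [hj]; ring
      have h6 : (1 : ℝ) ≤ 2 ^ (k + 1) := one_le_pow₀ (by norm_num)
      rw [h5]
      nlinarith
    exact h4.trans h3

end Pool.Agent.MP_535d13_an
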