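import Pool.Agent.Lib.MP_535d13_an.Normal

set_option autoImplicit false

open MeasureTheory Set Filter Topology

namespace Pool.Agent.MP535d13

lemma sq_ratio (a : ℝ) (ha : 1 < a) :
    ∀ᶠ n : ℕ in atTop, ((((n + 1) + 1) ^ 2 : ℕ) : ℝ) ≤ a * (((n + 1) ^ 2 : ℕ) : ℝ) := by
  have h1 : Tendsto (fun n : ℕ => (1 + 1 / ((n : ℝ) + 1)) ^ 2) atTop (𝓝 ((1 + 0) ^ 2)) :=
    (tendsto_const_nhds.add tendsto_one_div_add_atTop_nhds_zero_nat).pow 2
  have h2 : ((1 : ℝ) + 0) ^ 2 < a := by simpa using ha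
  filter_upwards [h1.eventually_lt_const h2] with n hn
  have h3 : (0 : ℝ) < (n : ℝ) + 1 := by positivity
  have h4 : ((n : ℝ) + 1 + 1) = (1 + 1 / ((n : ℝ) + 1)) * ((n : ℝ) + 1) := by field_simp
  push_cast
  rw [h4, mul_pow]
  gcongr

lemma cd_sum_ae (b : ℕ) (hb : 2 ≤ b) (k : ℕ) (w : Fin k → ℤ)
    (hw : ∀ j, 0 ≤ w j ∧ w j < (b : ℤ)) :
    ∀ᵐ x ∂(volume.restrict (Ioc (0 : ℝ) 1)), Tendsto (fun m : ℕ =>
      (∑ i ∈ Finset.range ((m + 1) ^ 2), cd b k w (((b ^ i : ℕ) : ℝ) * x))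
        / (((m + 1) ^ 2 : ℕ) : ℝ)) atTop (𝓝 0) := by
  have hb1 : 1 ≤ b := by omega
  set Y : ℕ → ℝ → ℝ := fun m x =>
    ((∑ i ∈ Finset.range ((m + 1) ^ 2), cd b k w (((b ^ i : ℕ) : ℝ) * x))
        / (((m + 1) ^ 2 : ℕ) : ℝ)) ^ 2 with hY
  have hYm : ∀ m, Measurable (Y m) := by
    intro m
    refine Measurable.pow_const (Measurable.div_const (Finset.measurable_sum _ fun j _ => ?_) _) 2
    exact (cd_measurable b k w).comp (measurable_const.mul measurable_id)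
  have hY0 : ∀ m x, 0 ≤ Y m x := fun m x => sq_nonneg _
  have hY1 : ∀ m x, |Y m x| ≤ 1 := by
    intro m x
    rw [abs_of_nonneg (hY0 m x), hY]
    have hM : (0 : ℝ) < (((m + 1) ^ 2 : ℕ) : ℝ) := by positivity
    have h1 : |(∑ i ∈ Finset.range ((m + 1) ^ 2), cd b k w (((b ^ i : ℕ) : ℝ) * x))
        / (((m + 1) ^ 2 : ℕ) : ℝ)| ≤ 1 := by
      rw [abs_div, abs_of_pos hM, div_le_one hM]
      refine (Finset.abs_sum_le_sum_abs _ _).trans ?_
      calc _ ≤ ∑ j ∈ Finset.range ((m + 1) ^ 2), (1 : ℝ) :=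
            Finset.sum_le_sum fun j _ => cd_abs b hb1 _ _ _
        _ = _ := by simp
    rw [abs_le] at h1
    nlinarith [h1.1, h1.2]
  have hYi : ∀ m, IntegrableOn (Y m) (Ioc 0 1) volume := by
    intro m
    have := bdd_intervalIntegrable (Y m) (hYm m) 1 (hY1 m) 0 1
    rwa [intervalIntegrable_iff_integrableOn_Ioc_of_le zero_le_one] at this
  have hYint : ∀ m, ∫ x in Ioc (0 : ℝ) 1, Y m x ≤ 2 * k * (1 / ((m : ℝ) + 1) ^ 2) := by
    intro m
    rw [← intervalIntegral.integral_of_le zero_le_one]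
    have hM : (0 : ℝ) < (((m + 1) ^ 2 : ℕ) : ℝ) := by positivity
    simp only [hY, div_pow, intervalIntegral.integral_div]
    rw [div_le_iff₀ (by positivity)]
    refine (cd_var b hb k w hw ((m + 1) ^ 2)).trans (le_of_eq ?_)
    push_cast
    field_simp
  have hlin : ∫⁻ x in Ioc (0 : ℝ) 1, ∑' m, ENNReal.ofReal (Y m x) < ⊤ := by
    rw [lintegral_tsum (fun m => ((hYm m).ennreal_ofReal).aemeasurable)]
    have h1 : ∀ m, ∫⁻ x in Ioc (0 : ℝ) 1, ENNReal.ofReal (Y m x)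
        ≤ ENNReal.ofReal (2 * k * (1 / ((m : ℝ) + 1) ^ 2)) := by
      intro m
      rw [← ofReal_integral_eq_lintegral_ofReal (hYi m) (Eventually.of_forall (hY0 m))]
      exact ENNReal.ofReal_le_ofReal (hYint m)
    refine lt_of_le_of_lt (ENNReal.tsum_le_tsum h1) ?_
    have hs : Summable (fun m : ℕ => 2 * (k : ℝ) * (1 / ((m : ℝ) + 1) ^ 2)) := by
      refine Summable.mul_left _ ?_
      have := (summable_nat_add_iff 1).mpr (Real.summable_one_div_nat_pow.mpr (one_lt_two))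
      simpa using this
    rw [← ENNReal.ofReal_tsum_of_nonneg (fun m => by positivity) hs]
    exact ENNReal.ofReal_lt_top
  have hae := ae_lt_top (Measurable.tsum (fun m => (hYm m).ennreal_ofReal)) hlin.ne
  filter_upwards [hae] with x hx
  have h2 : Tendsto (fun m => ENNReal.ofReal (Y m x)) atTop (𝓝 0) := by
    have := ENNReal.tendsto_atTop_zero_of_tsum_ne_top hx.ne
    simpa using this
  have h3 : Tendsto (fun m => Y m x) atTop (𝓝 0) := by
    have := (ENNReal.tendsto_toReal ENNReal.zero_ne_top).comp h2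
    simp only [ENNReal.toReal_zero] at this
    refine this.congr fun m => ?_
    simp only [Function.comp_apply]
    exact ENNReal.toReal_ofReal (hY0 m x)
  have h4 : Tendsto (fun m => Real.sqrt (Y m x)) atTop (𝓝 (Real.sqrt 0)) :=
    (Real.continuous_sqrt.tendsto 0).comp h3
  rw [Real.sqrt_zero] at h4
  rw [tendsto_zero_iff_abs_tendsto_zero]
  refine h4.congr fun m => ?_
  simp only [hY, Real.sqrt_sq_eq_abs, Function.comp_apply]

lemma dg_sum_tendsto (b : ℕ) (hb : 2 ≤ b) (k : ℕ) (w : Fin k → ℤ) (x : ℝ)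
    (hx : Tendsto (fun m : ℕ =>
      (∑ i ∈ Finset.range ((m + 1) ^ 2), cd b k w (((b ^ i : ℕ) : ℝ) * x))
        / (((m + 1) ^ 2 : ℕ) : ℝ)) atTop (𝓝 0)) :
    Tendsto (fun N : ℕ => (∑ i ∈ Finset.range N, dg b k w (((b ^ i : ℕ) : ℝ) * x)) / (N : ℝ))
      atTop (𝓝 (1 / (b : ℝ) ^ k)) := by
  refine tendsto_div_of_monotone_of_exists_subseq_tendsto_div
    (fun N => ∑ i ∈ Finset.range N, dg b k w (((b ^ i : ℕ) : ℝ) * x)) _ ?_ ?_
  · intro M N hMN
    exact Finset.sum_le_sum_of_subset_of_nonneg (Finset.range_mono hMN)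
      (fun i _ _ => dg_nonneg _ _ _ _)
  · intro a ha
    refine ⟨fun n => (n + 1) ^ 2, sq_ratio a ha, ?_, ?_⟩
    · refine tendsto_atTop_mono (fun n => ?_) tendsto_id
      simp only [id]
      nlinarith
    · have h1 : Tendsto (fun m : ℕ =>
        (∑ i ∈ Finset.range ((m + 1) ^ 2), cd b k w (((b ^ i : ℕ) : ℝ) * x))
        / (((m + 1) ^ 2 : ℕ) : ℝ) + 1 / (b : ℝ) ^ k) atTop (𝓝 (0 + 1 / (b : ℝ) ^ k)) :=
        hx.add tendsto_const_nhds
      rw [zero_add] at h1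
      refine h1.congr fun m => ?_
      have hM : (0 : ℝ) < (((m + 1) ^ 2 : ℕ) : ℝ) := by positivity
      simp only [cd, Finset.sum_sub_distrib, Finset.sum_const, Finset.card_range, nsmul_eq_mul]
      generalize (∑ i ∈ Finset.range ((m + 1) ^ 2), dg b k w (((b ^ i : ℕ) : ℝ) * x)) = S
      generalize (((m + 1) ^ 2 : ℕ) : ℝ) = M at hM ⊢
      generalize (1 : ℝ) / (b : ℝ) ^ k = q
      field_simp
      ring

lemma card_eq_sum (b k : ℕ) (w : Fin k → ℤ) (x : ℝ) (N : ℕ) :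
    ((((Finset.range N).filter (fun i : ℕ =>
      ∀ j : Fin k, ⌊x * (b:ℝ) ^ (i + j.val + 1)⌋ % (b:ℤ) = w j)).card : ℝ))
    = ∑ i ∈ Finset.range N, dg b k w (((b ^ i : ℕ) : ℝ) * x) := by
  rw [Finset.card_filter]
  push_cast
  refine Finset.sum_congr rfl fun i _ => ?_
  unfold dg
  have : ∀ j : Fin k, (b : ℝ) ^ i * x * (b : ℝ) ^ (j.val + 1) = x * (b:ℝ) ^ (i + j.val + 1) := by
    intro j; ring
  simp only [this]

/-- Borel: almost every point of `(0,1]` is absolutely normal. -/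
theorem ae_normal :
    ∀ᵐ x ∂(volume.restrict (Ioc (0 : ℝ) 1)), x ∈ {x : ℝ | ∀ b : ℕ, 2 ≤ b → ∀ k : ℕ,
        ∀ w : Fin k → ℤ, (∀ j : Fin k, 0 ≤ w j ∧ w j < (b:ℤ)) →
            Tendsto (fun N : ℕ =>
              ((((Finset.range N).filter (fun i : ℕ =>
                ∀ j : Fin k, ⌊x * (b:ℝ) ^ (i + j.val + 1)⌋ % (b:ℤ) = w j)).card : ℝ) / (N:ℝ)))
              atTop (𝓝 (1 / (b:ℝ) ^ k))} := by
  simp only [mem_ofPred_eq]
  rw [ae_all_iff]
  intro b
  by_cases hb : 2 ≤ b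
  · simp only [hb, true_imp_iff]
    rw [ae_all_iff]
    intro k
    rw [ae_all_iff]
    intro w
    by_cases hw : ∀ j : Fin k, 0 ≤ w j ∧ w j < (b:ℤ)
    · filter_upwards [cd_sum_ae b hb k w hw] with x hx _
      have := dg_sum_tendsto b hb k w x hx
      simp only [card_eq_sum]
      exact this
    · exact Eventually.of_forall fun x h => absurd h hw
  · exact Eventually.of_forall fun x h => absurd h hb

end Pool.Agent.MP535d13
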