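import Mathlib

set_option autoImplicit false
open Filter Topology

namespace Pool.Agent.MP_535d13_an

lemma abel_sum (a : ℕ → ℂ) (v : ℕ → ℝ) (m : ℕ) :
    ∑ n ∈ Finset.range m, a n * (v n : ℂ) =
      (∑ i ∈ Finset.range m, a i) * (v m : ℂ) +
      ∑ n ∈ Finset.range m, (∑ i ∈ Finset.range (n + 1), a i) * ((v n - v (n + 1) : ℝ) : ℂ) := by
  induction m with
  | zero => simp
  | succ m ih =>
    rw [Finset.sum_range_succ, ih, Finset.sum_range_succ (fun n => (∑ i ∈ Finset.range (n + 1), a i)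
      * ((v n - v (n + 1) : ℝ) : ℂ)), Finset.sum_range_succ (fun i => a i)]
    push_cast
    ring

/-- Regularity of a summation method given by weights of uniformly bounded variation. -/
lemma regularity (a : ℕ → ℂ) (v : ℕ → ℕ → ℝ) (V : ℝ)
    (hS : Tendsto (fun N => ∑ i ∈ Finset.range (N + 1), a i) atTop (𝓝 0))
    (hsum : ∀ M, Summable (fun n => a n * (v M n : ℂ)))
    (hv0 : ∀ M, Tendsto (v M) atTop (𝓝 0))
    (hvar : ∀ M m, ∑ n ∈ Finset.range m, |v M n - v M (n + 1)| ≤ V)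
    (hpt : ∀ n, Tendsto (fun M => v M n - v M (n + 1)) atTop (𝓝 0)) :
    Tendsto (fun M => ∑' n, a n * (v M n : ℂ)) atTop (𝓝 0) := by
  have hV : 0 ≤ V := by simpa using hvar 0 0
  -- bound for partial sums
  obtain ⟨B, hB⟩ : ∃ B, ∀ n, ‖∑ i ∈ Finset.range (n + 1), a i‖ ≤ B := by
    obtain ⟨B, hB⟩ := hS.norm.bddAbove_range
    exact ⟨B, fun n => hB ⟨n, rfl⟩⟩
  have hB0 : 0 ≤ B := (norm_nonneg _).trans (hB 0)
  rw [Metric.tendsto_atTop]
  intro ε hε
  set η := ε / (2 * (V + 1)) with hη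
  have hηpos : 0 < η := by positivity
  have hS' := (Metric.tendsto_atTop.mp hS) η hηpos
  obtain ⟨N0, hN0⟩ := hS'
  have hpt' : Tendsto (fun M => ∑ n ∈ Finset.range N0, B * |v M n - v M (n + 1)|) atTop (𝓝 0) := by
    have : Tendsto (fun M => ∑ n ∈ Finset.range N0, B * |v M n - v M (n + 1)|) atTop
        (𝓝 (∑ n ∈ Finset.range N0, B * |0|)) := by
      apply tendsto_finsetSum
      intro n _
      exact ((hpt n).abs).const_mul B
    simpa using this
  obtain ⟨M0, hM0⟩ := (Metric.tendsto_atTop.mp hpt') η hηpos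
  refine ⟨M0, fun M hM => ?_⟩
  have hM1 := hM0 M hM
  rw [Real.dist_eq, sub_zero] at hM1
  have hM2 := lt_of_le_of_lt (le_abs_self _) hM1
  -- bound for the limit
  have hlim : Tendsto (fun m => ∑ n ∈ Finset.range m, a n * (v M n : ℂ)) atTop
      (𝓝 (∑' n, a n * (v M n : ℂ))) := (hsum M).hasSum.tendsto_sum_nat
  have hbd : ∀ m, ‖∑ n ∈ Finset.range m, a n * (v M n : ℂ)‖ ≤
      ‖∑ i ∈ Finset.range m, a i‖ * |v M m| + (η + η * V) := by
    intro m
    rw [abel_sum]
    refine (norm_add_le _ _).trans ?_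
    apply add_le_add
    · rw [norm_mul, Complex.norm_real, Real.norm_eq_abs]
    · refine (norm_sum_le _ _).trans ?_
      have h1 : ∀ n ∈ Finset.range m, ‖(∑ i ∈ Finset.range (n + 1), a i) *
          ((v M n - v M (n + 1) : ℝ) : ℂ)‖ ≤
          (if n < N0 then B * |v M n - v M (n + 1)| else 0) + η * |v M n - v M (n + 1)| := by
        intro n _
        rw [norm_mul, Complex.norm_real, Real.norm_eq_abs]
        split_ifs with h
        · have := mul_le_mul_of_nonneg_right (hB n) (abs_nonneg (v M n - v M (n + 1)))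
          have h2 : 0 ≤ η * |v M n - v M (n + 1)| := by positivity
          linarith
        · push Not at h
          have h2 := hN0 n h
          rw [dist_zero_right] at h2
          have := mul_le_mul_of_nonneg_right h2.le (abs_nonneg (v M n - v M (n + 1)))
          linarith
      refine (Finset.sum_le_sum h1).trans ?_
      rw [Finset.sum_add_distrib, ← Finset.mul_sum]
      apply add_le_add
      · refine le_trans ?_ hM2.le
        rw [← Finset.sum_filter]
        apply Finset.sum_le_sum_of_subset_of_nonneg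
        · intro n hn
          simp only [Finset.mem_filter, Finset.mem_range] at hn ⊢
          exact hn.2
        · intro n _ _
          positivity
      · exact mul_le_mul_of_nonneg_left (hvar M m) hηpos.le
  have hlim2 : Tendsto (fun m => ‖∑ i ∈ Finset.range m, a i‖ * |v M m| + (η + η * V)) atTop
      (𝓝 (0 * |0| + (η + η * V))) := by
    apply Tendsto.add_const
    apply Tendsto.mul
    · have := (tendsto_add_atTop_iff_nat (f := fun m => ∑ i ∈ Finset.range m, a i) 1).mp hS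
      simpa using this.norm
    · exact (hv0 M).abs
  have hfin := le_of_tendsto_of_tendsto hlim.norm hlim2 (Eventually.of_forall hbd)
  rw [dist_zero_right]
  refine lt_of_le_of_lt hfin ?_
  have : η + η * V = ε / 2 := by rw [hη]; field_simp; ring
  rw [zero_mul, zero_add, this]
  linarith

open Real in
lemma sinc_anti {a b : ℝ} (ha : 0 ≤ a) (hab : a ≤ b) (hb : b ≤ π) : sinc b ≤ sinc a := by
  rcases eq_or_lt_of_le ha with h | h
  · rw [← h, sinc_zero]
    exact sinc_le_one b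
  · have hbpos : 0 < b := lt_of_lt_of_le h hab
    rw [sinc_of_ne_zero hbpos.ne', sinc_of_ne_zero h.ne', div_le_div_iff₀ hbpos h]
    have h0mem : (0 : ℝ) ∈ Set.Icc 0 π := ⟨le_refl _, pi_pos.le⟩
    have hbmem : b ∈ Set.Icc 0 π := ⟨hbpos.le, hb⟩
    have hw1 : 0 ≤ 1 - a / b := by rw [sub_nonneg, div_le_one hbpos]; exact hab
    have hw2 : 0 ≤ a / b := by positivity
    have hc := strictConcaveOn_sin_Icc.concaveOn.2 h0mem hbmem hw1 hw2 (by ring)
    simp only [smul_eq_mul, sin_zero, mul_zero, zero_add] at hc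
    rw [div_mul_cancel₀ _ hbpos.ne'] at hc
    rw [div_mul_eq_mul_div, div_le_iff₀ hbpos] at hc
    linarith

open Real in
lemma sinc_nonneg {b : ℝ} (h0 : 0 ≤ b) (hb : b ≤ π) : 0 ≤ sinc b := by
  rcases eq_or_lt_of_le h0 with h | h
  · rw [← h, sinc_zero]; exact zero_le_one
  · rw [sinc_of_ne_zero h.ne']
    exact div_nonneg (sin_nonneg_of_nonneg_of_le_pi h0 hb) h0

/-- Riemann's weights -/
noncomputable def vw (M n : ℕ) : ℝ := (Real.sinc (Real.pi * n / ((M : ℝ) + 1))) ^ 2

open Real in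
lemma vw_tail (M n : ℕ) (hn : M + 1 ≤ n) :
    |vw M n - vw M (n + 1)| ≤
      (1 / (π * n / ((M : ℝ) + 1)) + 1 / (π * n / ((M : ℝ) + 1)) ^ 2) -
      (1 / (π * (n + 1 : ℕ) / ((M : ℝ) + 1)) + 1 / (π * (n + 1 : ℕ) / ((M : ℝ) + 1)) ^ 2) := by
  unfold vw
  set A := π * n / ((M : ℝ) + 1) with hA
  set B := π * (n + 1 : ℕ) / ((M : ℝ) + 1) with hB
  have hK : 0 < (M : ℝ) + 1 := by positivity
  have hn1 : (1 : ℝ) ≤ n := by
    have : 1 ≤ n := by omega
    exact_mod_cast this
  have hApos : 0 < A := by rw [hA]; positivity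
  have hBA : B - A = π / ((M : ℝ) + 1) := by rw [hA, hB]; push_cast; ring
  have hdpos : 0 < B - A := by rw [hBA]; positivity
  have hBpos : 0 < B := by linarith
  rw [sinc_of_ne_zero hApos.ne', sinc_of_ne_zero hBpos.ne']
  have e1 : (sin A / A) ^ 2 - (sin B / B) ^ 2 =
      (sin A ^ 2 - sin B ^ 2) / B ^ 2 + sin A ^ 2 * (1 / A ^ 2 - 1 / B ^ 2) := by
    field_simp
    ring
  have e2 : |sin A ^ 2 - sin B ^ 2| ≤ B - A := by
    have h1 : sin A ^ 2 - sin B ^ 2 = sin (A - B) * sin (A + B) := by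
      rw [sin_sub, sin_add]
      have h2 := sin_sq_add_cos_sq A
      have h3 := sin_sq_add_cos_sq B
      have : sin A ^ 2 - sin B ^ 2 = sin A ^ 2 * (sin B ^ 2 + cos B ^ 2)
        - sin B ^ 2 * (sin A ^ 2 + cos A ^ 2) := by rw [h2, h3]; ring
      rw [this]
      ring
    rw [h1, abs_mul]
    have h4 : |sin (A - B)| ≤ |A - B| := abs_sin_le_abs
    have h5 : |sin (A + B)| ≤ 1 := abs_sin_le_one _
    have h6 : |A - B| = B - A := by rw [abs_sub_comm]; exact abs_of_pos hdpos
    rw [h6] at h4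
    nlinarith [abs_nonneg (sin (A - B)), abs_nonneg (sin (A + B))]
  have e3 : 0 ≤ 1 / A ^ 2 - 1 / B ^ 2 := by
    rw [sub_nonneg]
    apply one_div_le_one_div_of_le (by positivity)
    exact pow_le_pow_left₀ hApos.le (by linarith) 2
  have e4 : (B - A) / B ^ 2 ≤ 1 / A - 1 / B := by
    rw [div_sub_div _ _ hApos.ne' hBpos.ne', one_mul, mul_one]
    rw [div_le_div_iff₀ (by positivity) (by positivity)]
    have : A * B ≤ B ^ 2 := by nlinarith
    nlinarith
  rw [e1]
  refine (abs_add_le _ _).trans ?_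
  have e5 : |(sin A ^ 2 - sin B ^ 2) / B ^ 2| ≤ 1 / A - 1 / B := by
    rw [abs_div, abs_of_pos (by positivity : 0 < B ^ 2)]
    refine le_trans ?_ e4
    exact div_le_div_of_nonneg_right e2 (by positivity)
  have e6 : |sin A ^ 2 * (1 / A ^ 2 - 1 / B ^ 2)| ≤ 1 / A ^ 2 - 1 / B ^ 2 := by
    rw [abs_mul, abs_of_nonneg e3, abs_of_nonneg (sq_nonneg _)]
    have := sin_sq_le_one A
    nlinarith
  linarith

open Real in
lemma vw_var (M m : ℕ) : ∑ n ∈ Finset.range m, |vw M n - vw M (n + 1)| ≤ 2 := by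
  have hK : 0 < (M : ℝ) + 1 := by positivity
  -- first part
  have h1 : ∀ j ≤ M + 1, ∑ n ∈ Finset.range j, |vw M n - vw M (n + 1)| = 1 - vw M j := by
    intro j
    induction j with
    | zero => intro _; simp [vw]
    | succ j ih =>
      intro hj
      rw [Finset.sum_range_succ, ih (by omega)]
      have hmono : vw M (j + 1) ≤ vw M j := by
        unfold vw
        have hj' : ((j + 1 : ℕ) : ℝ) ≤ (M : ℝ) + 1 := by exact_mod_cast hj
        have hle : π * (j + 1 : ℕ) / ((M : ℝ) + 1) ≤ π := by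
          rw [div_le_iff₀ hK]
          exact mul_le_mul_of_nonneg_left hj' pi_pos.le
        apply pow_le_pow_left₀ (sinc_nonneg (by positivity) hle)
        apply sinc_anti (by positivity) _ hle
        gcongr
        linarith
      rw [abs_of_nonneg (by linarith)]
      ring
  set w : ℕ → ℝ := fun n => 1 / (π * n / ((M : ℝ) + 1)) + 1 / (π * n / ((M : ℝ) + 1)) ^ 2 with hw
  have h2 : ∀ j, ∑ n ∈ Finset.range (M + 1 + j), |vw M n - vw M (n + 1)| ≤
      1 + w (M + 1) - w (M + 1 + j) := by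
    intro j
    induction j with
    | zero =>
      rw [Nat.add_zero, h1 (M + 1) le_rfl]
      have : 0 ≤ vw M (M + 1) := by unfold vw; positivity
      linarith
    | succ j ih =>
      rw [← Nat.add_assoc, Finset.sum_range_succ]
      have := vw_tail M (M + 1 + j) (by omega)
      have e : w (M + 1 + j) - w (M + 1 + j + 1) =
        (1 / (π * (M + 1 + j : ℕ) / ((M : ℝ) + 1)) + 1 / (π * (M + 1 + j : ℕ) / ((M : ℝ) + 1)) ^ 2) -
      (1 / (π * (M + 1 + j + 1 : ℕ) / ((M : ℝ) + 1)) +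
        1 / (π * (M + 1 + j + 1 : ℕ) / ((M : ℝ) + 1)) ^ 2) := rfl
      rw [← e] at this
      linarith
  have h3 : w (M + 1) ≤ 1 := by
    simp only [hw]
    have : π * ((M + 1 : ℕ) : ℝ) / ((M : ℝ) + 1) = π := by push_cast; field_simp
    rw [this]
    have hpi := pi_gt_three
    have a1 : 1 / π ≤ 1 / 3 := one_div_le_one_div_of_le (by norm_num) hpi.le
    have a2 : 1 / π ^ 2 ≤ 1 / 9 := one_div_le_one_div_of_le (by norm_num) (by nlinarith)
    linarith
  have h4 : ∀ n, 0 ≤ w n := by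
    intro n
    simp only [hw]
    positivity
  calc ∑ n ∈ Finset.range m, |vw M n - vw M (n + 1)|
      ≤ ∑ n ∈ Finset.range (M + 1 + m), |vw M n - vw M (n + 1)| := by
        apply Finset.sum_le_sum_of_subset_of_nonneg
        · intro n hn
          simp only [Finset.mem_range] at hn ⊢
          omega
        · intro _ _ _
          exact abs_nonneg _
    _ ≤ 2 := by
        have := h2 m
        have := h4 (M + 1 + m)
        linarith

open Real in
lemma vw_le (M n : ℕ) : vw M (n + 1) ≤ ((M : ℝ) + 1) ^ 2 / (π ^ 2 * ((n : ℝ) + 1) ^ 2) := by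
  unfold vw
  have hpos : 0 < π * ((n + 1 : ℕ) : ℝ) / ((M : ℝ) + 1) := by positivity
  rw [sinc_of_ne_zero hpos.ne', div_pow]
  have h1 := sin_sq_le_one (π * ((n + 1 : ℕ) : ℝ) / ((M : ℝ) + 1))
  calc sin (π * ((n + 1 : ℕ) : ℝ) / ((M : ℝ) + 1)) ^ 2 / (π * ((n + 1 : ℕ) : ℝ) / ((M : ℝ) + 1)) ^ 2
      ≤ 1 / (π * ((n + 1 : ℕ) : ℝ) / ((M : ℝ) + 1)) ^ 2 := by gcongr
    _ = ((M : ℝ) + 1) ^ 2 / (π ^ 2 * ((n : ℝ) + 1) ^ 2) := by
        push_cast
        field_simp

lemma vw_nonneg (M n : ℕ) : 0 ≤ vw M n := by unfold vw; positivity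

lemma vw_zero (M : ℕ) : vw M 0 = 1 := by simp [vw]

open Real in
lemma vw_tendsto (M : ℕ) : Tendsto (vw M) atTop (𝓝 0) := by
  rw [← tendsto_add_atTop_iff_nat 1]
  refine squeeze_zero (fun n => vw_nonneg M (n + 1)) (fun n => vw_le M n) ?_
  have h1 : Tendsto (fun n : ℕ => (((M : ℝ) + 1) ^ 2 / π ^ 2) * (1 / ((n : ℝ) + 1)) ^ 2) atTop
      (𝓝 ((((M : ℝ) + 1) ^ 2 / π ^ 2) * 0 ^ 2)) :=
    ((tendsto_one_div_add_atTop_nhds_zero_nat).pow 2).const_mul _
  simp only [ne_eq, OfNat.ofNat_ne_zero, not_false_eq_true, zero_pow, mul_zero] at h1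
  refine h1.congr (fun n => ?_)
  have : π ≠ 0 := pi_ne_zero
  field_simp

open Real in
lemma vw_tendsto_one (n : ℕ) : Tendsto (fun M => vw M n) atTop (𝓝 1) := by
  have h1 : Tendsto (fun M : ℕ => π * n * (1 / ((M : ℝ) + 1))) atTop (𝓝 (π * n * 0)) :=
    tendsto_one_div_add_atTop_nhds_zero_nat.const_mul _
  rw [mul_zero] at h1
  have h2 := ((continuous_sinc.tendsto 0).comp h1).pow 2
  rw [sinc_zero, one_pow] at h2
  refine h2.congr (fun M => ?_)
  unfold vw
  simp only [Function.comp]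
  congr 2
  ring

lemma vw_diff (n : ℕ) : Tendsto (fun M => vw M n - vw M (n + 1)) atTop (𝓝 0) := by
  have := (vw_tendsto_one n).sub (vw_tendsto_one (n + 1))
  simpa using this

end Pool.Agent.MP_535d13_an
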