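import Mathlib

set_option autoImplicit false
open Filter Topology

namespace Pool.Agent.MP_535d13_an

/-- Schwarz's theorem, one-sided version: a continuous function vanishing at the endpoints whose
second symmetric derivative along `1/(M+1)` vanishes everywhere is nonpositive. -/
lemma schwarz_le (G : ℝ → ℝ) (a b : ℝ) (hG : ContinuousOn G (Set.Icc a b))
    (ha : G a = 0) (hb : G b = 0)
    (hD : ∀ x ∈ Set.Ioo a b, Tendsto (fun M : ℕ =>
      (G (x + 1 / ((M : ℝ) + 1)) + G (x - 1 / ((M : ℝ) + 1)) - 2 * G x) * ((M : ℝ) + 1) ^ 2)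
      atTop (𝓝 0)) :
    ∀ x ∈ Set.Icc a b, G x ≤ 0 := by
  intro x0 hx0
  by_contra hcon
  push Not at hcon
  have hx0' : x0 ∈ Set.Ioo a b := by
    refine ⟨lt_of_le_of_ne hx0.1 ?_, lt_of_le_of_ne hx0.2 ?_⟩
    · rintro rfl; linarith
    · rintro rfl; linarith
  have hab : a < b := hx0'.1.trans hx0'.2
  -- small epsilon
  set ε : ℝ := G x0 / (2 * (b - a) ^ 2) with hε
  have hεpos : 0 < ε := by
    have : 0 < b - a := by linarith
    positivity
  set H : ℝ → ℝ := fun x => G x - ε * ((x - a) * (b - x)) with hH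
  have hHcont : ContinuousOn H (Set.Icc a b) := by
    apply hG.sub
    fun_prop
  obtain ⟨x1, hx1, hmax⟩ := isCompact_Icc.exists_isMaxOn (Set.nonempty_Icc.mpr hab.le) hHcont
  have hHx0 : 0 < H x0 := by
    have h1 : (x0 - a) * (b - x0) ≤ (b - a) ^ 2 := by
      have := hx0.1; have := hx0.2
      nlinarith
    have h2 : ε * ((x0 - a) * (b - x0)) ≤ ε * (b - a) ^ 2 :=
      mul_le_mul_of_nonneg_left h1 hεpos.le
    have h3 : ε * (b - a) ^ 2 = G x0 / 2 := by
      have : (b - a) ≠ 0 := by linarith [hab]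
      rw [hε]
      field_simp
    simp only [hH]
    linarith
  have hHx1 : 0 < H x1 := lt_of_lt_of_le hHx0 (hmax hx0)
  have hx1' : x1 ∈ Set.Ioo a b := by
    refine ⟨lt_of_le_of_ne hx1.1 ?_, lt_of_le_of_ne hx1.2 ?_⟩
    · rintro h
      rw [← h] at hHx1
      simp only [hH, ha] at hHx1
      simp at hHx1
    · rintro h
      rw [h] at hHx1
      simp only [hH, hb] at hHx1
      simp at hHx1
  have hlim := hD x1 hx1'
  -- eventually the quotient is at most -2ε
  have hev : ∀ᶠ M : ℕ in atTop,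
      (G (x1 + 1 / ((M : ℝ) + 1)) + G (x1 - 1 / ((M : ℝ) + 1)) - 2 * G x1) * ((M : ℝ) + 1) ^ 2
        ≤ -(2 * ε) := by
    have h1 : Tendsto (fun M : ℕ => 1 / ((M : ℝ) + 1)) atTop (𝓝 0) :=
      tendsto_one_div_add_atTop_nhds_zero_nat
    have h2 : ∀ᶠ M : ℕ in atTop, 1 / ((M : ℝ) + 1) < min (x1 - a) (b - x1) :=
      h1.eventually_lt_const (lt_min (by linarith [hx1'.1]) (by linarith [hx1'.2]))
    filter_upwards [h2] with M hM
    set h := 1 / ((M : ℝ) + 1) with hh
    have hhpos : 0 < h := by positivity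
    have hM1 : h * ((M : ℝ) + 1) = 1 := by rw [hh]; field_simp
    have hl := lt_min_iff.mp hM
    have e1 : H (x1 + h) ≤ H x1 := hmax ⟨by linarith [hx1.1], by linarith [hl.2]⟩
    have e2 : H (x1 - h) ≤ H x1 := hmax ⟨by linarith [hl.1], by linarith [hx1.2]⟩
    have e3 : G (x1 + h) + G (x1 - h) - 2 * G x1 ≤ -(2 * ε) * h ^ 2 := by
      simp only [hH] at e1 e2
      nlinarith
    calc (G (x1 + h) + G (x1 - h) - 2 * G x1) * ((M : ℝ) + 1) ^ 2
        ≤ (-(2 * ε) * h ^ 2) * ((M : ℝ) + 1) ^ 2 :=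
          mul_le_mul_of_nonneg_right e3 (by positivity)
      _ = -(2 * ε) * (h * ((M : ℝ) + 1)) ^ 2 := by ring
      _ = -(2 * ε) := by rw [hM1]; ring
  have := le_of_tendsto hlim hev
  linarith

/-- Schwarz's theorem: vanishing second symmetric derivative implies affine. -/
theorem schwarz_affine (G : ℝ → ℝ) (a b : ℝ) (hab : a < b) (hG : ContinuousOn G (Set.Icc a b))
    (hD : ∀ x ∈ Set.Ioo a b, Tendsto (fun M : ℕ =>
      (G (x + 1 / ((M : ℝ) + 1)) + G (x - 1 / ((M : ℝ) + 1)) - 2 * G x) * ((M : ℝ) + 1) ^ 2)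
      atTop (𝓝 0)) :
    ∃ α β : ℝ, ∀ x ∈ Set.Icc a b, G x = α + β * x := by
  set β := (G b - G a) / (b - a) with hβ
  set α := G a - β * a with hα
  have hba : b - a ≠ 0 := by linarith
  have hβb : β * (b - a) = G b - G a := by rw [hβ]; field_simp
  refine ⟨α, β, ?_⟩
  have h1 : ∀ x ∈ Set.Icc a b, (fun x => G x - (α + β * x)) x ≤ 0 := by
    apply schwarz_le _ a b
    · apply hG.sub; fun_prop
    · simp only [hα]; ring
    · simp only [hα]; linarith
    · intro x hx
      refine (hD x hx).congr (fun M => ?_)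
      ring
  have h2 : ∀ x ∈ Set.Icc a b, (fun x => -(G x - (α + β * x))) x ≤ 0 := by
    apply schwarz_le _ a b
    · apply ContinuousOn.neg
      apply hG.sub; fun_prop
    · simp only [hα]; ring
    · simp only [hα]; linarith
    · intro x hx
      have h3 := (hD x hx).neg
      rw [neg_zero] at h3
      refine h3.congr (fun M => ?_)
      ring
  intro x hx
  have a1 := h1 x hx
  have a2 := h2 x hx
  simp only at a1 a2
  linarith

/-- complex version -/
theorem schwarz_affine_complex (G : ℝ → ℂ) (a b : ℝ) (hab : a < b)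
    (hG : ContinuousOn G (Set.Icc a b))
    (hD : ∀ x ∈ Set.Ioo a b, Tendsto (fun M : ℕ =>
      (G (x + 1 / ((M : ℝ) + 1)) + G (x - 1 / ((M : ℝ) + 1)) - 2 * G x) * ((M : ℂ) + 1) ^ 2)
      atTop (𝓝 0)) :
    ∃ α β : ℂ, ∀ x ∈ Set.Icc a b, G x = α + β * x := by
  have hre : ∀ x ∈ Set.Ioo a b, Tendsto (fun M : ℕ =>
      ((fun y => (G y).re) (x + 1 / ((M : ℝ) + 1)) + (fun y => (G y).re) (x - 1 / ((M : ℝ) + 1))
        - 2 * (fun y => (G y).re) x) * ((M : ℝ) + 1) ^ 2) atTop (𝓝 0) := by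
    intro x hx
    have := (Complex.continuous_re.tendsto _).comp (hD x hx)
    simp only [Complex.zero_re] at this
    refine this.congr (fun M => ?_)
    have e : (((M : ℂ) + 1) ^ 2) = (((((M : ℝ) + 1) ^ 2 : ℝ)) : ℂ) := by push_cast; ring
    simp only [Function.comp]
    rw [e, Complex.re_mul_ofReal]
    simp
  have him : ∀ x ∈ Set.Ioo a b, Tendsto (fun M : ℕ =>
      ((fun y => (G y).im) (x + 1 / ((M : ℝ) + 1)) + (fun y => (G y).im) (x - 1 / ((M : ℝ) + 1))
        - 2 * (fun y => (G y).im) x) * ((M : ℝ) + 1) ^ 2) atTop (𝓝 0) := by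
    intro x hx
    have := (Complex.continuous_im.tendsto _).comp (hD x hx)
    simp only [Complex.zero_im] at this
    refine this.congr (fun M => ?_)
    have e : (((M : ℂ) + 1) ^ 2) = (((((M : ℝ) + 1) ^ 2 : ℝ)) : ℂ) := by push_cast; ring
    simp only [Function.comp]
    rw [e, Complex.im_mul_ofReal]
    simp
  obtain ⟨α1, β1, h1⟩ := schwarz_affine _ a b hab (Complex.continuous_re.comp_continuousOn hG) hre
  obtain ⟨α2, β2, h2⟩ := schwarz_affine _ a b hab (Complex.continuous_im.comp_continuousOn hG) him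
  refine ⟨⟨α1, α2⟩, ⟨β1, β2⟩, fun x hx => ?_⟩
  apply Complex.ext
  · have := h1 x hx
    simp only [Function.comp] at this
    rw [this]; simp
  · have := h2 x hx
    simp only [Function.comp] at this
    rw [this]; simp

end Pool.Agent.MP_535d13_an
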