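import Mathlib
import Pool.Agent.Lib.MP_535d13_an.Schwarz
import Pool.Agent.Lib.MP_535d13_an.Regular

set_option autoImplicit false
open Filter Topology

namespace Pool.Agent.MP_535d13_an

/-- the exponential `e(nx)` -/
noncomputable def ex (n : ℤ) (x : ℝ) : ℂ :=
  Complex.exp (2 * (Real.pi : ℂ) * Complex.I * (n : ℂ) * (x : ℂ))

lemma norm_ex (n : ℤ) (x : ℝ) : ‖ex n x‖ = 1 := by
  have : 2 * (Real.pi : ℂ) * Complex.I * (n : ℂ) * (x : ℂ)
      = ((2 * Real.pi * n * x : ℝ) : ℂ) * Complex.I := by push_cast; ring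
  rw [ex, this, Complex.norm_exp_ofReal_mul_I]

lemma ex_add (n : ℤ) (x y : ℝ) : ex n (x + y) = ex n x * ex n y := by
  rw [ex, ex, ex, ← Complex.exp_add]
  congr 1
  push_cast
  ring

lemma ex_mul (n m : ℤ) (x : ℝ) : ex n x * ex m x = ex (n + m) x := by
  rw [ex, ex, ex, ← Complex.exp_add]
  congr 1
  push_cast
  ring

lemma ex_zero (x : ℝ) : ex 0 x = 1 := by simp [ex]

lemma ex_neg_right (n : ℤ) (x : ℝ) : ex n (-x) = ex (-n) x := by
  rw [ex, ex]
  congr 1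
  push_cast
  ring

lemma ex_add_neg (n : ℤ) (h : ℝ) : ex n h + ex n (-h) = 2 * (Real.cos (2 * Real.pi * n * h) : ℂ) := by
  rw [ex, ex, Complex.ofReal_cos, Complex.cos]
  have e1 : 2 * (Real.pi : ℂ) * Complex.I * (n : ℂ) * (h : ℂ)
      = ((2 * Real.pi * n * h : ℝ) : ℂ) * Complex.I := by push_cast; ring
  have e2 : 2 * (Real.pi : ℂ) * Complex.I * (n : ℂ) * ((-h : ℝ) : ℂ)
      = -((2 * Real.pi * n * h : ℝ) : ℂ) * Complex.I := by push_cast; ring
  rw [e1, e2]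
  ring

lemma continuous_ex (n : ℤ) : Continuous (ex n) := by
  unfold ex
  fun_prop

/-- the terms of the symmetric series -/
noncomputable def An (c : ℤ → ℂ) (n : ℕ) (x : ℝ) : ℂ :=
  if n = 0 then c 0 else c n * ex n x + c (-n) * ex (-n) x

lemma An_zero (c : ℤ → ℂ) (x : ℝ) : An c 0 x = c 0 := by simp [An]

lemma An_succ (c : ℤ → ℂ) (n : ℕ) (x : ℝ) :
    An c (n + 1) x = c ((n : ℤ) + 1) * ex ((n : ℤ) + 1) x
      + c (-((n : ℤ) + 1)) * ex (-((n : ℤ) + 1)) x := by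
  rw [An, if_neg (Nat.succ_ne_zero n)]
  push_cast
  ring_nf

lemma sum_Icc_eq (c : ℤ → ℂ) (x : ℝ) (N : ℕ) :
    ∑ n ∈ Finset.Icc (-(N : ℤ)) (N : ℤ), c n * ex n x
      = ∑ n ∈ Finset.range (N + 1), An c n x := by
  induction N with
  | zero => simp [An, ex_zero]
  | succ N ih =>
    rw [Finset.sum_range_succ, ← ih]
    have h1 : Finset.Icc (-((N + 1 : ℕ) : ℤ)) ((N + 1 : ℕ) : ℤ)
        = insert ((N : ℤ) + 1) (insert (-((N : ℤ) + 1)) (Finset.Icc (-(N : ℤ)) (N : ℤ))) := by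
      ext k
      simp only [Finset.mem_Icc, Finset.mem_insert, Nat.cast_add, Nat.cast_one]
      omega
    rw [h1, Finset.sum_insert, Finset.sum_insert, An_succ]
    · ring
    · simp
    · simp only [Finset.mem_insert, Finset.mem_Icc, not_or]
      constructor <;> omega

lemma An_second (c : ℤ → ℂ) (n : ℕ) (x h : ℝ) :
    An c (n + 1) (x + h) + An c (n + 1) (x - h)
      = 2 * (Real.cos (2 * Real.pi * ((n : ℝ) + 1) * h) : ℂ) * An c (n + 1) x := by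
  rw [An_succ, An_succ, An_succ, sub_eq_add_neg, ex_add, ex_add, ex_add, ex_add]
  have e1 := ex_add_neg ((n : ℤ) + 1) h
  have e2 := ex_add_neg (-((n : ℤ) + 1)) h
  have e3 : Real.cos (2 * Real.pi * ((-((n : ℤ) + 1) : ℤ) : ℝ) * h)
      = Real.cos (2 * Real.pi * ((((n : ℤ) + 1) : ℤ) : ℝ) * h) := by
    rw [← Real.cos_neg]
    congr 1
    push_cast
    ring
  rw [e3] at e2
  have e4 : ((((n : ℤ) + 1 : ℤ)) : ℝ) = (n : ℝ) + 1 := by push_cast; ring
  rw [e4] at e1 e2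
  linear_combination c ((n : ℤ) + 1) * ex ((n : ℤ) + 1) x * e1
    + c (-((n : ℤ) + 1)) * ex (-((n : ℤ) + 1)) x * e2

/-- Riemann's periodic function -/
noncomputable def PP (c : ℤ → ℂ) (x : ℝ) : ℂ :=
  ∑' n : ℕ, An c (n + 1) x * ((-(1 / (4 * Real.pi ^ 2 * ((n : ℝ) + 1) ^ 2)) : ℝ) : ℂ)

/-- Riemann's function -/
noncomputable def FF (c : ℤ → ℂ) (x : ℝ) : ℂ := c 0 * (x : ℂ) ^ 2 / 2 + PP c x

lemma norm_An_le (c : ℤ → ℂ) (C : ℝ) (hC : ∀ n, ‖c n‖ ≤ C) (n : ℕ) (x : ℝ) :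
    ‖An c n x‖ ≤ 2 * C := by
  have hC0 : 0 ≤ C := (norm_nonneg _).trans (hC 0)
  unfold An
  split_ifs
  · have := hC 0; linarith
  · refine (norm_add_le _ _).trans ?_
    rw [norm_mul, norm_mul, norm_ex, norm_ex, mul_one, mul_one]
    have := hC n
    have := hC (-n)
    linarith

lemma summable_inv_sq : Summable (fun n : ℕ => 1 / ((n : ℝ) + 1) ^ 2) := by
  have h := (summable_nat_add_iff 1 (f := fun n : ℕ => 1 / (n : ℝ) ^ 2)).mpr
    (Real.summable_one_div_nat_pow.mpr (by norm_num))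
  refine h.congr (fun n => ?_)
  push_cast
  ring

lemma PP_bound (c : ℤ → ℂ) (C : ℝ) (hC : ∀ n, ‖c n‖ ≤ C) (n : ℕ) (x : ℝ) :
    ‖An c (n + 1) x * ((-(1 / (4 * Real.pi ^ 2 * ((n : ℝ) + 1) ^ 2)) : ℝ) : ℂ)‖
      ≤ (2 * C) * (1 / (4 * Real.pi ^ 2)) * (1 / ((n : ℝ) + 1) ^ 2) := by
  rw [norm_mul, Complex.norm_real, norm_neg, Real.norm_eq_abs,
    abs_of_nonneg (by positivity : 0 ≤ 1 / (4 * Real.pi ^ 2 * ((n : ℝ) + 1) ^ 2))]
  have h1 := norm_An_le c C hC (n + 1) x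
  have e : 1 / (4 * Real.pi ^ 2 * ((n : ℝ) + 1) ^ 2)
      = (1 / (4 * Real.pi ^ 2)) * (1 / ((n : ℝ) + 1) ^ 2) := by
    have : Real.pi ≠ 0 := Real.pi_ne_zero
    field_simp
  rw [e, mul_assoc]
  exact mul_le_mul_of_nonneg_right h1 (by positivity)

lemma continuous_An (c : ℤ → ℂ) (n : ℕ) : Continuous (An c n) := by
  unfold An
  split_ifs
  · exact continuous_const
  · exact (continuous_const.mul (continuous_ex _)).add (continuous_const.mul (continuous_ex _))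

lemma PP_continuous (c : ℤ → ℂ) (C : ℝ) (hC : ∀ n, ‖c n‖ ≤ C) : Continuous (PP c) := by
  unfold PP
  apply continuous_tsum (u := fun n : ℕ => (2 * C) * (1 / (4 * Real.pi ^ 2)) * (1 / ((n : ℝ) + 1) ^ 2))
  · intro n
    exact (continuous_An c (n + 1)).mul continuous_const
  · exact summable_inv_sq.mul_left _
  · intro n x
    exact PP_bound c C hC n x

lemma PP_summable (c : ℤ → ℂ) (C : ℝ) (hC : ∀ n, ‖c n‖ ≤ C) (x : ℝ) :
    Summable (fun n : ℕ => An c (n + 1) x *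
      ((-(1 / (4 * Real.pi ^ 2 * ((n : ℝ) + 1) ^ 2)) : ℝ) : ℂ)) :=
  Summable.of_norm_bounded (summable_inv_sq.mul_left _) (fun n => PP_bound c C hC n x)

lemma summable_An_vw (c : ℤ → ℂ) (C : ℝ) (hC : ∀ n, ‖c n‖ ≤ C) (x : ℝ) (M : ℕ) :
    Summable (fun n : ℕ => An c n x * (vw M n : ℂ)) := by
  rw [← summable_nat_add_iff 1]
  have hC0 : 0 ≤ C := (norm_nonneg _).trans (hC 0)
  refine Summable.of_norm_bounded
    (summable_inv_sq.mul_left ((2 * C) * (((M : ℝ) + 1) ^ 2 / Real.pi ^ 2))) (fun n => ?_)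
  rw [norm_mul, Complex.norm_real, Real.norm_eq_abs, abs_of_nonneg (vw_nonneg M (n + 1))]
  have h1 := norm_An_le c C hC (n + 1) x
  have h2 := vw_le M n
  have h3 := vw_nonneg M (n + 1)
  calc ‖An c (n + 1) x‖ * vw M (n + 1)
      ≤ (2 * C) * (((M : ℝ) + 1) ^ 2 / (Real.pi ^ 2 * ((n : ℝ) + 1) ^ 2)) :=
        mul_le_mul h1 h2 h3 (by positivity)
    _ = 2 * C * (((M : ℝ) + 1) ^ 2 / Real.pi ^ 2) * (1 / ((n : ℝ) + 1) ^ 2) := by
        have : Real.pi ≠ 0 := Real.pi_ne_zero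
        field_simp

lemma FF_second (c : ℤ → ℂ) (C : ℝ) (hC : ∀ n, ‖c n‖ ≤ C) (x : ℝ) (M : ℕ) :
    (FF c (x + 1 / ((M : ℝ) + 1)) + FF c (x - 1 / ((M : ℝ) + 1)) - 2 * FF c x) * ((M : ℂ) + 1) ^ 2
      = ∑' n : ℕ, An c n x * (vw M n : ℂ) := by
  set h : ℝ := 1 / ((M : ℝ) + 1) with hh
  have hK : (M : ℝ) + 1 ≠ 0 := by positivity
  have hKc : (M : ℂ) + 1 ≠ 0 := by exact_mod_cast hK
  have hhK : (h : ℂ) * ((M : ℂ) + 1) = 1 := by
    rw [hh]; push_cast; field_simp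
  rw [(summable_An_vw c C hC x M).tsum_eq_zero_add, An_zero, vw_zero]
  have hP : (PP c (x + h) + PP c (x - h) - 2 * PP c x) * ((M : ℂ) + 1) ^ 2
      = ∑' n : ℕ, An c (n + 1) x * (vw M (n + 1) : ℂ) := by
    unfold PP
    rw [← (PP_summable c C hC (x + h)).tsum_add (PP_summable c C hC (x - h)), ← tsum_mul_left,
      ← ((PP_summable c C hC (x + h)).add (PP_summable c C hC (x - h))).tsum_sub
        ((PP_summable c C hC x).mul_left 2), ← tsum_mul_right]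
    congr 1
    ext n
    have e1 := An_second c n x h
    have e2 : (2 * (Real.cos (2 * Real.pi * ((n : ℝ) + 1) * h)) - 2) *
        (-(1 / (4 * Real.pi ^ 2 * ((n : ℝ) + 1) ^ 2))) * ((M : ℝ) + 1) ^ 2 = vw M (n + 1) := by
      unfold vw
      have hpos : 0 < Real.pi * ((n + 1 : ℕ) : ℝ) / ((M : ℝ) + 1) := by positivity
      rw [Real.sinc_of_ne_zero hpos.ne']
      have e3 : 2 * Real.pi * ((n : ℝ) + 1) * h
          = 2 * (Real.pi * ((n + 1 : ℕ) : ℝ) / ((M : ℝ) + 1)) := by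
        rw [hh]; push_cast; ring
      rw [e3, Real.cos_two_mul, Real.cos_sq']
      have : Real.pi ≠ 0 := Real.pi_ne_zero
      field_simp
      push_cast
      ring
    rw [← e2]
    push_cast
    push_cast at e1
    linear_combination (-(1 / (4 * (Real.pi : ℂ) ^ 2 * ((n : ℂ) + 1) ^ 2)) * ((M : ℂ) + 1) ^ 2) * e1
  rw [← hP]
  unfold FF
  push_cast
  linear_combination (c 0 * ((h : ℂ) * ((M : ℂ) + 1) + 1)) * hhK

/-- Riemann's first theorem together with Schwarz's theorem. -/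
theorem FF_affine (c : ℤ → ℂ) (C : ℝ) (hC : ∀ n, ‖c n‖ ≤ C) (a b : ℝ) (hab : a < b)
    (hS : ∀ x ∈ Set.Ioo a b, Tendsto (fun N : ℕ => ∑ n ∈ Finset.range (N + 1), An c n x)
      atTop (𝓝 0)) :
    ∃ α β : ℂ, ∀ x ∈ Set.Icc a b, FF c x = α + β * x := by
  apply schwarz_affine_complex _ a b hab
  · apply Continuous.continuousOn
    unfold FF
    have := PP_continuous c C hC
    fun_prop
  · intro x hx
    have h1 := regularity (fun n => An c n x) vw 2 (hS x hx) (fun M => summable_An_vw c C hC x M)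
      vw_tendsto vw_var vw_diff
    refine h1.congr (fun M => ?_)
    rw [← FF_second c C hC x M]

end Pool.Agent.MP_535d13_an
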