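import Mathlib
import Pool.Agent.Lib.MP_535d13_an.Riemann

set_option autoImplicit false
open Filter Topology MeasureTheory

namespace Pool.Agent.MP_535d13_an

lemma parts_interval (c : ℤ → ℂ) (C : ℝ) (hC : ∀ n, ‖c n‖ ≤ C) (a b : ℝ) (hab : a < b)
    (hS : ∀ x ∈ Set.Ioo a b, Tendsto (fun N : ℕ => ∑ n ∈ Finset.range (N + 1), An c n x)
      atTop (𝓝 0))
    (f f1 f2 : ℝ → ℂ) (h1 : ∀ x, HasDerivAt f (f1 x) x) (h2 : ∀ x, HasDerivAt f1 (f2 x) x)
    (h3 : Continuous f2) (fa : f a = 0) (fb : f b = 0) (f1a : f1 a = 0) (f1b : f1 b = 0) :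
    ∫ x in a..b, PP c x * f2 x = - c 0 * ∫ x in a..b, f x := by
  obtain ⟨α, β, haff⟩ := FF_affine c C hC a b hab hS
  have hfc : Continuous f := continuous_iff_continuousAt.mpr (fun x => (h1 x).continuousAt)
  have hf1c : Continuous f1 := continuous_iff_continuousAt.mpr (fun x => (h2 x).continuousAt)
  set p : ℝ → ℂ := fun x => α + β * x - c 0 * (x : ℂ) ^ 2 / 2 with hp
  set p1 : ℝ → ℂ := fun x => β - c 0 * x with hp1
  have hd : ∀ x : ℝ, HasDerivAt p (p1 x) x := by
    intro x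
    have hx : HasDerivAt (fun y : ℝ => (y : ℂ)) 1 x := Complex.ofRealCLM.hasDerivAt
    have e1 : HasDerivAt (fun y : ℝ => β * (y : ℂ)) (β * 1) x := hx.const_mul β
    have e2 : HasDerivAt (fun y : ℝ => (y : ℂ) ^ 2) ((2 : ℕ) * (x : ℂ) ^ 1 * 1) x := hx.pow 2
    have e3 : HasDerivAt p (β * 1 - c 0 * ((2 : ℕ) * (x : ℂ) ^ 1 * 1) / 2) x :=
      ((e1.const_add α).sub ((e2.const_mul (c 0)).div_const 2))
    refine e3.congr_deriv ?_
    simp only [hp1]
    push_cast
    ring
  have hd1 : ∀ x : ℝ, HasDerivAt p1 (-c 0) x := by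
    intro x
    have hx : HasDerivAt (fun y : ℝ => (y : ℂ)) 1 x := Complex.ofRealCLM.hasDerivAt
    have e3 : HasDerivAt p1 (-(c 0 * 1)) x := ((hx.const_mul (c 0)).const_sub β)
    refine e3.congr_deriv ?_
    ring
  have hpc : Continuous p := continuous_iff_continuousAt.mpr (fun x => (hd x).continuousAt)
  have hp1c : Continuous p1 := continuous_iff_continuousAt.mpr (fun x => (hd1 x).continuousAt)
  have e0 : ∫ x in a..b, PP c x * f2 x = ∫ x in a..b, p x * f2 x := by
    apply intervalIntegral.integral_congr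
    intro x hx
    rw [Set.uIcc_of_le hab.le] at hx
    have := haff x hx
    simp only [hp]
    have e : PP c x = α + β * x - c 0 * (x : ℂ) ^ 2 / 2 := by
      rw [← this]; unfold FF; ring
    rw [e]
  have e1 := intervalIntegral.integral_mul_deriv_eq_deriv_mul (a := a) (b := b)
    (u := p) (v := f1) (u' := p1) (v' := f2) (fun x _ => hd x) (fun x _ => h2 x)
    (hp1c.intervalIntegrable _ _) (h3.intervalIntegrable _ _)
  have e2 := intervalIntegral.integral_mul_deriv_eq_deriv_mul (a := a) (b := b)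
    (u := p1) (v := f) (u' := fun _ => -c 0) (v' := f1) (fun x _ => hd1 x) (fun x _ => h1 x)
    (continuous_const.intervalIntegrable _ _) (hf1c.intervalIntegrable _ _)
  rw [e0, e1, e2, fa, fb, f1a, f1b, intervalIntegral.integral_const_mul]
  ring

lemma ex_hasDerivAt (n : ℤ) (x : ℝ) :
    HasDerivAt (ex n) (2 * (Real.pi : ℂ) * Complex.I * n * ex n x) x := by
  unfold ex
  have hx : HasDerivAt (fun y : ℝ => (y : ℂ)) 1 x := Complex.ofRealCLM.hasDerivAt
  have e1 := (hx.const_mul (2 * (Real.pi : ℂ) * Complex.I * (n : ℂ))).cexp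
  convert e1 using 1
  ring

lemma ex_one (n : ℤ) : ex n 1 = 1 := by
  unfold ex
  rw [Complex.exp_eq_one_iff]
  exact ⟨n, by push_cast; ring⟩

lemma ex_at_zero (n : ℤ) : ex n 0 = 1 := by simp [ex]

/-- integration by parts for the exponentials -/
lemma parts_ex (n : ℤ) (f f1 f2 : ℝ → ℂ) (h1 : ∀ x, HasDerivAt f (f1 x) x)
    (h2 : ∀ x, HasDerivAt f1 (f2 x) x) (h3 : Continuous f2) (fp : f 0 = f 1) (fp1 : f1 0 = f1 1) :
    ∫ x in (0 : ℝ)..1, ex n x * f2 x
      = -(4 * (Real.pi : ℂ) ^ 2 * (n : ℂ) ^ 2) * ∫ x in (0 : ℝ)..1, ex n x * f x := by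
  have hf1c : Continuous f1 := continuous_iff_continuousAt.mpr (fun x => (h2 x).continuousAt)
  set k : ℂ := 2 * (Real.pi : ℂ) * Complex.I * n with hk
  have hc1 : Continuous (fun x => k * ex n x) := continuous_const.mul (continuous_ex n)
  have e1 := intervalIntegral.integral_mul_deriv_eq_deriv_mul (a := 0) (b := 1)
    (u := ex n) (v := f1) (u' := fun x => k * ex n x) (v' := f2)
    (fun x _ => ex_hasDerivAt n x) (fun x _ => h2 x)
    (hc1.intervalIntegrable _ _) (h3.intervalIntegrable _ _)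
  have e2 := intervalIntegral.integral_mul_deriv_eq_deriv_mul (a := 0) (b := 1)
    (u := ex n) (v := f) (u' := fun x => k * ex n x) (v' := f1)
    (fun x _ => ex_hasDerivAt n x) (fun x _ => h1 x)
    (hc1.intervalIntegrable _ _) (hf1c.intervalIntegrable _ _)
  have e3 : ∫ x in (0 : ℝ)..1, (k * ex n x) * f1 x = k * ∫ x in (0 : ℝ)..1, ex n x * f1 x := by
    rw [← intervalIntegral.integral_const_mul]
    congr 1
    ext x
    ring
  have e4 : ∫ x in (0 : ℝ)..1, (k * ex n x) * f x = k * ∫ x in (0 : ℝ)..1, ex n x * f x := by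
    rw [← intervalIntegral.integral_const_mul]
    congr 1
    ext x
    ring
  rw [e1, e3, e2, e4, ex_one, ex_at_zero, fp, fp1]
  have : k ^ 2 = -(4 * (Real.pi : ℂ) ^ 2 * (n : ℂ) ^ 2) := by
    rw [hk]
    ring_nf
    rw [Complex.I_sq]
    ring
  rw [← this]
  ring

lemma parts_An (c : ℤ → ℂ) (n : ℕ) (f f1 f2 : ℝ → ℂ) (h1 : ∀ x, HasDerivAt f (f1 x) x)
    (h2 : ∀ x, HasDerivAt f1 (f2 x) x) (h3 : Continuous f2) (fp : f 0 = f 1) (fp1 : f1 0 = f1 1) :
    ∫ x in (0 : ℝ)..1, An c (n + 1) x * f2 x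
      = -(4 * (Real.pi : ℂ) ^ 2 * ((n : ℂ) + 1) ^ 2) * ∫ x in (0 : ℝ)..1, An c (n + 1) x * f x := by
  have hfc : Continuous f := continuous_iff_continuousAt.mpr (fun x => (h1 x).continuousAt)
  have key : ∀ g : ℝ → ℂ, Continuous g → ∫ x in (0 : ℝ)..1, An c (n + 1) x * g x
      = c ((n : ℤ) + 1) * (∫ x in (0 : ℝ)..1, ex ((n : ℤ) + 1) x * g x)
        + c (-((n : ℤ) + 1)) * (∫ x in (0 : ℝ)..1, ex (-((n : ℤ) + 1)) x * g x) := by
    intro g hg
    rw [← intervalIntegral.integral_const_mul, ← intervalIntegral.integral_const_mul,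
      ← intervalIntegral.integral_add]
    · congr 1
      ext x
      rw [An_succ]
      ring
    · exact (continuous_const.mul ((continuous_ex _).mul hg)).intervalIntegrable _ _
    · exact (continuous_const.mul ((continuous_ex _).mul hg)).intervalIntegrable _ _
  rw [key f2 h3, key f hfc, parts_ex _ f f1 f2 h1 h2 h3 fp fp1, parts_ex _ f f1 f2 h1 h2 h3 fp fp1]
  push_cast
  ring

lemma PP_integral (c : ℤ → ℂ) (C : ℝ) (hC : ∀ n, ‖c n‖ ≤ C)
    (f f1 f2 : ℝ → ℂ) (h1 : ∀ x, HasDerivAt f (f1 x) x)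
    (h2 : ∀ x, HasDerivAt f1 (f2 x) x) (h3 : Continuous f2) (fp : f 0 = f 1) (fp1 : f1 0 = f1 1) :
    HasSum (fun n : ℕ => ∫ x in (0 : ℝ)..1, An c (n + 1) x * f x)
      (∫ x in (0 : ℝ)..1, PP c x * f2 x) := by
  have hC0 : 0 ≤ C := (norm_nonneg _).trans (hC 0)
  obtain ⟨B, hB⟩ : ∃ B, ∀ x ∈ Set.Icc (0 : ℝ) 1, ‖f2 x‖ ≤ B :=
    isCompact_Icc.exists_bound_of_continuousOn h3.continuousOn
  have hB0 : 0 ≤ B := (norm_nonneg _).trans (hB 0 ⟨le_rfl, zero_le_one⟩)
  have key := intervalIntegral.hasSum_integral_of_dominated_convergence (a := 0) (b := 1)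
    (μ := volume)
    (F := fun (n : ℕ) x => (An c (n + 1) x *
      ((-(1 / (4 * Real.pi ^ 2 * ((n : ℝ) + 1) ^ 2)) : ℝ) : ℂ)) * f2 x)
    (f := fun x => PP c x * f2 x)
    (fun n _ => ((2 * C) * (1 / (4 * Real.pi ^ 2)) * (1 / ((n : ℝ) + 1) ^ 2)) * B)
    (fun n => (((continuous_An c (n + 1)).mul continuous_const).mul h3).aestronglyMeasurable)
    (fun n => Eventually.of_forall (fun x hx => by
      rw [norm_mul]
      rw [Set.uIoc_of_le zero_le_one] at hx
      exact mul_le_mul (PP_bound c C hC n x) (hB x ⟨hx.1.le, hx.2⟩) (norm_nonneg _)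
        (by positivity)))
    (Eventually.of_forall (fun x _ => (summable_inv_sq.mul_left _).mul_right _))
    (by simp)
    (Eventually.of_forall (fun x _ => (PP_summable c C hC x).hasSum.mul_right (f2 x)))
  suffices hfun : (fun n : ℕ => ∫ x in (0 : ℝ)..1, An c (n + 1) x * f x) =
      (fun n : ℕ => ∫ x in (0 : ℝ)..1, (An c (n + 1) x *
      ((-(1 / (4 * Real.pi ^ 2 * ((n : ℝ) + 1) ^ 2)) : ℝ) : ℂ)) * f2 x) by
    rw [hfun]; exact key
  funext n
  have e1 : ∀ x, An c (n + 1) x * ((-(1 / (4 * Real.pi ^ 2 * ((n : ℝ) + 1) ^ 2)) : ℝ) : ℂ) * f2 x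
      = ((-(1 / (4 * Real.pi ^ 2 * ((n : ℝ) + 1) ^ 2)) : ℝ) : ℂ) * (An c (n + 1) x * f2 x) := by
    intro x; ring
  simp only [e1]
  rw [intervalIntegral.integral_const_mul, parts_An c n f f1 f2 h1 h2 h3 fp fp1, ← mul_assoc]
  have e2 : ((-(1 / (4 * Real.pi ^ 2 * ((n : ℝ) + 1) ^ 2)) : ℝ) : ℂ) *
      -(4 * (Real.pi : ℂ) ^ 2 * ((n : ℂ) + 1) ^ 2) = 1 := by
    have hpi : (Real.pi : ℂ) ≠ 0 := by exact_mod_cast Real.pi_ne_zero
    have hn : ((n : ℂ) + 1) ≠ 0 := by exact_mod_cast Nat.succ_ne_zero n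
    push_cast
    field_simp
  rw [e2, one_mul]

/-- The Riemann function integrates against test functions supported where the series converges. -/
lemma PP_weak (c : ℤ → ℂ) (C : ℝ) (hC : ∀ n, ‖c n‖ ≤ C) (N : ℕ) (hN : 0 < N)
    (hS : ∀ x : ℝ, Real.sin (2 * Real.pi * N * x) < 0 →
      Tendsto (fun K : ℕ => ∑ n ∈ Finset.range (K + 1), An c n x) atTop (𝓝 0))
    (f f1 f2 : ℝ → ℂ) (h1 : ∀ x, HasDerivAt f (f1 x) x)
    (h2 : ∀ x, HasDerivAt f1 (f2 x) x) (h3 : Continuous f2)
    (hf : ∀ x : ℝ, 0 ≤ Real.sin (2 * Real.pi * N * x) → f x = 0 ∧ f1 x = 0 ∧ f2 x = 0) :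
    ∫ x in (0 : ℝ)..1, PP c x * f2 x = - c 0 * ∫ x in (0 : ℝ)..1, f x := by
  have hfc : Continuous f := continuous_iff_continuousAt.mpr (fun x => (h1 x).continuousAt)
  have hPc := PP_continuous c C hC
  have hNr : (0 : ℝ) < N := by exact_mod_cast hN
  -- one period
  have piece : ∀ a : ℕ, ∫ x in ((a : ℝ) / N)..(((a + 1 : ℕ) : ℝ) / N), PP c x * f2 x
      = - c 0 * ∫ x in ((a : ℝ) / N)..(((a + 1 : ℕ) : ℝ) / N), f x := by
    intro a
    set A := (a : ℝ) / N with hA
    set B := ((a + 1 : ℕ) : ℝ) / N with hB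
    set m := ((a : ℝ) + 1 / 2) / N with hm
    have hAm : A < m := by rw [hA, hm]; gcongr; linarith
    have hmB : m < B := by rw [hB, hm]; gcongr; push_cast; linarith
    -- first half: everything vanishes
    have hfirst : ∀ x ∈ Set.Icc A m, 0 ≤ Real.sin (2 * Real.pi * N * x) := by
      intro x hx
      have e1 : 2 * Real.pi * N * x = 2 * Real.pi * (N * x - a) + (a : ℝ) * (2 * Real.pi) := by ring
      rw [e1, Real.sin_add_nat_mul_two_pi]
      have a1 : (a : ℝ) ≤ N * x := by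
        have := hx.1
        rw [hA, div_le_iff₀ hNr] at this
        linarith
      have a2 : N * x ≤ (a : ℝ) + 1 / 2 := by
        have := hx.2
        rw [hm, le_div_iff₀ hNr] at this
        linarith
      apply Real.sin_nonneg_of_nonneg_of_le_pi
      · have : 0 ≤ N * x - a := by linarith
        have := Real.pi_pos
        positivity
      · have := Real.pi_pos
        nlinarith
    have hsecond : ∀ x ∈ Set.Ioo m B, Real.sin (2 * Real.pi * N * x) < 0 := by
      intro x hx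
      have e1 : 2 * Real.pi * N * x = -(2 * Real.pi * (a + 1 - N * x)) + ((a + 1 : ℕ) : ℝ) * (2 * Real.pi) := by
        push_cast; ring
      rw [e1, Real.sin_add_nat_mul_two_pi, Real.sin_neg, neg_lt_zero]
      have a1 : (a : ℝ) + 1 / 2 < N * x := by
        have := hx.1
        rw [hm, div_lt_iff₀ hNr] at this
        linarith
      have a2 : N * x < (a : ℝ) + 1 := by
        have := hx.2
        rw [hB, lt_div_iff₀ hNr] at this
        push_cast at this
        linarith
      apply Real.sin_pos_of_pos_of_lt_pi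
      · have : 0 < (a : ℝ) + 1 - N * x := by linarith
        have := Real.pi_pos
        positivity
      · have := Real.pi_pos
        nlinarith
    have hBsin : 0 ≤ Real.sin (2 * Real.pi * N * B) := by
      have e1 : 2 * Real.pi * N * B = ((a + 1 : ℕ) : ℝ) * (2 * Real.pi) := by
        rw [hB]; field_simp
      rw [e1]
      have := Real.sin_add_nat_mul_two_pi 0 (a + 1)
      rw [zero_add] at this
      rw [this, Real.sin_zero]
    have hmem_m : m ∈ Set.Icc A m := ⟨hAm.le, le_rfl⟩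
    have hzero1 : ∫ x in A..m, PP c x * f2 x = 0 := by
      rw [intervalIntegral.integral_congr (g := fun _ => (0 : ℂ))]
      · simp
      · intro x hx
        rw [Set.uIcc_of_le hAm.le] at hx
        simp [(hf x (hfirst x hx)).2.2]
    have hzero2 : ∫ x in A..m, f x = 0 := by
      rw [intervalIntegral.integral_congr (g := fun _ => (0 : ℂ))]
      · simp
      · intro x hx
        rw [Set.uIcc_of_le hAm.le] at hx
        simp [(hf x (hfirst x hx)).1]
    have hmain := parts_interval c C hC m B hmB (fun x hx => hS x (hsecond x hx)) f f1 f2 h1 h2 h3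
      (hf m (hfirst m hmem_m)).1 (hf B hBsin).1 (hf m (hfirst m hmem_m)).2.1 (hf B hBsin).2.1
    have j1 := intervalIntegral.integral_add_adjacent_intervals (a := A) (b := m) (c := B)
      (μ := volume) (f := fun x => PP c x * f2 x)
      ((hPc.mul h3).intervalIntegrable _ _) ((hPc.mul h3).intervalIntegrable _ _)
    have j2 := intervalIntegral.integral_add_adjacent_intervals (a := A) (b := m) (c := B)
      (μ := volume) (f := f) (hfc.intervalIntegrable _ _) (hfc.intervalIntegrable _ _)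
    rw [← j1, ← j2, hzero1, hzero2, hmain]
    ring
  have s1 := intervalIntegral.sum_integral_adjacent_intervals (μ := volume) (a := fun a : ℕ => (a : ℝ) / N)
    (f := fun x => PP c x * f2 x) (n := N) (fun k _ => (hPc.mul h3).intervalIntegrable _ _)
  have s2 := intervalIntegral.sum_integral_adjacent_intervals (μ := volume) (a := fun a : ℕ => (a : ℝ) / N)
    (f := f) (n := N) (fun k _ => hfc.intervalIntegrable _ _)
  simp only [Nat.cast_zero, zero_div, div_self hNr.ne'] at s1 s2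
  rw [← s1, ← s2, Finset.mul_sum]
  exact Finset.sum_congr rfl (fun a _ => piece a)

end Pool.Agent.MP_535d13_an
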