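import Mathlib
import Pool.Agent.Lib.MP_535d13_an.Weak

set_option autoImplicit false
open Filter Topology MeasureTheory

namespace Pool.Agent.MP_535d13_an

/-- A one-sided Cantor-Lebesgue lemma. -/
lemma cantor_lebesgue_pos (c : ℤ → ℂ) (a b : ℝ) (hab : a < b)
    (h : ∀ x ∈ Set.Ioo a b, Tendsto (fun n : ℕ => An c (n + 1) x) atTop (𝓝 0)) :
    Tendsto (fun n : ℕ => c ((n : ℤ) + 1)) atTop (𝓝 0) := by
  set x0 := (a + b) / 2 with hx0
  set H := (b - a) / 2 with hH
  have hHpos : 0 < H := by rw [hH]; linarith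
  -- the sine products tend to zero
  have h1 : ∀ t ∈ Set.Ioo 0 H, Tendsto (fun n : ℕ => ‖c ((n : ℤ) + 1)‖ *
      |Real.sin (2 * Real.pi * ((n : ℝ) + 1) * t)|) atTop (𝓝 0) := by
    intro t ht
    have m1 : x0 ∈ Set.Ioo a b := ⟨by rw [hx0]; linarith, by rw [hx0]; linarith⟩
    have m2 : x0 + t ∈ Set.Ioo a b := by
      refine ⟨?_, ?_⟩
      · have := ht.1; rw [hx0]; linarith
      · have := ht.2; rw [hH] at this; rw [hx0]; linarith
    have l1 := (h _ m2).norm
    have l2 := (h _ m1).norm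
    rw [norm_zero] at l1 l2
    have l3 := (l1.add l2).div_const 2
    rw [add_zero, zero_div] at l3
    refine squeeze_zero (fun n => by positivity) (fun n => ?_) l3
    have e1 : An c (n + 1) (x0 + t) - ex (-((n : ℤ) + 1)) t * An c (n + 1) x0
        = c ((n : ℤ) + 1) * ex ((n : ℤ) + 1) x0 * (ex ((n : ℤ) + 1) t - ex (-((n : ℤ) + 1)) t) := by
      rw [An_succ, An_succ, ex_add, ex_add]
      ring
    have e2 : ex ((n : ℤ) + 1) t - ex (-((n : ℤ) + 1)) t
        = 2 * Complex.I * (Real.sin (2 * Real.pi * ((n : ℝ) + 1) * t) : ℂ) := by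
      rw [ex, ex, Complex.ofReal_sin, Complex.sin]
      have e1 : 2 * (Real.pi : ℂ) * Complex.I * ((((n : ℤ) + 1 : ℤ)) : ℂ) * (t : ℂ)
          = ((2 * Real.pi * ((n : ℝ) + 1) * t : ℝ) : ℂ) * Complex.I := by push_cast; ring
      have e2 : 2 * (Real.pi : ℂ) * Complex.I * (((-((n : ℤ) + 1) : ℤ)) : ℂ) * (t : ℂ)
          = -((2 * Real.pi * ((n : ℝ) + 1) * t : ℝ) : ℂ) * Complex.I := by push_cast; ring
      rw [e1, e2]
      ring_nf
      rw [Complex.I_sq]
      ring
    have e3 : 2 * (‖c ((n : ℤ) + 1)‖ * |Real.sin (2 * Real.pi * ((n : ℝ) + 1) * t)|)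
        = ‖An c (n + 1) (x0 + t) - ex (-((n : ℤ) + 1)) t * An c (n + 1) x0‖ := by
      rw [e1, e2, norm_mul, norm_mul, norm_ex, norm_mul, norm_mul, Complex.norm_I,
        Complex.norm_real, Real.norm_eq_abs]
      simp
      ring
    have e4 := norm_sub_le (An c (n + 1) (x0 + t)) (ex (-((n : ℤ) + 1)) t * An c (n + 1) x0)
    rw [← e3, norm_mul, norm_ex, one_mul] at e4
    linarith
  set d : ℕ → ℝ := fun n => min 1 ‖c ((n : ℤ) + 1)‖ with hd
  have hd0 : ∀ n, 0 ≤ d n := fun n => le_min zero_le_one (norm_nonneg _)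
  have hd1 : ∀ n, d n ≤ 1 := fun n => min_le_left _ _
  have hd2 : ∀ n, d n ≤ ‖c ((n : ℤ) + 1)‖ := fun n => min_le_right _ _
  -- dominated convergence
  have h2 : Tendsto (fun n : ℕ => ∫ t in (0 : ℝ)..H,
      d n * Real.sin (2 * Real.pi * ((n : ℝ) + 1) * t) ^ 2) atTop (𝓝 (∫ t in (0 : ℝ)..H, (0 : ℝ))) := by
    apply intervalIntegral.tendsto_integral_filter_of_dominated_convergence (fun _ => (1 : ℝ))
    · apply Eventually.of_forall
      intro n
      apply Continuous.aestronglyMeasurable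
      fun_prop
    · apply Eventually.of_forall
      intro n
      apply Eventually.of_forall
      intro t _
      rw [Real.norm_eq_abs, abs_of_nonneg (mul_nonneg (hd0 n) (sq_nonneg _))]
      have := Real.sin_sq_le_one (2 * Real.pi * ((n : ℝ) + 1) * t)
      have := hd0 n
      have := hd1 n
      nlinarith [sq_nonneg (Real.sin (2 * Real.pi * ((n : ℝ) + 1) * t))]
    · exact intervalIntegrable_const
    · have hne : ∀ᵐ t : ℝ, t ≠ H := by
        simp [ae_iff, measure_singleton]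
      filter_upwards [hne] with t htH ht
      rw [Set.uIoc_of_le hHpos.le] at ht
      have ht' : t ∈ Set.Ioo 0 H := ⟨ht.1, lt_of_le_of_ne ht.2 htH⟩
      refine squeeze_zero (fun n => mul_nonneg (hd0 n) (sq_nonneg _)) (fun n => ?_) (h1 t ht')
      have a1 := Real.abs_sin_le_one (2 * Real.pi * ((n : ℝ) + 1) * t)
      have a2 := abs_nonneg (Real.sin (2 * Real.pi * ((n : ℝ) + 1) * t))
      rw [← sq_abs]
      have a3 := hd0 n
      have a4 := hd2 n
      have a5 : |Real.sin (2 * Real.pi * ((n : ℝ) + 1) * t)| ^ 2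
          ≤ |Real.sin (2 * Real.pi * ((n : ℝ) + 1) * t)| := by nlinarith
      exact mul_le_mul a4 a5 (sq_nonneg _) (norm_nonneg _)
  rw [intervalIntegral.integral_zero] at h2
  -- evaluate the integral
  have h3 : ∀ n : ℕ, d n * (H / 2 - 1 / (4 * Real.pi * ((n : ℝ) + 1))) ≤ ∫ t in (0 : ℝ)..H,
      d n * Real.sin (2 * Real.pi * ((n : ℝ) + 1) * t) ^ 2 := by
    intro n
    rw [intervalIntegral.integral_const_mul]
    apply mul_le_mul_of_nonneg_left _ (hd0 n)
    set k := 2 * Real.pi * ((n : ℝ) + 1) with hk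
    have hkpos : 0 < k := by rw [hk]; have := Real.pi_pos; positivity
    rw [intervalIntegral.integral_comp_mul_left (fun t => Real.sin t ^ 2) hkpos.ne',
      integral_sin_sq, mul_zero, Real.sin_zero]
    have hsc : Real.sin (k * H) * Real.cos (k * H) ≤ 1 := by
      nlinarith [Real.sin_sq_add_cos_sq (k * H), sq_nonneg (Real.sin (k * H) - Real.cos (k * H))]
    have e : 1 / (4 * Real.pi * ((n : ℝ) + 1)) = 1 / (2 * k) := by rw [hk]; ring_nf
    rw [e, smul_eq_mul]
    have e2 : H / 2 - 1 / (2 * k) = k⁻¹ * ((k * H - 1) / 2) := by field_simp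
    rw [e2]
    apply mul_le_mul_of_nonneg_left _ (by positivity)
    linarith
  -- hence d n → 0
  have h4 : Tendsto d atTop (𝓝 0) := by
    have hlim : Tendsto (fun n : ℕ => (H / 2 - 1 / (4 * Real.pi * ((n : ℝ) + 1)))) atTop
        (𝓝 (H / 2 - 0)) := by
      apply Tendsto.const_sub
      have := (tendsto_one_div_add_atTop_nhds_zero_nat (𝕜 := ℝ)).const_mul (1 / (4 * Real.pi))
      rw [mul_zero] at this
      refine this.congr (fun n => ?_)
      have := Real.pi_pos
      field_simp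
    rw [sub_zero] at hlim
    have hev : ∀ᶠ n : ℕ in atTop, H / 4 ≤ H / 2 - 1 / (4 * Real.pi * ((n : ℝ) + 1)) :=
      (hlim.eventually_const_lt (by linarith : H / 4 < H / 2)).mono (fun n hn => hn.le)
    have h5 := h2.div_const (H / 4)
    rw [zero_div] at h5
    refine squeeze_zero' (Eventually.of_forall hd0) ?_ h5
    filter_upwards [hev] with n hn
    rw [le_div_iff₀ (by linarith)]
    exact (mul_le_mul_of_nonneg_left hn (hd0 n)).trans (h3 n)
  -- hence c n → 0
  rw [tendsto_zero_iff_norm_tendsto_zero]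
  have hev : ∀ᶠ n : ℕ in atTop, d n < 1 := h4.eventually_lt_const zero_lt_one
  refine h4.congr' ?_
  filter_upwards [hev] with n hn
  simp only [hd] at hn ⊢
  rcases min_choice 1 ‖c ((n : ℤ) + 1)‖ with h6 | h6
  · rw [h6] at hn
    exact absurd hn (lt_irrefl _)
  · exact h6

lemma ex_neg_neg (n : ℤ) (x : ℝ) : ex (-n) (-x) = ex n x := by
  rw [← ex_neg_right, neg_neg]

lemma cantor_lebesgue_neg (c : ℤ → ℂ) (a b : ℝ) (hab : a < b)
    (h : ∀ x ∈ Set.Ioo a b, Tendsto (fun n : ℕ => An c (n + 1) x) atTop (𝓝 0)) :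
    Tendsto (fun n : ℕ => c (-((n : ℤ) + 1))) atTop (𝓝 0) := by
  apply cantor_lebesgue_pos (fun n => c (-n)) (-b) (-a) (by linarith)
  intro x hx
  have := h (-x) ⟨by linarith [hx.2], by linarith [hx.1]⟩
  refine this.congr (fun n => ?_)
  rw [An_succ, An_succ, ex_neg_right, ex_neg_neg, neg_neg]
  ring

lemma coeff_small (c : ℤ → ℂ) (h1 : Tendsto (fun n : ℕ => c ((n : ℤ) + 1)) atTop (𝓝 0))
    (h2 : Tendsto (fun n : ℕ => c (-((n : ℤ) + 1))) atTop (𝓝 0)) :
    ∀ ε > 0, ∃ R : ℕ, ∀ l : ℤ, (R : ℤ) ≤ |l| → ‖c l‖ < ε := by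
  intro ε hε
  obtain ⟨R1, hR1⟩ := Metric.tendsto_atTop.mp h1 ε hε
  obtain ⟨R2, hR2⟩ := Metric.tendsto_atTop.mp h2 ε hε
  refine ⟨R1 + R2 + 1, fun l hl => ?_⟩
  rcases le_total 0 l with hl0 | hl0
  · rw [abs_of_nonneg hl0] at hl
    obtain ⟨n, rfl⟩ : ∃ n : ℕ, l = (n : ℤ) + 1 := ⟨(l - 1).toNat, by omega⟩
    have := hR1 n (by push_cast at hl; omega)
    simpa using this
  · rw [abs_of_nonpos hl0] at hl
    obtain ⟨n, rfl⟩ : ∃ n : ℕ, l = -((n : ℤ) + 1) := ⟨(-l - 1).toNat, by omega⟩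
    have := hR2 n (by push_cast at hl; omega)
    rw [dist_zero_right] at this
    exact this

lemma coeff_bdd (c : ℤ → ℂ) (h : ∀ ε > 0, ∃ R : ℕ, ∀ l : ℤ, (R : ℤ) ≤ |l| → ‖c l‖ < ε) :
    ∃ C, ∀ n, ‖c n‖ ≤ C := by
  obtain ⟨R, hR⟩ := h 1 one_pos
  refine ⟨1 + ∑ l ∈ Finset.Icc (-(R : ℤ)) R, ‖c l‖, fun n => ?_⟩
  have hs : 0 ≤ ∑ l ∈ Finset.Icc (-(R : ℤ)) R, ‖c l‖ := Finset.sum_nonneg (fun _ _ => norm_nonneg _)
  by_cases hn : (R : ℤ) ≤ |n|
  · have := hR n hn
    linarith
  · push Not at hn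
    have hmem : n ∈ Finset.Icc (-(R : ℤ)) R := by
      rw [Finset.mem_Icc]
      have := abs_lt.mp hn
      constructor <;> linarith
    have := Finset.single_le_sum (f := fun l => ‖c l‖) (fun _ _ => norm_nonneg _) hmem
    linarith

/-- the test function -/
noncomputable def psi (y : ℝ) : ℝ := expNegInvGlue (-Real.sin (2 * Real.pi * y) - 1 / 2)

lemma psi_contDiff : ContDiff ℝ 2 psi := by
  unfold psi
  have h : ContDiff ℝ 2 expNegInvGlue := expNegInvGlue.contDiff (n := 2)
  exact h.comp (by fun_prop)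

lemma psi_nonneg (y : ℝ) : 0 ≤ psi y := expNegInvGlue.nonneg _

lemma psi_periodic : Function.Periodic psi 1 := by
  intro y
  unfold psi
  have : 2 * Real.pi * (y + 1) = 2 * Real.pi * y + 2 * Real.pi := by ring
  rw [this, Real.sin_add_two_pi]

/-- the modulated test function -/
noncomputable def ft (N : ℕ) (m : ℤ) (x : ℝ) : ℂ := (psi (N * x) : ℂ) * ex (-m) x

lemma ex_contDiff (n : ℤ) : ContDiff ℝ 2 (ex n) := by
  unfold ex
  have h : ContDiff ℝ 2 (fun x : ℝ => (x : ℂ)) := Complex.ofRealCLM.contDiff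
  exact (contDiff_const.mul h).cexp

lemma ft_contDiff (N : ℕ) (m : ℤ) : ContDiff ℝ 2 (ft N m) := by
  unfold ft
  apply ContDiff.mul
  · have h1 : ContDiff ℝ 2 (fun x : ℝ => psi (N * x)) := psi_contDiff.comp (by fun_prop)
    exact Complex.ofRealCLM.contDiff.comp h1
  · exact ex_contDiff _

lemma ft_eventually (N : ℕ) (m : ℤ) (x : ℝ) (hx : 0 ≤ Real.sin (2 * Real.pi * N * x)) :
    ft N m =ᶠ[𝓝 x] fun _ => 0 := by
  have hcont : Continuous (fun y : ℝ => Real.sin (2 * Real.pi * N * y)) := by fun_prop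
  have : ∀ᶠ y in 𝓝 x, -(1 / 2) < Real.sin (2 * Real.pi * N * y) :=
    hcont.continuousAt.eventually (lt_mem_nhds (by linarith))
  filter_upwards [this] with y hy
  unfold ft psi
  have e : 2 * Real.pi * (N * y) = 2 * Real.pi * N * y := by ring
  rw [e, expNegInvGlue.zero_of_nonpos (by linarith)]
  simp

lemma ft_props (N : ℕ) (m : ℤ) : ∃ f1 f2 : ℝ → ℂ, (∀ x, HasDerivAt (ft N m) (f1 x) x) ∧
    (∀ x, HasDerivAt f1 (f2 x) x) ∧ Continuous f2 ∧
    (∀ x : ℝ, 0 ≤ Real.sin (2 * Real.pi * N * x) → ft N m x = 0 ∧ f1 x = 0 ∧ f2 x = 0) := by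
  have hc := ft_contDiff N m
  have hd1 : Differentiable ℝ (ft N m) := hc.differentiable (by norm_num)
  have hc1 : ContDiff ℝ 1 (deriv (ft N m)) := by
    have : ContDiff ℝ (1 + 1) (ft N m) := by
      norm_num
      exact hc
    exact (contDiff_succ_iff_deriv.mp this).2.2
  have hd2 : Differentiable ℝ (deriv (ft N m)) := hc1.differentiable (by norm_num)
  refine ⟨deriv (ft N m), deriv (deriv (ft N m)), fun x => (hd1 x).hasDerivAt,
    fun x => (hd2 x).hasDerivAt, hc1.continuous_deriv le_rfl, fun x hx => ?_⟩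
  have h0 := ft_eventually N m x hx
  have h1 : deriv (ft N m) =ᶠ[𝓝 x] fun _ => 0 := by
    have := h0.deriv
    simpa using this
  have h2 : deriv (deriv (ft N m)) =ᶠ[𝓝 x] fun _ => 0 := by
    have := h1.deriv
    simpa using this
  exact ⟨h0.eq_of_nhds, h1.eq_of_nhds, h2.eq_of_nhds⟩

/-- the Fourier integrals of the test function -/
noncomputable def WW (N : ℕ) (l : ℤ) : ℂ := ∫ x in (0 : ℝ)..1, ex l x * (psi (N * x) : ℂ)

lemma psi_continuous : Continuous psi := psi_contDiff.continuous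

lemma continuous_WW_integrand (N : ℕ) (l : ℤ) :
    Continuous (fun x : ℝ => ex l x * (psi (N * x) : ℂ)) := by
  have := psi_continuous
  have := continuous_ex l
  fun_prop

lemma ex_periodic (l : ℤ) : Function.Periodic (ex l) 1 := by
  intro x
  rw [ex_add, ex_one, mul_one]

lemma WW_eq_zero (N : ℕ) (hN : 0 < N) (l : ℤ) (hl : ¬ ((N : ℤ) ∣ l)) : WW N l = 0 := by
  have hNr : (N : ℝ) ≠ 0 := by positivity
  set g : ℝ → ℂ := fun x => ex l x * (psi (N * x) : ℂ) with hg
  have hper : Function.Periodic g 1 := by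
    intro x
    simp only [hg]
    rw [ex_periodic l x]
    congr 2
    have := psi_periodic.nat_mul N (N * x)
    rw [mul_add]
    simpa using this
  have hshift : ∀ x, g (x + 1 / N) = ex l (1 / N) * g x := by
    intro x
    simp only [hg]
    rw [ex_add]
    have : (N : ℝ) * (x + 1 / N) = N * x + 1 := by field_simp
    rw [this, psi_periodic]
    ring
  have h1 : ∫ x in (0 : ℝ)..1, g x = ex l (1 / N) * ∫ x in (0 : ℝ)..1, g x := by
    have e1 := hper.intervalIntegral_add_eq 0 (1 / N)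
    rw [zero_add] at e1
    have e2 : ∫ x in (0 : ℝ)..1, g (x + 1 / N) = ∫ x in (0 + 1 / (N : ℝ))..(1 + 1 / (N : ℝ)), g x :=
      intervalIntegral.integral_comp_add_right _ _
    have e3 : ∫ x in (0 : ℝ)..1, g (x + 1 / N) = ex l (1 / N) * ∫ x in (0 : ℝ)..1, g x := by
      rw [← intervalIntegral.integral_const_mul]
      congr 1
      ext x
      exact hshift x
    rw [← e3, e2, e1, zero_add, add_comm (1 : ℝ)]
  have h2 : ex l (1 / N) ≠ 1 := by
    intro h
    apply hl
    unfold ex at h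
    rw [Complex.exp_eq_one_iff] at h
    obtain ⟨n, hn⟩ := h
    have hpi : (Real.pi : ℂ) ≠ 0 := by exact_mod_cast Real.pi_ne_zero
    have hNc : (N : ℂ) ≠ 0 := by exact_mod_cast hNr
    have h3 : (l : ℂ) = N * n := by
      push_cast at hn
      have hI := Complex.I_ne_zero
      field_simp at hn
      exact hn
    exact ⟨n, by exact_mod_cast h3⟩
  have h3 : (1 - ex l (1 / N)) * ∫ x in (0 : ℝ)..1, g x = 0 := by
    rw [sub_mul, one_mul, ← h1, sub_self]
  rcases mul_eq_zero.mp h3 with h4 | h4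
  · exact absurd (sub_eq_zero.mp h4).symm h2
  · exact h4

lemma WW_mul (N : ℕ) (hN : 0 < N) (j : ℤ) : WW N (j * N) = WW 1 j := by
  have hNr : (N : ℝ) ≠ 0 := by positivity
  set h : ℝ → ℂ := fun y => ex j y * (psi y : ℂ) with hh
  have hper : Function.Periodic h 1 := by
    intro y
    simp only [hh]
    rw [ex_periodic j y, psi_periodic y]
  have hcont : Continuous h := by
    have := psi_continuous
    have := continuous_ex j
    fun_prop
  have e1 : ∀ x : ℝ, ex (j * N) x * (psi (N * x) : ℂ) = h (N * x) := by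
    intro x
    simp only [hh]
    congr 1
    unfold ex
    congr 1
    push_cast
    ring
  have e2 : WW N (j * N) = ∫ x in (0 : ℝ)..1, h (N * x) := by
    unfold WW
    congr 1
    ext x
    exact e1 x
  have e3 := hper.intervalIntegral_add_zsmul_eq (N : ℤ) 0
    (fun t1 t2 => hcont.intervalIntegrable t1 t2)
  rw [e2, intervalIntegral.integral_comp_mul_left _ hNr]
  simp only [zero_add, natCast_zsmul, nsmul_eq_mul, mul_one, mul_zero] at e3 ⊢
  rw [e3]
  unfold WW
  rw [Complex.real_smul]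
  push_cast
  rw [← mul_assoc, inv_mul_cancel₀ (by exact_mod_cast hNr), one_mul]
  simp [hh]

lemma WW_summable : Summable (fun j : ℤ => ‖WW 1 j‖) := by
  obtain ⟨f1, f2, h1, h2, h3, h4⟩ := ft_props 1 0
  obtain ⟨B, hB⟩ : ∃ B, ∀ x ∈ Set.Icc (0 : ℝ) 1, ‖f2 x‖ ≤ B :=
    isCompact_Icc.exists_bound_of_continuousOn h3.continuousOn
  have hB0 : 0 ≤ B := (norm_nonneg _).trans (hB 0 ⟨le_rfl, zero_le_one⟩)
  have z0 := h4 0 (by simp)
  have z1 := h4 1 (by simp)
  have key : ∀ j : ℤ, j ≠ 0 → ‖WW 1 j‖ ≤ B * (1 / (j : ℝ) ^ 2) := by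
    intro j hj
    have hjr : (j : ℝ) ≠ 0 := by exact_mod_cast hj
    have e1 := parts_ex j (ft 1 0) f1 f2 h1 h2 h3 (by rw [z0.1, z1.1]) (by rw [z0.2.1, z1.2.1])
    have e2 : ∫ x in (0 : ℝ)..1, ex j x * ft 1 0 x = WW 1 j := by
      unfold WW ft
      congr 1
      ext x
      simp [ex_zero]
    rw [e2] at e1
    have e3 : ‖∫ x in (0 : ℝ)..1, ex j x * f2 x‖ ≤ B * |1 - 0| := by
      apply intervalIntegral.norm_integral_le_of_norm_le_const
      intro x hx
      rw [Set.uIoc_of_le zero_le_one] at hx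
      rw [norm_mul, norm_ex, one_mul]
      exact hB x ⟨hx.1.le, hx.2⟩
    rw [e1, norm_mul] at e3
    have e4 : ‖-(4 * (Real.pi : ℂ) ^ 2 * (j : ℂ) ^ 2)‖ = 4 * Real.pi ^ 2 * (j : ℝ) ^ 2 := by
      rw [norm_neg]
      have : (4 * (Real.pi : ℂ) ^ 2 * (j : ℂ) ^ 2) = ((4 * Real.pi ^ 2 * (j : ℝ) ^ 2 : ℝ) : ℂ) := by
        push_cast; ring
      rw [this, Complex.norm_real, Real.norm_eq_abs, abs_of_nonneg (by positivity)]
    rw [e4] at e3
    have hpi : 1 ≤ 4 * Real.pi ^ 2 := by nlinarith [Real.pi_gt_three]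
    have hj2 : 0 < (j : ℝ) ^ 2 := by positivity
    rw [mul_one_div, le_div_iff₀ hj2]
    simp only [sub_zero, abs_one, mul_one] at e3
    have hn := norm_nonneg (WW 1 j)
    have : ‖WW 1 j‖ * (j : ℝ) ^ 2 ≤ 4 * Real.pi ^ 2 * (j : ℝ) ^ 2 * ‖WW 1 j‖ := by
      have : 0 ≤ ‖WW 1 j‖ * (j : ℝ) ^ 2 := by positivity
      nlinarith
    linarith
  have hs : Summable (fun j : ℤ => B * (1 / (j : ℝ) ^ 2)) :=
    (Real.summable_one_div_int_pow.mpr (by norm_num)).mul_left B
  have hs2 : Summable (fun j : ℤ => B * (1 / (j : ℝ) ^ 2) + if j = 0 then ‖WW 1 0‖ else 0) := by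
    apply hs.add
    exact summable_of_ne_finset_zero (s := {0}) (fun j hj => by
      simp only [Finset.mem_singleton] at hj
      simp [hj])
  refine Summable.of_nonneg_of_le (fun _ => norm_nonneg _) (fun j => ?_) hs2
  by_cases hj : j = 0
  · subst hj
    simp
  · rw [if_neg hj, add_zero]
    exact key j hj

lemma WW_zero_ne : WW 1 0 ≠ 0 := by
  have e1 : WW 1 0 = ((∫ x in (0 : ℝ)..1, psi x : ℝ) : ℂ) := by
    unfold WW
    rw [← intervalIntegral.integral_ofReal]
    congr 1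
    ext x
    simp [ex_zero]
  rw [e1]
  have : 0 < ∫ x in (0 : ℝ)..1, psi x := by
    apply intervalIntegral.integral_pos zero_lt_one psi_continuous.continuousOn
    · intro x _
      exact psi_nonneg x
    · refine ⟨3 / 4, ⟨by norm_num, by norm_num⟩, ?_⟩
      unfold psi
      apply expNegInvGlue.pos_of_pos
      have : 2 * Real.pi * (3 / 4) = Real.pi / 2 + Real.pi := by ring
      rw [this, Real.sin_add_pi, Real.sin_pi_div_two]
      norm_num
  exact_mod_cast this.ne'

/-- Rajchman's identity. -/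
lemma identity (c : ℤ → ℂ) (C : ℝ) (hC : ∀ n, ‖c n‖ ≤ C) (N : ℕ) (hN : 0 < N)
    (hS : ∀ x : ℝ, Real.sin (2 * Real.pi * N * x) < 0 →
      Tendsto (fun K : ℕ => ∑ n ∈ Finset.range (K + 1), An c n x) atTop (𝓝 0)) (m : ℤ) :
    ∑' j : ℤ, c (m + j * N) * WW 1 j = 0 := by
  obtain ⟨f1, f2, h1, h2, h3, h4⟩ := ft_props N m
  have z0 := h4 0 (by simp)
  have z1 := h4 1 (by
    rw [mul_one, mul_comm]
    have := Real.sin_add_nat_mul_two_pi 0 N
    rw [zero_add] at this
    rw [this, Real.sin_zero])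
  have hsum := PP_integral c C hC (ft N m) f1 f2 h1 h2 h3 (by rw [z0.1, z1.1])
    (by rw [z0.2.1, z1.2.1])
  rw [PP_weak c C hC N hN hS (ft N m) f1 f2 h1 h2 h3 h4] at hsum
  set g : ℤ → ℂ := fun l => c l * WW N (l - m) with hg
  have e0 : ∀ l : ℤ, ∫ x in (0 : ℝ)..1, ex l x * ft N m x = WW N (l - m) := by
    intro l
    unfold WW ft
    congr 1
    ext x
    have : ex (l - m) x = ex l x * ex (-m) x := by rw [ex_mul]; rfl
    rw [this]
    ring
  have hftc : Continuous (ft N m) := (ft_contDiff N m).continuous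
  have e1 : ∀ n : ℕ, ∫ x in (0 : ℝ)..1, An c (n + 1) x * ft N m x
      = g ((n : ℤ) + 1) + g (-((n : ℤ) + 1)) := by
    intro n
    simp only [hg]
    rw [← e0, ← e0, ← intervalIntegral.integral_const_mul, ← intervalIntegral.integral_const_mul,
      ← intervalIntegral.integral_add]
    · congr 1
      ext x
      rw [An_succ]
      ring
    · exact (continuous_const.mul ((continuous_ex _).mul hftc)).intervalIntegrable _ _
    · exact (continuous_const.mul ((continuous_ex _).mul hftc)).intervalIntegrable _ _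
  have e2 : ∫ x in (0 : ℝ)..1, ft N m x = WW N (0 - m) := by
    rw [← e0]
    simp [ex_zero]
  simp only [e1] at hsum
  rw [e2] at hsum
  have hsum' : HasSum (fun n : ℕ => g ((n : ℤ) + 1) + g (-((n : ℤ) + 1))) (-g 0) := by
    have : -c 0 * WW N (0 - m) = -g 0 := by simp only [hg]; ring
    rw [← this]
    exact hsum
  -- summability over the integers
  set φ : ℤ → ℤ := fun j => m + j * N with hφ
  have hφinj : Function.Injective φ := by
    intro a b hab
    simp only [hφ] at hab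
    have hN' : (N : ℤ) ≠ 0 := by exact_mod_cast hN.ne'
    have : a * N = b * (N : ℤ) := by linarith
    exact mul_right_cancel₀ hN' this
  have hφr : ∀ l, l ∉ Set.range φ → g l = 0 := by
    intro l hl
    simp only [hg]
    rw [WW_eq_zero N hN (l - m), mul_zero]
    rintro ⟨j, hj⟩
    exact hl ⟨j, by simp only [hφ]; linarith⟩
  have hgφ : g ∘ φ = fun j => c (m + j * N) * WW 1 j := by
    ext j
    simp only [hg, hφ, Function.comp]
    rw [add_sub_cancel_left, WW_mul N hN j]
  have hsφ : Summable (g ∘ φ) := by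
    rw [hgφ]
    refine Summable.of_norm_bounded (WW_summable.mul_left C) (fun j => ?_)
    rw [norm_mul]
    exact mul_le_mul_of_nonneg_right (hC _) (norm_nonneg _)
  have hT : HasSum g (∑' j, (g ∘ φ) j) := (hφinj.hasSum_iff hφr).mp hsφ.hasSum
  have hT2 := hT.nat_add_neg
  have hT3 : HasSum (fun n : ℕ => g (n : ℤ) + g (-(n : ℤ))) (-g 0 + (g 0 + g 0)) := by
    rw [← hasSum_nat_add_iff' 1]
    simp only [Finset.range_one, Finset.sum_singleton, Nat.cast_zero, neg_zero, Nat.cast_add,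
      Nat.cast_one]
    have : -g 0 + (g 0 + g 0) - (g 0 + g 0) = -g 0 := by ring
    rw [this]
    exact hsum'
  have hT4 := hT2.unique hT3
  have hT5 : ∑' j, (g ∘ φ) j = 0 := by linear_combination hT4
  rw [hgφ] at hT5
  exact hT5

/-- **Rajchman's theorem** for the sets of type H used here. -/
theorem uniqueness (c : ℤ → ℂ) (nk : ℕ → ℕ) (hnk : Tendsto nk atTop atTop) (hpos : ∀ k, 0 < nk k)
    (h : ∀ x : ℝ, (∃ k, Real.sin (2 * Real.pi * (nk k : ℝ) * x) < 0) →
      Tendsto (fun K : ℕ => ∑ n ∈ Finset.range (K + 1), An c n x) atTop (𝓝 0)) :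
    ∀ m, c m = 0 := by
  -- Cantor-Lebesgue
  set N0 := nk 0 with hN0
  have hN0r : (0 : ℝ) < N0 := by exact_mod_cast hpos 0
  have hint : ∀ x ∈ Set.Ioo (1 / (2 * (N0 : ℝ))) (1 / (N0 : ℝ)),
      Tendsto (fun n : ℕ => An c (n + 1) x) atTop (𝓝 0) := by
    intro x hx
    have hx1 : 1 < 2 * N0 * x := by
      have := hx.1
      rw [div_lt_iff₀ (by positivity)] at this
      linarith
    have hx2 : N0 * x < 1 := by
      have := hx.2
      rw [lt_div_iff₀ (by positivity)] at this
      linarith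
    have hs : Real.sin (2 * Real.pi * (N0 : ℝ) * x) < 0 := by
      have e : 2 * Real.pi * (N0 : ℝ) * x = -(2 * Real.pi * (1 - N0 * x)) + 2 * Real.pi := by ring
      rw [e, Real.sin_add_two_pi, Real.sin_neg, neg_lt_zero]
      have := Real.pi_pos
      apply Real.sin_pos_of_pos_of_lt_pi
      · have : 0 < 1 - N0 * x := by linarith
        positivity
      · nlinarith
    have hlim := h x ⟨0, hs⟩
    have h1 := hlim.sub ((tendsto_add_atTop_iff_nat
      (f := fun K : ℕ => ∑ n ∈ Finset.range K, An c n x) 1).mp hlim)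
    rw [sub_zero] at h1
    have h2 := (tendsto_add_atTop_iff_nat
      (f := fun K : ℕ => ∑ n ∈ Finset.range (K + 1), An c n x - ∑ n ∈ Finset.range K, An c n x) 1).mpr h1
    refine h2.congr (fun n => ?_)
    rw [Finset.sum_range_succ]
    ring
  have hlt : 1 / (2 * (N0 : ℝ)) < 1 / (N0 : ℝ) := by
    apply one_div_lt_one_div_of_lt hN0r
    linarith
  have hsmall := coeff_small c (cantor_lebesgue_pos c _ _ hlt hint)
    (cantor_lebesgue_neg c _ _ hlt hint)
  obtain ⟨C, hC⟩ := coeff_bdd c hsmall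
  intro m
  have hid : ∀ k, ∑' j : ℤ, c (m + j * (nk k : ℤ)) * WW 1 j = 0 := fun k =>
    identity c C hC (nk k) (hpos k) (fun x hx => h x ⟨k, hx⟩) m
  have hlim : Tendsto (fun k => ∑' j : ℤ, c (m + j * (nk k : ℤ)) * WW 1 j) atTop
      (𝓝 (∑' j : ℤ, if j = 0 then c m * WW 1 0 else 0)) := by
    apply tendsto_tsum_of_dominated_convergence (bound := fun j => C * ‖WW 1 j‖)
      (WW_summable.mul_left C)
    · intro j
      by_cases hj : j = 0
      · subst hj
        simp
      · rw [if_neg hj]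
        have hcj : Tendsto (fun k => c (m + j * (nk k : ℤ))) atTop (𝓝 0) := by
          rw [Metric.tendsto_atTop]
          intro ε hε
          obtain ⟨R, hR⟩ := hsmall ε hε
          obtain ⟨K, hK⟩ := (tendsto_atTop_atTop.mp hnk) (R + m.natAbs)
          refine ⟨K, fun k hk => ?_⟩
          rw [dist_zero_right]
          apply hR
          have h1 := hK k hk
          have h2 : (R : ℤ) + |m| ≤ (nk k : ℤ) := by
            rw [Int.abs_eq_natAbs]
            exact_mod_cast h1
          have h3 : (nk k : ℤ) ≤ |j * (nk k : ℤ)| := by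
            rw [abs_mul]
            have : 1 ≤ |j| := Int.one_le_abs hj
            have h5 : |((nk k : ℕ) : ℤ)| = (nk k : ℤ) := abs_of_nonneg (by positivity)
            rw [h5]
            nlinarith [Int.natCast_nonneg (nk k)]
          have h4 : |j * (nk k : ℤ)| ≤ |m + j * (nk k : ℤ)| + |m| := by
            have := abs_sub (m + j * (nk k : ℤ)) m
            rwa [add_sub_cancel_left] at this
          linarith
        have := hcj.mul_const (WW 1 j)
        rwa [zero_mul] at this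
    · apply Eventually.of_forall
      intro k j
      rw [norm_mul]
      exact mul_le_mul_of_nonneg_right (hC _) (norm_nonneg _)
  simp only [hid, tsum_ite_eq] at hlim
  have := tendsto_nhds_unique hlim tendsto_const_nhds
  rcases mul_eq_zero.mp this with h1 | h1
  · exact h1
  · exact absurd h1 WW_zero_ne

end Pool.Agent.MP_535d13_an
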