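import Mathlib

set_option autoImplicit false

open MeasureTheory Set Filter Topology

namespace Pool.Agent.MP535d13

/-- the character -/
noncomputable def ee (n : ℤ) (x : ℝ) : ℂ :=
  Complex.exp (2 * (Real.pi:ℂ) * Complex.I * (n:ℂ) * (x:ℂ))

lemma ee_zero (x : ℝ) : ee 0 x = 1 := by simp [ee]

lemma ee_zero_right (n : ℤ) : ee n 0 = 1 := by simp [ee]

lemma ee_add (m n : ℤ) (x : ℝ) : ee (m + n) x = ee m x * ee n x := by
  unfold ee
  rw [← Complex.exp_add]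
  congr 1
  push_cast
  ring

lemma ee_add_right (n : ℤ) (x y : ℝ) : ee n (x + y) = ee n x * ee n y := by
  unfold ee
  rw [← Complex.exp_add]
  congr 1
  push_cast
  ring

lemma ee_mul (m n : ℤ) (x : ℝ) : ee (m * n) x = ee m ((n : ℝ) * x) := by
  unfold ee
  congr 1
  push_cast
  ring

lemma norm_ee (n : ℤ) (x : ℝ) : ‖ee n x‖ = 1 := by
  unfold ee
  have : (2 * (Real.pi:ℂ) * Complex.I * (n:ℂ) * (x:ℂ)) = ((2 * Real.pi * n * x : ℝ) : ℂ) * Complex.I := by
    push_cast; ring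
  rw [this, Complex.norm_exp_ofReal_mul_I]

lemma continuous_ee (n : ℤ) : Continuous (ee n) := by
  unfold ee
  fun_prop

lemma ee_add_neg (n : ℤ) (x : ℝ) : ee n x + ee n (-x) = 2 * (Real.cos (2 * Real.pi * n * x) : ℝ) := by
  unfold ee
  rw [Complex.ofReal_cos, Complex.cos]
  have h1 : (2 * (Real.pi:ℂ) * Complex.I * (n:ℂ) * (x:ℂ)) = ((2 * Real.pi * n * x : ℝ) : ℂ) * Complex.I := by
    push_cast; ring
  have h2 : (2 * (Real.pi:ℂ) * Complex.I * (n:ℂ) * ((-x : ℝ):ℂ)) = -((2 * Real.pi * n * x : ℝ) : ℂ) * Complex.I := by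
    push_cast; ring
  rw [h1, h2]
  ring

lemma ee_integral (n : ℤ) : ∫ x in (0 : ℝ)..1, ee n x = if n = 0 then 1 else 0 := by
  by_cases hn : n = 0
  · subst hn
    simp [ee_zero]
  · rw [if_neg hn]
    unfold ee
    have hc : (2 * (Real.pi:ℂ) * Complex.I * (n:ℂ)) ≠ 0 := by
      have : (Real.pi : ℂ) ≠ 0 := by exact_mod_cast Real.pi_ne_zero
      have : (n : ℂ) ≠ 0 := by exact_mod_cast hn
      simp_all
    rw [integral_exp_mul_complex hc]
    have h1 : Complex.exp (2 * (Real.pi:ℂ) * Complex.I * (n:ℂ) * ((1 : ℝ) : ℂ)) = 1 := by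
      have := Complex.exp_int_mul_two_pi_mul_I n
      rw [← this]
      congr 1
      push_cast; ring
    rw [h1]
    simp

/-- quarter-period shift -/
lemma ee_quarter (N : ℕ) (hN : 1 ≤ N) (x : ℝ) :
    ee N (x + 1 / (4 * N)) = ee N x * Complex.I := by
  rw [ee_add_right]
  congr 1
  unfold ee
  have hN0 : (N : ℂ) ≠ 0 := by exact_mod_cast (by omega : N ≠ 0)
  have : (2 * (Real.pi:ℂ) * Complex.I * ((N:ℤ):ℂ) * ((1 / (4 * (N : ℝ)) : ℝ):ℂ)) = (Real.pi / 2 : ℂ) * Complex.I := by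
    push_cast
    field_simp
    ring
  rw [this, Complex.exp_pi_div_two_mul_I]

lemma ee_quarter_neg (N : ℕ) (hN : 1 ≤ N) (x : ℝ) :
    ee (-N) (x + 1 / (4 * N)) = ee (-N) x * (-Complex.I) := by
  rw [ee_add_right]
  congr 1
  unfold ee
  have hN0 : (N : ℂ) ≠ 0 := by exact_mod_cast (by omega : N ≠ 0)
  have : (2 * (Real.pi:ℂ) * Complex.I * ((-(N:ℤ) : ℤ):ℂ) * ((1 / (4 * (N : ℝ)) : ℝ):ℂ)) = -((Real.pi / 2 : ℂ) * Complex.I) := by
    push_cast
    field_simp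
    ring
  rw [this, Complex.exp_neg, Complex.exp_pi_div_two_mul_I, Complex.inv_I]

/-- symmetric partial sums -/
noncomputable def SS (c : ℤ → ℂ) (N : ℕ) (x : ℝ) : ℂ :=
  ∑ n ∈ Finset.Icc (-(N:ℤ)) (N:ℤ), c n * ee n x

lemma SS_succ (c : ℤ → ℂ) (N : ℕ) (x : ℝ) :
    SS c (N + 1) x = SS c N x + (c (N + 1 : ℕ) * ee (N + 1 : ℕ) x
      + c (-(N + 1 : ℕ)) * ee (-(N + 1 : ℕ)) x) := by
  unfold SS
  have h1 : Finset.Icc (-((N + 1 : ℕ):ℤ)) ((N + 1 : ℕ):ℤ)
      = insert (-((N + 1 : ℕ):ℤ)) (insert ((N + 1 : ℕ):ℤ) (Finset.Icc (-(N:ℤ)) (N:ℤ))) := by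
    ext z
    simp only [Finset.mem_Icc, Finset.mem_insert]
    push_cast
    omega
  rw [h1, Finset.sum_insert, Finset.sum_insert]
  · ring
  · simp
  · simp only [Finset.mem_insert, Finset.mem_Icc]
    push_cast
    omega

lemma SS_zero (c : ℤ → ℂ) (x : ℝ) : SS c 0 x = c 0 := by
  simp [SS, ee_zero]

/-- Cantor's lemma. -/
lemma cantor (c : ℤ → ℂ) (α β : ℝ) (hαβ : α < β)
    (h : ∀ x ∈ Ioo α β, Tendsto (fun N : ℕ => SS c N x) atTop (𝓝 0)) (ε : ℝ) (hε : 0 < ε) :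
    ∃ M : ℕ, ∀ N : ℕ, M ≤ N → ‖c (N + 1 : ℕ)‖ ≤ ε ∧ ‖c (-(N + 1 : ℕ))‖ ≤ ε := by
  set A : ℕ → ℝ → ℂ := fun N x => c (N + 1 : ℕ) * ee (N + 1 : ℕ) x
      + c (-(N + 1 : ℕ)) * ee (-(N + 1 : ℕ)) x with hA
  have hAc : ∀ N, Continuous (A N) := fun N =>
    (continuous_const.mul (continuous_ee _)).add (continuous_const.mul (continuous_ee _))
  have hA0 : ∀ x ∈ Ioo α β, Tendsto (fun N => A N x) atTop (𝓝 0) := by
    intro x hx
    have h1 := h x hx
    have h2 : Tendsto (fun N : ℕ => SS c (N + 1) x) atTop (𝓝 0) := h1.comp (tendsto_add_atTop_nat 1)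
    have h3 := h2.sub h1
    rw [sub_zero] at h3
    refine h3.congr fun N => ?_
    rw [SS_succ]
    simp [hA]
  set f : ℕ → Set ℝ := fun m => {x | ∀ N, m ≤ N → ‖A N x‖ ≤ ε} ∪ (Ioo α β)ᶜ with hf
  have hfc : ∀ m, IsClosed (f m) := by
    intro m
    refine IsClosed.union ?_ isOpen_Ioo.isClosed_compl
    have : {x | ∀ N, m ≤ N → ‖A N x‖ ≤ ε} = ⋂ N, ⋂ (_ : m ≤ N), {x | ‖A N x‖ ≤ ε} := by
      ext x; simp
    rw [this]
    exact isClosed_iInter fun N => isClosed_iInter fun _ => isClosed_le (hAc N).norm continuous_const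
  have hfU : ⋃ m, f m = univ := by
    rw [eq_univ_iff_forall]
    intro x
    rw [mem_iUnion]
    by_cases hx : x ∈ Ioo α β
    · have h1 := (hA0 x hx).norm
      rw [norm_zero] at h1
      obtain ⟨m, hm⟩ := eventually_atTop.mp (h1.eventually_le_const hε)
      exact ⟨m, Or.inl fun N hN => hm N hN⟩
    · exact ⟨0, Or.inr hx⟩
  have hd := dense_iUnion_interior_of_closed hfc hfU
  obtain ⟨x, hx1, hx2⟩ := hd.inter_open_nonempty (Ioo α β) isOpen_Ioo (nonempty_Ioo.mpr hαβ)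
  obtain ⟨m, hm⟩ := mem_iUnion.mp hx2
  have hopen : IsOpen (Ioo α β ∩ interior (f m)) := isOpen_Ioo.inter isOpen_interior
  obtain ⟨δ, hδ, hball⟩ := Metric.isOpen_iff.mp hopen x ⟨hx1, hm⟩
  have hgood : ∀ y ∈ Metric.ball x δ, ∀ N, m ≤ N → ‖A N y‖ ≤ ε := by
    intro y hy
    have h1 := hball hy
    rcases interior_subset h1.2 with h2 | h2
    · exact h2
    · exact absurd h1.1 h2
  obtain ⟨M, hM⟩ := exists_nat_gt (1 / δ)
  refine ⟨max m M, fun N hN => ?_⟩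
  have hNm : m ≤ N := le_trans (le_max_left _ _) hN
  have hNM : (M : ℝ) ≤ N := by exact_mod_cast le_trans (le_max_right _ _) hN
  have hNpos : (0 : ℝ) < ((N + 1 : ℕ) : ℝ) := by positivity
  have hsmall : 1 / (4 * ((N + 1 : ℕ) : ℝ)) < δ := by
    rw [div_lt_iff₀ (by positivity)]
    rw [div_lt_iff₀ hδ] at hM
    push_cast
    nlinarith
  have hy : x + 1 / (4 * ((N + 1 : ℕ) : ℝ)) ∈ Metric.ball x δ := by
    rw [Metric.mem_ball, Real.dist_eq, add_sub_cancel_left, abs_of_pos (by positivity)]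
    exact hsmall
  have h1 := hgood x (Metric.mem_ball_self hδ) N hNm
  have h2 := hgood _ hy N hNm
  set a : ℂ := c (N + 1 : ℕ) * ee (N + 1 : ℕ) x with ha
  set b : ℂ := c (-(N + 1 : ℕ)) * ee (-(N + 1 : ℕ)) x with hb
  have e1 : A N x = a + b := rfl
  have e2 : A N (x + 1 / (4 * ((N + 1 : ℕ) : ℝ))) = Complex.I * (a - b) := by
    simp only [hA]
    rw [ee_quarter (N + 1) (by omega), ee_quarter_neg (N + 1) (by omega)]
    rw [ha, hb]
    ring
  rw [e1] at h1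
  rw [e2, norm_mul, Complex.norm_I, one_mul] at h2
  have na : ‖a‖ = ‖c (N + 1 : ℕ)‖ := by rw [ha, norm_mul, norm_ee, mul_one]
  have nb : ‖b‖ = ‖c (-(N + 1 : ℕ))‖ := by rw [hb, norm_mul, norm_ee, mul_one]
  rw [← na, ← nb]
  constructor
  · have : a = ((a + b) + (a - b)) / 2 := by ring
    rw [this, norm_div]
    have h3 := norm_add_le (a + b) (a - b)
    simp only [Complex.norm_ofNat]
    linarith
  · have : b = ((a + b) - (a - b)) / 2 := by ring
    rw [this, norm_div]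
    have h3 := norm_sub_le (a + b) (a - b)
    simp only [Complex.norm_ofNat]
    linarith

lemma coeff_tendsto (c : ℤ → ℂ) (α β : ℝ) (hαβ : α < β)
    (h : ∀ x ∈ Ioo α β, Tendsto (fun N : ℕ => SS c N x) atTop (𝓝 0)) (ε : ℝ) (hε : 0 < ε) :
    ∃ M : ℕ, ∀ z : ℤ, (M : ℤ) ≤ |z| → ‖c z‖ ≤ ε := by
  obtain ⟨M, hM⟩ := cantor c α β hαβ h ε hε
  refine ⟨M + 1, fun z hz => ?_⟩
  rcases le_total 0 z with h0 | h0
  · rw [abs_of_nonneg h0] at hz
    obtain ⟨N, hN⟩ : ∃ N : ℕ, z = ((N + 1 : ℕ) : ℤ) := ⟨(z - 1).toNat, by push_cast at hz ⊢; omega⟩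
    rw [hN]
    exact (hM N (by push_cast at hz; omega)).1
  · rw [abs_of_nonpos h0] at hz
    obtain ⟨N, hN⟩ : ∃ N : ℕ, z = -((N + 1 : ℕ) : ℤ) := ⟨(-z - 1).toNat, by push_cast at hz ⊢; omega⟩
    rw [hN]
    exact (hM N (by push_cast at hz; omega)).2

lemma coeff_bdd (c : ℤ → ℂ) (α β : ℝ) (hαβ : α < β)
    (h : ∀ x ∈ Ioo α β, Tendsto (fun N : ℕ => SS c N x) atTop (𝓝 0)) :
    ∃ C : ℝ, 0 ≤ C ∧ ∀ z : ℤ, ‖c z‖ ≤ C := by
  obtain ⟨M, hM⟩ := coeff_tendsto c α β hαβ h 1 one_pos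
  refine ⟨1 + ∑ z ∈ Finset.Icc (-(M : ℤ)) M, ‖c z‖, by positivity, fun z => ?_⟩
  by_cases hz : (M : ℤ) ≤ |z|
  · have := hM z hz
    have h2 : 0 ≤ ∑ z ∈ Finset.Icc (-(M : ℤ)) M, ‖c z‖ := by positivity
    linarith
  · push Not at hz
    rw [abs_lt] at hz
    have h2 : ‖c z‖ ≤ ∑ z ∈ Finset.Icc (-(M : ℤ)) M, ‖c z‖ :=
      Finset.single_le_sum (f := fun z => ‖c z‖) (fun _ _ => norm_nonneg _)
        (Finset.mem_Icc.mpr ⟨by omega, by omega⟩)
    linarith

/-- Schwarz's lemma, one inequality. -/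
lemma schwarz_aux (f : ℝ → ℝ) (hf : Continuous f) (x h : ℝ) (hh : 0 < h)
    (H : ∀ y ∈ Ioo (x - h) (x + h),
      Tendsto (fun t => (f (y + t) + f (y - t) - 2 * f y) / t ^ 2) (𝓝[>] 0) (𝓝 0)) :
    0 ≤ f (x + h) + f (x - h) - 2 * f x := by
  by_contra hneg
  push Not at hneg
  set D := f (x + h) + f (x - h) - 2 * f x with hD
  set ε := -D / (4 * h ^ 2) with hε
  have hεpos : 0 < ε := by
    rw [hε]; apply div_pos <;> nlinarith
  have hεh : ε * h ^ 2 = -D / 4 := by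
    rw [hε]; field_simp
  set g : ℝ → ℝ := fun y => f y - (f (x - h) + (f (x + h) - f (x - h)) * (y - (x - h)) / (2 * h))
    + ε * ((y - x) ^ 2 - h ^ 2) with hg
  have hgc : Continuous g := by fun_prop
  have g1 : g (x - h) = 0 := by simp [hg]
  have g2 : g (x + h) = 0 := by
    simp only [hg]
    have : (f (x + h) - f (x - h)) * (x + h - (x - h)) / (2 * h) = f (x + h) - f (x - h) := by
      field_simp; ring
    rw [this]; ring
  have g3 : g x = -D / 4 := by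
    simp only [hg]
    have : (f (x + h) - f (x - h)) * (x - (x - h)) / (2 * h) = (f (x + h) - f (x - h)) / 2 := by
      field_simp; ring
    rw [this]
    have : ε * ((x - x) ^ 2 - h ^ 2) = D / 4 := by
      have : ε * ((x - x) ^ 2 - h ^ 2) = -(ε * h ^ 2) := by ring
      rw [this, hεh]; ring
    rw [this, hD]
    ring
  obtain ⟨y, hy, hmax⟩ := isCompact_Icc.exists_isMaxOn (s := Icc (x - h) (x + h))
    ⟨x, by constructor <;> linarith⟩ hgc.continuousOn
  have hyx : g x ≤ g y := hmax ⟨by linarith, by linarith⟩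
  have hypos : 0 < g y := by rw [g3] at hyx; linarith
  have hy1 : y ≠ x - h := by rintro rfl; rw [g1] at hypos; exact lt_irrefl _ hypos
  have hy2 : y ≠ x + h := by rintro rfl; rw [g2] at hypos; exact lt_irrefl _ hypos
  have hyI : y ∈ Ioo (x - h) (x + h) :=
    ⟨lt_of_le_of_ne hy.1 (Ne.symm hy1), lt_of_le_of_ne hy.2 hy2⟩
  have h1 := (H y hyI).eventually_const_lt (show -ε < 0 by linarith)
  have hd : 0 < min (y - (x - h)) (x + h - y) := by
    rw [lt_min_iff]; exact ⟨by linarith [hyI.1], by linarith [hyI.2]⟩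
  have h2 : ∀ᶠ t : ℝ in 𝓝[>] 0, t ∈ Ioo 0 (min (y - (x - h)) (x + h - y)) :=
    Ioo_mem_nhdsGT hd
  obtain ⟨t, ht1, ht2, ht3⟩ := (h1.and h2).exists
  have ht4 := lt_min_iff.mp ht3
  have m1 : g (y + t) ≤ g y := hmax ⟨by linarith [hy.1], by linarith [ht4.2]⟩
  have m2 : g (y - t) ≤ g y := hmax ⟨by linarith [ht4.1], by linarith [hy.2]⟩
  have e : g (y + t) + g (y - t) - 2 * g y = (f (y + t) + f (y - t) - 2 * f y) + 2 * ε * t ^ 2 := by
    simp only [hg]
    field_simp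
    ring
  have ht0 : 0 < t ^ 2 := by positivity
  rw [lt_div_iff₀ ht0] at ht1
  nlinarith

lemma schwarz (f : ℝ → ℝ) (hf : Continuous f) (x h : ℝ) (hh : 0 < h)
    (H : ∀ y ∈ Ioo (x - h) (x + h),
      Tendsto (fun t => (f (y + t) + f (y - t) - 2 * f y) / t ^ 2) (𝓝[>] 0) (𝓝 0)) :
    f (x + h) + f (x - h) - 2 * f x = 0 := by
  have h1 := schwarz_aux f hf x h hh H
  have h2 := schwarz_aux (fun y => -f y) hf.neg x h hh (by
    intro y hy
    have := (H y hy).neg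
    rw [neg_zero] at this
    refine this.congr fun t => ?_
    ring)
  linarith

lemma schwarz_complex (F : ℝ → ℂ) (hF : Continuous F) (x h : ℝ) (hh : 0 < h)
    (H : ∀ y ∈ Ioo (x - h) (x + h),
      Tendsto (fun t : ℝ => (F (y + t) + F (y - t) - 2 * F y) / (t : ℂ) ^ 2) (𝓝[>] 0) (𝓝 0)) :
    F (x + h) + F (x - h) - 2 * F x = 0 := by
  have hre := schwarz (fun y => (F y).re) (Complex.continuous_re.comp hF) x h hh (by
    intro y hy
    have := (Complex.continuous_re.tendsto 0).comp (H y hy)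
    rw [Complex.zero_re] at this
    refine this.congr fun t => ?_
    simp only [Function.comp_apply]
    rw [← Complex.ofReal_pow, Complex.div_ofReal_re]
    simp)
  have him := schwarz (fun y => (F y).im) (Complex.continuous_im.comp hF) x h hh (by
    intro y hy
    have := (Complex.continuous_im.tendsto 0).comp (H y hy)
    rw [Complex.zero_im] at this
    refine this.congr fun t => ?_
    simp only [Function.comp_apply]
    rw [← Complex.ofReal_pow, Complex.div_ofReal_im]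
    simp)
  apply Complex.ext
  · simpa using hre
  · simpa using him

end Pool.Agent.MP535d13
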