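import Pool.Agent.Lib.MP_535d13_an.Uniq1

set_option autoImplicit false

open MeasureTheory Set Filter Topology

namespace Pool.Agent.MP535d13

lemma sinc_eq_integral (x : ℝ) : Real.sinc x = ∫ s in (0 : ℝ)..1, Real.cos (x * s) := by
  by_cases hx : x = 0
  · subst hx; simp
  · rw [Real.sinc_of_ne_zero hx, intervalIntegral.integral_comp_mul_left _ hx, integral_cos]
    simp
    field_simp

lemma sinc_lip (x y : ℝ) : |Real.sinc x - Real.sinc y| ≤ |x - y| := by
  rw [sinc_eq_integral, sinc_eq_integral, ← intervalIntegral.integral_sub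
    (by apply Continuous.intervalIntegrable; fun_prop)
    (by apply Continuous.intervalIntegrable; fun_prop)]
  have h := intervalIntegral.norm_integral_le_of_norm_le_const (a := 0) (b := 1)
    (f := fun s => Real.cos (x * s) - Real.cos (y * s)) (C := |x - y|) (by
      intro s hs
      rw [uIoc_of_le zero_le_one] at hs
      rw [Real.norm_eq_abs]
      refine (Real.abs_cos_sub_cos_le _ _).trans ?_
      rw [← sub_mul, abs_mul, abs_of_pos hs.1]
      exact mul_le_of_le_one_right (abs_nonneg _) hs.2)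
  simpa using h

lemma abs_sinc_le_inv (x : ℝ) (hx : 0 < x) : |Real.sinc x| ≤ 1 / x := by
  rw [Real.sinc_of_ne_zero hx.ne', abs_div, abs_of_pos hx]
  gcongr
  exact Real.abs_sin_le_one x

/-- the Riemann factor -/
noncomputable def uu (t : ℝ) : ℝ := Real.sinc (Real.pi * t) ^ 2

lemma uu_nonneg (t : ℝ) : 0 ≤ uu t := sq_nonneg _

lemma uu_le_one (t : ℝ) : uu t ≤ 1 := by
  unfold uu
  have h := Real.abs_sinc_le_one (Real.pi * t)
  rw [← sq_abs]
  nlinarith [abs_nonneg (Real.sinc (Real.pi * t))]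

lemma uu_zero : uu 0 = 1 := by simp [uu]

lemma uu_neg (t : ℝ) : uu (-t) = uu t := by simp [uu]

lemma continuous_uu : Continuous uu := by unfold uu; fun_prop

lemma sinc_pi_bound (s : ℝ) (hs : 0 ≤ s) : |Real.sinc (Real.pi * s)| ≤ 2 / (1 + s) := by
  rw [le_div_iff₀ (by linarith)]
  have hpi := Real.pi_gt_three
  rcases le_or_gt s 1 with h | h
  · have := Real.abs_sinc_le_one (Real.pi * s)
    have h0 := abs_nonneg (Real.sinc (Real.pi * s))
    nlinarith
  · have h1 := abs_sinc_le_inv (Real.pi * s) (by positivity)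
    have h0 := abs_nonneg (Real.sinc (Real.pi * s))
    rw [le_div_iff₀ (by positivity)] at h1
    have h2 : 1 + s ≤ Real.pi * s := by nlinarith
    have h3 := mul_le_mul_of_nonneg_left h2 h0
    linarith

lemma sinc_pi_diff (s t : ℝ) (hs : 0 ≤ s) (hst : s ≤ t) :
    |Real.sinc (Real.pi * s) - Real.sinc (Real.pi * t)| ≤ 2 * Real.pi * (t - s) / (1 + t) := by
  have hpi := Real.pi_gt_three
  rcases le_or_gt t 1 with h | h
  · refine (sinc_lip _ _).trans ?_
    rw [← mul_sub, abs_mul, abs_of_pos Real.pi_pos, abs_sub_comm, abs_of_nonneg (by linarith),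
      le_div_iff₀ (by linarith)]
    nlinarith [mul_nonneg Real.pi_pos.le (sub_nonneg.mpr hst)]
  · have ht : 0 < t := by linarith
    have hpt : Real.pi * t ≠ 0 := by positivity
    have key : |Real.sinc (Real.pi * s) - Real.sinc (Real.pi * t)| ≤ 2 * (t - s) / t := by
      have e : Real.sinc (Real.pi * s) - Real.sinc (Real.pi * t)
          = (Real.sin (Real.pi * s) - Real.sin (Real.pi * t)) / (Real.pi * t)
            + Real.sinc (Real.pi * s) * ((t - s) / t) := by
        rcases eq_or_lt_of_le hs with h0 | h0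
        · subst h0
          rw [Real.sinc_of_ne_zero hpt]
          simp
          field_simp
          ring
        · rw [Real.sinc_of_ne_zero hpt, Real.sinc_of_ne_zero (by positivity)]
          field_simp
          ring
      rw [e]
      have e2 : 2 * (t - s) / t = (Real.pi * (t - s)) / (Real.pi * t) + 1 * ((t - s) / t) := by
        field_simp
        ring
      rw [e2]
      refine (abs_add_le _ _).trans (add_le_add ?_ ?_)
      · rw [abs_div, abs_of_pos (show 0 < Real.pi * t by positivity)]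
        gcongr
        refine (Real.abs_sin_sub_sin_le _ _).trans ?_
        rw [← mul_sub, abs_mul, abs_of_pos Real.pi_pos, abs_sub_comm, abs_of_nonneg (by linarith)]
      · rw [abs_mul, abs_of_nonneg (show 0 ≤ (t - s) / t from div_nonneg (by linarith) ht.le)]
        exact mul_le_mul_of_nonneg_right (Real.abs_sinc_le_one _) (div_nonneg (by linarith) ht.le)
    refine key.trans ?_
    rw [div_le_div_iff₀ ht (by linarith)]
    have h1 : 0 ≤ t - s := by linarith
    nlinarith [mul_nonneg h1 ht.le, mul_nonneg h1 (sub_nonneg.mpr h.le)]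

lemma uu_diff (s t : ℝ) (hs : 0 ≤ s) (hst : s ≤ t) :
    |uu s - uu t| ≤ 8 * Real.pi * (1 / (1 + s) - 1 / (1 + t)) := by
  have ht : 0 ≤ t := hs.trans hst
  have e : uu s - uu t = (Real.sinc (Real.pi * s) - Real.sinc (Real.pi * t))
      * (Real.sinc (Real.pi * s) + Real.sinc (Real.pi * t)) := by
    unfold uu; ring
  have h1 := sinc_pi_diff s t hs hst
  have h2 : |Real.sinc (Real.pi * s) + Real.sinc (Real.pi * t)| ≤ 4 / (1 + s) := by
    refine (abs_add_le _ _).trans ?_
    have h3 := sinc_pi_bound s hs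
    have h4 := sinc_pi_bound t ht
    have h5 : 2 / (1 + t) ≤ 2 / (1 + s) := by gcongr
    have h6 : 4 / (1 + s) = 2 / (1 + s) + 2 / (1 + s) := by ring
    linarith
  rw [e, abs_mul]
  have hpi := Real.pi_pos
  calc _ ≤ (2 * Real.pi * (t - s) / (1 + t)) * (4 / (1 + s)) := by
        apply mul_le_mul h1 h2 (abs_nonneg _)
        exact div_nonneg (by nlinarith) (by linarith)
    _ = 8 * Real.pi * (1 / (1 + s) - 1 / (1 + t)) := by
        field_simp
        ring

lemma uu_bound (h : ℝ) (hh : 0 < h) (n : ℤ) :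
    uu (n * h) ≤ (if n = 0 then 1 else 0) + (1 / (n : ℝ) ^ 2) * (1 / (Real.pi * h) ^ 2) := by
  by_cases hn : n = 0
  · subst hn; simp [uu_zero]
  · rw [if_neg hn, zero_add]
    have hn' : (n : ℝ) ≠ 0 := by exact_mod_cast hn
    have h0 : Real.pi * (n * h) ≠ 0 := by
      have := Real.pi_pos
      positivity
    unfold uu
    rw [Real.sinc_of_ne_zero h0, div_pow]
    have e : (1 / (n : ℝ) ^ 2) * (1 / (Real.pi * h) ^ 2) = 1 / (Real.pi * (n * h)) ^ 2 := by
      field_simp
    rw [e]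
    gcongr
    exact Real.sin_sq_le_one _

lemma summable_uu (h : ℝ) (hh : 0 < h) : Summable (fun n : ℤ => uu (n * h)) := by
  refine Summable.of_nonneg_of_le (fun n => uu_nonneg _) (fun n => uu_bound h hh n) ?_
  refine Summable.add ?_ ?_
  · exact (hasSum_ite_eq (0 : ℤ) (1 : ℝ)).summable
  · exact (Real.summable_one_div_int_pow.mpr one_lt_two).mul_right _

/-- Riemann means -/
noncomputable def Del (c : ℤ → ℂ) (h x : ℝ) : ℂ := ∑' n : ℤ, c n * ((uu (n * h) : ℝ) : ℂ) * ee n x

lemma summable_Del (c : ℤ → ℂ) (C : ℝ) (hC : ∀ z, ‖c z‖ ≤ C) (h : ℝ) (hh : 0 < h) (x : ℝ) :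
    Summable (fun n : ℤ => ‖c n * ((uu (n * h) : ℝ) : ℂ) * ee n x‖) := by
  refine Summable.of_nonneg_of_le (fun n => norm_nonneg _) (fun n => ?_)
    ((summable_uu h hh).mul_left C)
  rw [norm_mul, norm_ee, mul_one, norm_mul, Complex.norm_real, Real.norm_eq_abs,
    abs_of_nonneg (uu_nonneg _)]
  exact mul_le_mul_of_nonneg_right (hC n) (uu_nonneg _)

lemma abel_sum (c : ℤ → ℂ) (h x : ℝ) (N : ℕ) :
    SS (fun n => c n * ((uu (n * h) : ℝ) : ℂ)) N x = SS c N x * ((uu (N * h) : ℝ) : ℂ)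
      + ∑ j ∈ Finset.range N, SS c j x * ((uu (j * h) - uu ((j + 1 : ℕ) * h) : ℝ) : ℂ) := by
  induction N with
  | zero => simp [SS_zero]
  | succ N ih =>
    rw [SS_succ, ih, SS_succ c N x, Finset.sum_range_succ]
    have e1 : uu ((((N + 1 : ℕ) : ℤ) : ℝ) * h) = uu (((N + 1 : ℕ) : ℝ) * h) := by norm_cast
    have e2 : uu (((-((N + 1 : ℕ) : ℤ) : ℤ) : ℝ) * h) = uu (((N + 1 : ℕ) : ℝ) * h) := by
      rw [← uu_neg]
      congr 1
      push_cast; ring
    rw [e1, e2]
    push_cast
    ring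

lemma tendsto_Icc_int : Tendsto (fun N : ℕ => Finset.Icc (-(N:ℤ)) (N:ℤ)) atTop atTop := by
  apply Monotone.tendsto_atTop_finset
  · intro M N hMN
    apply Finset.Icc_subset_Icc <;> omega
  · intro z
    exact ⟨z.natAbs, by rw [Finset.mem_Icc]; omega⟩

lemma Del_bound (c : ℤ → ℂ) (C : ℝ) (hC : ∀ z, ‖c z‖ ≤ C) (x : ℝ)
    (hx : Tendsto (fun N => SS c N x) atTop (𝓝 0)) (ε : ℝ) (hε : 0 < ε) :
    ∃ B : ℝ, 0 ≤ B ∧ ∀ h : ℝ, 0 < h → ‖Del c h x‖ ≤ 8 * Real.pi * (B * h + ε) := by
  have hn := hx.norm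
  rw [norm_zero] at hn
  obtain ⟨M, hM⟩ := eventually_atTop.mp (hn.eventually_le_const hε)
  obtain ⟨B0, hB0⟩ := hn.bddAbove_range
  have hB : ∀ j, ‖SS c j x‖ ≤ B0 := fun j => hB0 ⟨j, rfl⟩
  have hB0n : 0 ≤ B0 := (norm_nonneg _).trans (hB 0)
  refine ⟨B0 * M, by positivity, fun h hh => ?_⟩
  have hpi := Real.pi_pos
  have hlim : Tendsto (fun N => SS (fun n => c n * ((uu (n * h) : ℝ) : ℂ)) N x) atTop
      (𝓝 (Del c h x)) :=
    ((summable_Del c C hC h hh x).of_norm.hasSum).comp tendsto_Icc_int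
  have hlim2 := hlim.norm
  have hbd : ∀ N, ‖SS (fun n => c n * ((uu (n * h) : ℝ) : ℂ)) N x‖
      ≤ ‖SS c N x‖ + 8 * Real.pi * (B0 * M * h + ε) := by
    intro N
    rw [abel_sum]
    refine (norm_add_le _ _).trans (add_le_add ?_ ?_)
    · rw [norm_mul, Complex.norm_real, Real.norm_eq_abs, abs_of_nonneg (uu_nonneg _)]
      exact mul_le_of_le_one_right (norm_nonneg _) (uu_le_one _)
    · refine (norm_sum_le _ _).trans ?_
      have hd : ∀ j : ℕ, |uu (j * h) - uu ((j + 1 : ℕ) * h)|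
          ≤ 8 * Real.pi * (1 / (1 + j * h) - 1 / (1 + (j + 1 : ℕ) * h)) := by
        intro j
        apply uu_diff
        · positivity
        · push_cast; nlinarith
      have hd2 : ∀ j : ℕ, |uu (j * h) - uu ((j + 1 : ℕ) * h)| ≤ 8 * Real.pi * h := by
        intro j
        refine (hd j).trans ?_
        have h1 : (1 : ℝ) / (1 + j * h) - 1 / (1 + (j + 1 : ℕ) * h) ≤ h := by
          have hp1 : 0 < 1 + (j : ℝ) * h := by positivity
          have hp2 : 0 < 1 + ((j + 1 : ℕ) : ℝ) * h := by positivity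
          rw [div_sub_div _ _ hp1.ne' hp2.ne', div_le_iff₀ (by positivity)]
          push_cast
          have : 0 ≤ (j : ℝ) * h := by positivity
          nlinarith [mul_nonneg this this, mul_nonneg this hh.le, mul_nonneg (mul_nonneg this this) hh.le, mul_nonneg (mul_nonneg this hh.le) hh.le, mul_pos hh hh]
        nlinarith
      have hterm : ∀ j ∈ Finset.range N, ‖SS c j x * ((uu (j * h) - uu ((j + 1 : ℕ) * h) : ℝ) : ℂ)‖
          ≤ (if j ∈ Finset.range M then B0 * (8 * Real.pi * h) else 0)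
            + ε * (8 * Real.pi * (1 / (1 + j * h) - 1 / (1 + (j + 1 : ℕ) * h))) := by
        intro j _
        rw [norm_mul, Complex.norm_real, Real.norm_eq_abs]
        by_cases hj : j ∈ Finset.range M
        · rw [if_pos hj]
          have h1 : 0 ≤ ε * (8 * Real.pi * (1 / (1 + j * h) - 1 / (1 + (j + 1 : ℕ) * h))) :=
            mul_nonneg hε.le ((abs_nonneg _).trans (hd j))
          have h2 := mul_le_mul (hB j) (hd2 j) (abs_nonneg _) hB0n
          linarith
        · rw [if_neg hj, zero_add]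
          rw [Finset.mem_range, not_lt] at hj
          exact mul_le_mul (hM j hj) (hd j) (abs_nonneg _) hε.le
      refine (Finset.sum_le_sum hterm).trans ?_
      rw [Finset.sum_add_distrib, ← Finset.mul_sum, ← Finset.mul_sum, Finset.sum_ite_mem]
      have h1 : ∑ j ∈ Finset.range N ∩ Finset.range M, B0 * (8 * Real.pi * h)
          ≤ M * (B0 * (8 * Real.pi * h)) := by
        rw [Finset.sum_const, nsmul_eq_mul]
        have : (((Finset.range N ∩ Finset.range M).card : ℕ) : ℝ) ≤ M := by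
          have := Finset.card_le_card (Finset.inter_subset_right (s₁ := Finset.range N)
            (s₂ := Finset.range M))
          rw [Finset.card_range] at this
          exact_mod_cast this
        exact mul_le_mul_of_nonneg_right this (by positivity)
      have h2 : ∑ j ∈ Finset.range N, ((1 : ℝ) / (1 + j * h) - 1 / (1 + (j + 1 : ℕ) * h)) ≤ 1 := by
        have := Finset.sum_range_sub' (fun j : ℕ => (1 : ℝ) / (1 + j * h)) N
        rw [this]
        have : 0 ≤ (1 : ℝ) / (1 + N * h) := by positivity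
        simp
        positivity
      have h3 : ε * (8 * Real.pi * ∑ j ∈ Finset.range N,
          ((1 : ℝ) / (1 + j * h) - 1 / (1 + (j + 1 : ℕ) * h))) ≤ ε * (8 * Real.pi * 1) := by
        gcongr
      calc _ ≤ M * (B0 * (8 * Real.pi * h)) + ε * (8 * Real.pi * 1) := add_le_add h1 h3
        _ = _ := by ring
  have hlim3 : Tendsto (fun N => ‖SS c N x‖ + 8 * Real.pi * (B0 * M * h + ε)) atTop
      (𝓝 (0 + 8 * Real.pi * (B0 * M * h + ε))) := hn.add tendsto_const_nhds
  have := le_of_tendsto_of_tendsto' hlim2 hlim3 hbd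
  rwa [zero_add] at this

/-- Riemann's first theorem on trigonometric series -/
lemma riemann_first (c : ℤ → ℂ) (C : ℝ) (hC : ∀ z, ‖c z‖ ≤ C) (x : ℝ)
    (hx : Tendsto (fun N => SS c N x) atTop (𝓝 0)) :
    Tendsto (fun h => Del c h x) (𝓝[>] 0) (𝓝 0) := by
  rw [Metric.tendsto_nhds]
  intro η hη
  have hpi := Real.pi_pos
  obtain ⟨B, hB, hbd⟩ := Del_bound c C hC x hx (η / (32 * Real.pi)) (by positivity)
  have h1 : 0 < η / (32 * Real.pi * (B + 1)) := by positivity
  filter_upwards [Ioo_mem_nhdsGT h1] with h hh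
  rw [dist_zero_right]
  refine lt_of_le_of_lt (hbd h hh.1) ?_
  have h2 := hh.2
  rw [lt_div_iff₀ (by positivity)] at h2
  have h3 : 8 * Real.pi * (η / (32 * Real.pi)) = η / 4 := by field_simp; ring
  have h4 : 8 * Real.pi * (B * h) ≤ η / 4 := by
    nlinarith [mul_pos hpi hh.1]
  rw [mul_add, h3]
  linarith

/-- Riemann's function -/
noncomputable def RF (c : ℤ → ℂ) (x : ℝ) : ℂ :=
  c 0 * (x : ℂ) ^ 2 / 2 - ∑' n : ℤ, c n / (4 * (Real.pi : ℂ) ^ 2 * (n : ℂ) ^ 2) * ee n x

lemma summable_RF (c : ℤ → ℂ) (C : ℝ) (hC : ∀ z, ‖c z‖ ≤ C) :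
    Summable (fun n : ℤ => C / (4 * Real.pi ^ 2) * (1 / (n : ℝ) ^ 2)) :=
  (Real.summable_one_div_int_pow.mpr one_lt_two).mul_left _

lemma RF_term_bound (c : ℤ → ℂ) (C : ℝ) (hC : ∀ z, ‖c z‖ ≤ C) (n : ℤ) (x : ℝ) :
    ‖c n / (4 * (Real.pi : ℂ) ^ 2 * (n : ℂ) ^ 2) * ee n x‖
      ≤ C / (4 * Real.pi ^ 2) * (1 / (n : ℝ) ^ 2) := by
  rw [norm_mul, norm_ee, mul_one, norm_div, norm_mul, norm_mul, norm_pow, norm_pow,
    Complex.norm_real, Real.norm_eq_abs, abs_of_pos Real.pi_pos]
  have : ‖(n : ℂ)‖ ^ 2 = (n : ℝ) ^ 2 := by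
    rw [Complex.norm_intCast, sq_abs]
  rw [this, Complex.norm_ofNat]
  by_cases hn : n = 0
  · subst hn; simp
  · have hn' : (n : ℝ) ≠ 0 := by exact_mod_cast hn
    have hp : 0 < (n : ℝ) ^ 2 := by positivity
    have hpi := Real.pi_pos
    rw [div_mul_div_comm, mul_one]
    gcongr
    exact hC n

lemma continuous_RF (c : ℤ → ℂ) (C : ℝ) (hC : ∀ z, ‖c z‖ ≤ C) : Continuous (RF c) := by
  unfold RF
  refine Continuous.sub (by fun_prop) ?_
  exact continuous_tsum (fun n => continuous_const.mul (continuous_ee n)) (summable_RF c C hC)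
    (fun n x => RF_term_bound c C hC n x)

lemma second_diff (c : ℤ → ℂ) (C : ℝ) (hC : ∀ z, ‖c z‖ ≤ C) (x h : ℝ) (hh : 0 < h) :
    RF c (x + h) + RF c (x - h) - 2 * RF c x = (h : ℂ) ^ 2 * Del c h x := by
  have hs : ∀ y, HasSum (fun n : ℤ => c n / (4 * (Real.pi : ℂ) ^ 2 * (n : ℂ) ^ 2) * ee n y)
      (∑' n : ℤ, c n / (4 * (Real.pi : ℂ) ^ 2 * (n : ℂ) ^ 2) * ee n y) := by
    intro y
    refine Summable.hasSum (Summable.of_norm_bounded (summable_RF c C hC)
      (fun n => RF_term_bound c C hC n y))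
  have h1 := (((hs (x + h)).add (hs (x - h))).sub ((hs x).mul_left 2)).neg
  have h2 := (hasSum_ite_eq (0 : ℤ) (c 0 * (h : ℂ) ^ 2)).add h1
  have h3 : HasSum (fun n : ℤ => (h : ℂ) ^ 2 * (c n * ((uu (n * h) : ℝ) : ℂ) * ee n x))
      ((h : ℂ) ^ 2 * Del c h x) :=
    ((summable_Del c C hC h hh x).of_norm.hasSum).mul_left _
  have e : (fun n : ℤ => (h : ℂ) ^ 2 * (c n * ((uu (n * h) : ℝ) : ℂ) * ee n x)) =
      fun n : ℤ => (if n = 0 then c 0 * (h : ℂ) ^ 2 else 0) +
        -(c n / (4 * (Real.pi : ℂ) ^ 2 * (n : ℂ) ^ 2) * ee n (x + h)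
          + c n / (4 * (Real.pi : ℂ) ^ 2 * (n : ℂ) ^ 2) * ee n (x - h)
          - 2 * (c n / (4 * (Real.pi : ℂ) ^ 2 * (n : ℂ) ^ 2) * ee n x)) := by
    funext n
    by_cases hn : n = 0
    · subst hn
      simp [uu_zero, ee_zero]
      ring
    · rw [if_neg hn, zero_add]
      have hn' : (n : ℝ) ≠ 0 := by exact_mod_cast hn
      have hnc : (n : ℂ) ≠ 0 := by exact_mod_cast hn
      have hpc : (Real.pi : ℂ) ≠ 0 := by exact_mod_cast Real.pi_ne_zero
      have hhc : (h : ℂ) ≠ 0 := by exact_mod_cast hh.ne'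
      rw [sub_eq_add_neg x h, ee_add_right, ee_add_right]
      have e1 : c n / (4 * (Real.pi : ℂ) ^ 2 * (n : ℂ) ^ 2) * (ee n x * ee n h)
          + c n / (4 * (Real.pi : ℂ) ^ 2 * (n : ℂ) ^ 2) * (ee n x * ee n (-h))
          - 2 * (c n / (4 * (Real.pi : ℂ) ^ 2 * (n : ℂ) ^ 2) * ee n x)
          = c n / (4 * (Real.pi : ℂ) ^ 2 * (n : ℂ) ^ 2) * ee n x * ((ee n h + ee n (-h)) - 2) := by
        ring
      rw [e1, ee_add_neg]
      have e2 : uu (n * h) = (1 - Real.cos (2 * Real.pi * n * h)) / (2 * Real.pi ^ 2 * n ^ 2 * h ^ 2) := by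
        unfold uu
        rw [Real.sinc_of_ne_zero (by have := Real.pi_pos; positivity), div_pow, Real.sin_sq_eq_half_sub]
        have : 2 * (Real.pi * (n * h)) = 2 * Real.pi * n * h := by ring
        rw [this]
        have := Real.pi_pos
        field_simp
      rw [e2]
      push_cast
      field_simp
      ring
  rw [e] at h3
  have h4 := h3.unique h2
  rw [h4]
  unfold RF
  push_cast
  ring

/-- localisation: the Riemann mean vanishes when the series converges to zero near `x`. -/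
lemma Del_eq_zero (c : ℤ → ℂ) (C : ℝ) (hC : ∀ z, ‖c z‖ ≤ C) (x h : ℝ) (hh : 0 < h)
    (H : ∀ y ∈ Ioo (x - h) (x + h), Tendsto (fun N => SS c N y) atTop (𝓝 0)) :
    Del c h x = 0 := by
  have h1 := schwarz_complex (RF c) (continuous_RF c C hC) x h hh (by
    intro y hy
    have h2 := riemann_first c C hC y (H y hy)
    refine h2.congr' ?_
    filter_upwards [self_mem_nhdsWithin] with t ht
    have ht' : (0 : ℝ) < t := ht
    rw [second_diff c C hC y t ht']
    have : (t : ℂ) ≠ 0 := by exact_mod_cast ht'.ne'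
    field_simp)
  rw [second_diff c C hC x h hh] at h1
  have : (h : ℂ) ≠ 0 := by exact_mod_cast hh.ne'
  simpa [this] using h1

end Pool.Agent.MP535d13
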