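import Pool.Agent.Lib.MP_535d13_an.Uniq2
import Pool.Agent.Lib.MP_535d13_an.Equi

set_option autoImplicit false

open MeasureTheory Set Filter Topology

namespace Pool.Agent.MP535d13

lemma hasSum_G (x : ℝ) (hx : x ∈ Icc (0 : ℝ) 1) :
    HasSum (fun n : ℤ => 1 / (n : ℂ) ^ 2 * ee n x)
      (2 * (Real.pi : ℂ) ^ 2 * ((x ^ 2 - x + 6⁻¹ : ℝ) : ℂ)) := by
  have h := hasSum_one_div_pow_mul_fourier_mul_bernoulliFun (le_refl 2) hx
  have e : (fun n : ℤ => 1 / (n : ℂ) ^ 2 * fourier n (x : UnitAddCircle))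
      = fun n : ℤ => 1 / (n : ℂ) ^ 2 * ee n x := by
    funext n
    rw [fourier_coe_apply]
    unfold ee
    simp
  rw [e, bernoulliFun_two] at h
  have e2 : (-(2 * (Real.pi : ℂ) * Complex.I) ^ 2 / ((Nat.factorial 2 : ℕ) : ℂ)
      * ((x ^ 2 - x + 6⁻¹ : ℝ) : ℂ)) = (2 * (Real.pi : ℂ) ^ 2 * ((x ^ 2 - x + 6⁻¹ : ℝ) : ℂ)) := by
    rw [mul_pow, mul_pow, Complex.I_sq]
    have : ((Nat.factorial 2 : ℕ) : ℂ) = 2 := by norm_num [Nat.factorial]
    rw [this]
    ring
  rw [e2] at h
  exact h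

/-- coefficients of the (negative) tent function centred at `0` with half-width `1/8` -/
noncomputable def bb (n : ℤ) : ℂ :=
  (if n = 0 then -(4 * (Real.pi : ℂ) ^ 2 * (1 / 8) ^ 2) else 0)
    + 1 / (n : ℂ) ^ 2 * (2 * (Real.cos (2 * Real.pi * n * (1 / 8)) : ℝ) - 2)

lemma bb_norm (n : ℤ) : ‖bb n‖ ≤ (if n = 0 then 4 * Real.pi ^ 2 * (1 / 8) ^ 2 else 0)
    + 1 / (n : ℝ) ^ 2 * 4 := by
  unfold bb
  refine (norm_add_le _ _).trans (add_le_add ?_ ?_)
  · by_cases hn : n = 0
    · rw [if_pos hn, if_pos hn, norm_neg, norm_mul, norm_mul, norm_pow, norm_pow, norm_div,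
        Complex.norm_real, Real.norm_eq_abs, abs_of_pos Real.pi_pos]
      simp
    · rw [if_neg hn, if_neg hn, norm_zero]
  · rw [norm_mul, norm_div, norm_pow, Complex.norm_intCast, sq_abs, norm_one]
    gcongr
    refine (norm_sub_le _ _).trans ?_
    rw [norm_mul, Complex.norm_real, Complex.norm_ofNat, Real.norm_eq_abs]
    have := Real.abs_cos_le_one (2 * Real.pi * n * (1 / 8))
    linarith

lemma summable_bb : Summable (fun n => ‖bb n‖) := by
  refine Summable.of_nonneg_of_le (fun n => norm_nonneg _) bb_norm ?_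
  refine Summable.add ?_ ?_
  · exact (hasSum_ite_eq (0 : ℤ) (4 * Real.pi ^ 2 * (1 / 8 : ℝ) ^ 2)).summable
  · exact (Real.summable_one_div_int_pow.mpr one_lt_two).mul_right _

lemma tent_zero (x : ℝ) (hx : x ∈ Icc (1 / 8 : ℝ) (7 / 8)) :
    ∑' n : ℤ, bb n * ee n x = 0 := by
  have h1 := hasSum_G (x + 1 / 8) ⟨by linarith [hx.1], by linarith [hx.2]⟩
  have h2 := hasSum_G (x - 1 / 8) ⟨by linarith [hx.1], by linarith [hx.2]⟩
  have h3 := hasSum_G x ⟨by linarith [hx.1], by linarith [hx.2]⟩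
  have h4 := (hasSum_ite_eq (0 : ℤ) (-(4 * (Real.pi : ℂ) ^ 2 * (1 / 8) ^ 2))).add
    ((h1.add h2).sub (h3.mul_left 2))
  refine HasSum.tsum_eq ?_
  have e0 : (fun n : ℤ => bb n * ee n x) = fun n : ℤ =>
      (if n = 0 then -(4 * (Real.pi : ℂ) ^ 2 * (1 / 8) ^ 2) else 0) +
        (1 / (n : ℂ) ^ 2 * ee n (x + 1 / 8) + 1 / (n : ℂ) ^ 2 * ee n (x - 1 / 8)
          - 2 * (1 / (n : ℂ) ^ 2 * ee n x)) := by
    funext n
    unfold bb
    by_cases hn : n = 0
    · subst hn
      simp [ee_zero]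
    · rw [if_neg hn, zero_add, zero_add, sub_eq_add_neg x, ee_add_right, ee_add_right]
      have e1 : 1 / (n : ℂ) ^ 2 * (ee n x * ee n (1 / 8)) + 1 / (n : ℂ) ^ 2 * (ee n x * ee n (-(1 / 8)))
          - 2 * (1 / (n : ℂ) ^ 2 * ee n x)
          = 1 / (n : ℂ) ^ 2 * ee n x * ((ee n (1 / 8) + ee n (-(1 / 8))) - 2) := by ring
      rw [e1, ee_add_neg]
      ring
  have e3 : (-(4 * (Real.pi : ℂ) ^ 2 * (1 / 8) ^ 2) +
      (2 * (Real.pi : ℂ) ^ 2 * (((x + 1 / 8) ^ 2 - (x + 1 / 8) + 6⁻¹ : ℝ) : ℂ) +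
          2 * (Real.pi : ℂ) ^ 2 * (((x - 1 / 8) ^ 2 - (x - 1 / 8) + 6⁻¹ : ℝ) : ℂ) -
        2 * (2 * (Real.pi : ℂ) ^ 2 * ((x ^ 2 - x + 6⁻¹ : ℝ) : ℂ)))) = 0 := by
    push_cast
    ring
  rw [e0]
  rw [e3] at h4
  exact h4

lemma ee_add_int (n : ℤ) (x : ℝ) (p : ℤ) : ee n (x + p) = ee n x := by
  rw [ee_add_right]
  have : ee n (p : ℝ) = 1 := by
    unfold ee
    have := Complex.exp_int_mul_two_pi_mul_I (n * p)
    rw [← this]
    congr 1
    push_cast; ring
  rw [this, mul_one]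

/-- coefficients of the tent function centred at `3/4` -/
noncomputable def aa (n : ℤ) : ℂ := bb n * ee n (-(3 / 4))

lemma summable_aa : Summable (fun n => ‖aa n‖) := by
  refine summable_bb.congr fun n => ?_
  rw [aa, norm_mul, norm_ee, mul_one]

lemma aa_zero : aa 0 ≠ 0 := by
  unfold aa bb
  rw [ee_zero]
  have : (Real.pi : ℂ) ≠ 0 := by exact_mod_cast Real.pi_ne_zero
  simp [this]

lemma tent_support (y : ℝ) (hy : ∑' n : ℤ, aa n * ee n y ≠ 0) :
    ∃ p : ℤ, (p : ℝ) + 5 / 8 < y ∧ y < p + 7 / 8 := by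
  by_contra hcon
  push Not at hcon
  apply hy
  set z := y - 3 / 4 with hz
  have hf0 := Int.fract_nonneg z
  have hf1 := Int.fract_lt_one z
  have hzf : z = Int.fract z + (⌊z⌋ : ℤ) := (Int.fract_add_floor z).symm
  have hmem : Int.fract z ∈ Icc (1 / 8 : ℝ) (7 / 8) := by
    constructor
    · by_contra hlt
      push Not at hlt
      have := hcon ⌊z⌋ (by linarith)
      linarith
    · by_contra hlt
      push Not at hlt
      have := hcon (⌊z⌋ + 1) (by push_cast; linarith)
      push_cast at this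
      linarith
  have e : ∀ n : ℤ, aa n * ee n y = bb n * ee n (Int.fract z) := by
    intro n
    unfold aa
    rw [mul_assoc, ← ee_add_right]
    have : -(3 / 4) + y = Int.fract z + (⌊z⌋ : ℤ) := by rw [← hzf, hz]; ring
    rw [this, ee_add_int]
  simp_rw [e]
  exact tent_zero _ hmem

/-- Fourier coefficients of a vanishing product. -/
lemma product_zero (α β : ℤ → ℂ) (hα : Summable (fun n => ‖α n‖)) (hβ : Summable (fun n => ‖β n‖))
    (q : ℤ) (H : ∀ x : ℝ, (∑' j : ℤ, α j * ee j ((q : ℝ) * x)) * (∑' k : ℤ, β k * ee k x) = 0)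
    (m : ℤ) : ∑' j : ℤ, α j * β (m - j * q) = 0 := by
  set f : ℤ × ℤ → C(ℝ, ℂ) := fun p =>
    ⟨fun x => α p.1 * β p.2 * ee (p.1 * q + p.2 - m) x, continuous_const.mul (continuous_ee _)⟩ with hf
  have hprod : Summable (fun p : ℤ × ℤ => ‖α p.1‖ * ‖β p.2‖) :=
    hα.mul_of_nonneg hβ (fun _ => norm_nonneg _) (fun _ => norm_nonneg _)
  have hfs : Summable fun p : ℤ × ℤ =>
      ‖(f p).restrict (⟨uIcc 0 1, isCompact_uIcc⟩ : TopologicalSpace.Compacts ℝ)‖ := by
    refine Summable.of_nonneg_of_le (fun p => norm_nonneg _) (fun p => ?_) hprod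
    rw [ContinuousMap.norm_le _ (mul_nonneg (norm_nonneg _) (norm_nonneg _))]
    intro x
    simp only [hf, ContinuousMap.restrict_apply, ContinuousMap.coe_mk]
    rw [norm_mul, norm_ee, mul_one, norm_mul]
  have h1 := intervalIntegral.hasSum_intervalIntegral_of_summable_norm (a := 0) (b := 1) hfs
  have hzero : ∀ x : ℝ, ∑' p : ℤ × ℤ, f p x = 0 := by
    intro x
    have ha : Summable (fun j : ℤ => ‖α j * ee j ((q : ℝ) * x)‖) := by
      refine hα.congr fun n => ?_
      rw [norm_mul, norm_ee, mul_one]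
    have hb : Summable (fun j : ℤ => ‖β j * ee j x‖) := by
      refine hβ.congr fun n => ?_
      rw [norm_mul, norm_ee, mul_one]
    have h2 := tsum_mul_tsum_of_summable_norm ha hb
    rw [H x] at h2
    have h3 : ∀ p : ℤ × ℤ, f p x = (α p.1 * ee p.1 ((q : ℝ) * x) * (β p.2 * ee p.2 x)) * ee (-m) x := by
      intro p
      simp only [hf, ContinuousMap.coe_mk]
      rw [sub_eq_add_neg, ee_add, ee_add, ee_mul]
      ring
    simp_rw [h3]
    rw [tsum_mul_right, ← h2, zero_mul]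
  simp_rw [hzero] at h1
  rw [intervalIntegral.integral_zero] at h1
  have h4 : ∀ p : ℤ × ℤ, ∫ x in (0 : ℝ)..1, f p x
      = if p.2 = m - p.1 * q then α p.1 * β p.2 else 0 := by
    intro p
    simp only [hf, ContinuousMap.coe_mk]
    rw [intervalIntegral.integral_const_mul, ee_integral]
    by_cases hp : p.2 = m - p.1 * q
    · rw [if_pos hp, if_pos (by rw [hp]; ring), mul_one]
    · rw [if_neg hp, if_neg (fun h => hp (by linarith)), mul_zero]
  simp_rw [h4] at h1
  have h5 := h1.prod_fiberwise (g := fun j => α j * β (m - j * q)) (fun j => by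
    have := hasSum_ite_eq (m - j * q) (α j * β (m - j * q))
    have e5 : (fun k : ℤ => if k = m - j * q then α j * β k else 0)
        = fun k : ℤ => if k = m - j * q then α j * β (m - j * q) else 0 := by
      funext k
      by_cases hk : k = m - j * q
      · rw [if_pos hk, if_pos hk, hk]
      · rw [if_neg hk, if_neg hk]
    show HasSum (fun k : ℤ => if k = m - j * q then α j * β k else 0) (α j * β (m - j * q))
    rw [e5]
    exact this)
  exact h5.tsum_eq

/-- The uniqueness theorem (Rajchman) for the sets `K ⊆ ⋂ E (n i)`. -/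
theorem uniqueness (K : Set ℝ) (n : ℕ → ℕ) (hn : StrictMono n) (hn1 : ∀ i, 1 ≤ n i)
    (hK : ∀ i, K ⊆ E (n i)) (c : ℤ → ℂ)
    (hc : ∀ x : ℝ, (∀ m : ℤ, x + (m : ℝ) ∉ K) → Tendsto (fun N : ℕ => SS c N x) atTop (𝓝 0)) :
    ∀ z : ℤ, c z = 0 := by
  -- convergence off the sets `E`
  have hV : ∀ x : ℝ, ∀ i : ℕ, 1 / 2 < Int.fract ((n i : ℝ) * x) →
      Tendsto (fun N : ℕ => SS c N x) atTop (𝓝 0) := by
    intro x i hx
    refine hc x fun m hm => ?_
    have h1 : Int.fract ((n i : ℝ) * (x + m)) ≤ 1 / 2 := hK i hm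
    have h2 : (n i : ℝ) * (x + m) = (n i : ℝ) * x + (((n i : ℤ) * m : ℤ) : ℝ) := by
      push_cast; ring
    rw [h2, Int.fract_add_intCast] at h1
    linarith
  have hfr : ∀ y : ℝ, ∀ p : ℤ, (p : ℝ) + 1 / 2 < y → y < p + 1 → 1 / 2 < Int.fract y := by
    intro y p h1 h2
    have : ⌊y⌋ = p := by
      rw [Int.floor_eq_iff]; constructor <;> linarith
    rw [Int.fract, this]
    linarith
  have hn0 : ∀ i, (0 : ℝ) < n i := fun i => by
    have := hn1 i
    exact_mod_cast this
  -- an interval of convergence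
  have hint : ∀ x ∈ Ioo (1 / (2 * (n 0 : ℝ))) (1 / (n 0 : ℝ)),
      Tendsto (fun N : ℕ => SS c N x) atTop (𝓝 0) := by
    intro x hx
    refine hV x 0 (hfr _ 0 ?_ ?_)
    · have h1 := hx.1
      rw [div_lt_iff₀ (by have := hn0 0; positivity)] at h1
      push_cast
      linarith
    · have h1 := hx.2
      rw [lt_div_iff₀ (hn0 0)] at h1
      push_cast
      linarith
  have hlt : 1 / (2 * (n 0 : ℝ)) < 1 / (n 0 : ℝ) := by
    have := hn0 0
    apply one_div_lt_one_div_of_lt <;> linarith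
  obtain ⟨C, hC0, hC⟩ := coeff_bdd c _ _ hlt hint
  have hct := coeff_tendsto c _ _ hlt hint
  -- the identity for positive `h`
  have hid : ∀ i : ℕ, ∀ h : ℝ, 0 < h → h ≤ 1 / (8 * n i) → ∀ m : ℤ,
      ∑' j : ℤ, aa j * (c (m - j * (n i : ℤ)) * ((uu (((m - j * (n i : ℤ) : ℤ) : ℝ) * h) : ℝ) : ℂ)) = 0 := by
    intro i h hh hhi m
    have hβ : Summable (fun k : ℤ => ‖c k * ((uu (k * h) : ℝ) : ℂ)‖) := by
      have := summable_Del c C hC h hh 0
      refine this.congr fun k => ?_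
      rw [ee_zero_right, mul_one]
    refine product_zero aa (fun k => c k * ((uu (k * h) : ℝ) : ℂ)) summable_aa hβ (n i : ℤ) ?_ m
    intro x
    by_cases hx : ∑' j : ℤ, aa j * ee j (((n i : ℤ) : ℝ) * x) = 0
    · rw [hx, zero_mul]
    · obtain ⟨p, hp1, hp2⟩ := tent_support _ hx
      rw [Int.cast_natCast] at hp1 hp2
      have hni : h * n i ≤ 1 / 8 := by
        rw [le_div_iff₀ (by have := hn0 i; positivity)] at hhi
        linarith
      have : ∑' k : ℤ, c k * ((uu (k * h) : ℝ) : ℂ) * ee k x = 0 := by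
        refine Del_eq_zero c C hC x h hh fun y hy => hV y i (hfr _ p ?_ ?_)
        · have h1 := mul_lt_mul_of_pos_left hy.1 (hn0 i)
          linarith
        · have h1 := mul_lt_mul_of_pos_left hy.2 (hn0 i)
          linarith
      rw [this, mul_zero]
  -- let `h → 0`
  have hid2 : ∀ i : ℕ, ∀ m : ℤ, ∑' j : ℤ, aa j * c (m - j * (n i : ℤ)) = 0 := by
    intro i m
    have hlim : Tendsto (fun h : ℝ => ∑' j : ℤ, aa j * (c (m - j * (n i : ℤ))
        * ((uu (((m - j * (n i : ℤ) : ℤ) : ℝ) * h) : ℝ) : ℂ))) (𝓝[>] 0)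
        (𝓝 (∑' j : ℤ, aa j * c (m - j * (n i : ℤ)))) := by
      refine tendsto_tsum_of_dominated_convergence (bound := fun j => ‖aa j‖ * C)
        (summable_aa.mul_right C) ?_ ?_
      · intro j
        have h1 : Tendsto (fun h : ℝ => uu (((m - j * (n i : ℤ) : ℤ) : ℝ) * h)) (𝓝[>] 0) (𝓝 1) := by
          have h2 : Continuous (fun h : ℝ => uu (((m - j * (n i : ℤ) : ℤ) : ℝ) * h)) :=
            continuous_uu.comp (continuous_const.mul continuous_id)
          have h3 := h2.tendsto 0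
          simp only [mul_zero, uu_zero] at h3
          exact h3.mono_left nhdsWithin_le_nhds
        have h4 : Tendsto (fun h : ℝ => ((uu (((m - j * (n i : ℤ) : ℤ) : ℝ) * h) : ℝ) : ℂ)) (𝓝[>] 0)
            (𝓝 ((1 : ℝ) : ℂ)) := (Complex.continuous_ofReal.tendsto 1).comp h1
        have h5 := (h4.const_mul (c (m - j * (n i : ℤ)))).const_mul (aa j)
        rw [Complex.ofReal_one, mul_one] at h5
        exact h5
      · filter_upwards with h j
        rw [norm_mul, norm_mul, Complex.norm_real, Real.norm_eq_abs, abs_of_nonneg (uu_nonneg _)]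
        refine mul_le_mul_of_nonneg_left ?_ (norm_nonneg _)
        calc _ ≤ C * 1 := mul_le_mul (hC _) (uu_le_one _) (uu_nonneg _) hC0
          _ = C := mul_one C
    have hzero : Tendsto (fun h : ℝ => ∑' j : ℤ, aa j * (c (m - j * (n i : ℤ))
        * ((uu (((m - j * (n i : ℤ) : ℤ) : ℝ) * h) : ℝ) : ℂ))) (𝓝[>] 0) (𝓝 0) := by
      refine tendsto_const_nhds.congr' ?_
      have hpos : 0 < 1 / (8 * (n i : ℝ)) := by have := hn0 i; positivity
      filter_upwards [Ioo_mem_nhdsGT hpos] with h hh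
      exact (hid i h hh.1 hh.2.le m).symm
    exact tendsto_nhds_unique hlim hzero
  -- let `i → ∞`
  intro m
  have hlim : Tendsto (fun i : ℕ => ∑' j : ℤ, aa j * c (m - j * (n i : ℤ))) atTop
      (𝓝 (∑' j : ℤ, if j = 0 then aa 0 * c m else 0)) := by
    refine tendsto_tsum_of_dominated_convergence (bound := fun j => ‖aa j‖ * C)
      (summable_aa.mul_right C) ?_ ?_
    · intro j
      by_cases hj : j = 0
      · subst hj
        simp
      · rw [if_neg hj]
        have h1 : Tendsto (fun i : ℕ => c (m - j * (n i : ℤ))) atTop (𝓝 0) := by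
          rw [Metric.tendsto_atTop]
          intro ε hε
          obtain ⟨M, hM⟩ := hct (ε / 2) (by positivity)
          refine ⟨M + m.natAbs, fun i hi => ?_⟩
          rw [dist_zero_right]
          refine lt_of_le_of_lt (hM _ ?_) (by linarith)
          have h2 : i ≤ n i := hn.le_apply
          have h3 : (1 : ℤ) ≤ |j| := Int.one_le_abs hj
          have h4 : |j * (n i : ℤ)| ≤ |m - j * (n i : ℤ)| + |m| := by
            have := abs_sub_abs_le_abs_sub (j * (n i : ℤ)) m
            rw [abs_sub_comm] at this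
            linarith
          have h5 : (n i : ℤ) ≤ |j * (n i : ℤ)| := by
            rw [abs_mul, abs_of_nonneg (show (0 : ℤ) ≤ (n i : ℤ) by positivity)]
            nlinarith [show (0 : ℤ) ≤ (n i : ℤ) by positivity]
          have h6 : |m| = (m.natAbs : ℤ) := by rw [Int.natCast_natAbs]
          have h7 : ((M + m.natAbs : ℕ) : ℤ) ≤ (n i : ℤ) := by exact_mod_cast hi.trans h2
          push_cast at h7
          rw [h6] at h4
          push_cast at h4
          linarith
        have h2 := h1.const_mul (aa j)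
        rwa [mul_zero] at h2
    · filter_upwards with i j
      rw [norm_mul]
      exact mul_le_mul_of_nonneg_left (hC _) (norm_nonneg _)
  simp_rw [hid2] at hlim
  rw [tsum_ite_eq] at hlim
  have h1 := tendsto_nhds_unique hlim tendsto_const_nhds
  rcases mul_eq_zero.mp h1 with h2 | h2
  · exact absurd h2 aa_zero
  · exact h2

end Pool.Agent.MP535d13
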